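import Pool.Agent.Lib.MP_d03834_ag.Squares

set_option autoImplicit false

namespace Pool.Agent.Lib.MP_d03834_ag

lemma rot (p q : ℕ) (hq : 0 < q) (hpq : Nat.Coprime p q) (y : ℝ) :
    ∃ (i : ℕ) (v : ℤ), i < q ∧ |y + i * (p / q) - v| ≤ 1 / (2 * q) := by
  obtain ⟨a, b, hab⟩ : IsCoprime (p : ℤ) q := Nat.isCoprime_iff_coprime.2 hpq
  set j := round (-(y * q)) with hj
  have h1 := abs_sub_round (-(y * q))
  have hq' : (0 : ℤ) < q := by exact_mod_cast hq
  have h2 := Int.emod_nonneg (a * j) hq'.ne'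
  have h3 := Int.emod_lt_of_pos (a * j) hq'
  have h4 := Int.emod_add_mul_ediv (a * j) q
  obtain ⟨i, hi⟩ := Int.eq_ofNat_of_zero_le h2
  refine ⟨i, -(j * b) - (a * j / q) * p, by omega, ?_⟩
  have h5 : (i : ℤ) * p = j + (-(j * b) - (a * j / q) * p) * q := by
    rw [← hi]
    linear_combination (p : ℤ) * h4 + j * hab
  generalize -(j * b) - (a * j / q) * p = v at *
  have h6 : (i : ℝ) * p = j + v * q := by exact_mod_cast h5
  have hq0 : (0 : ℝ) < q := by exact_mod_cast hq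
  have h7 : y + i * (p / q) - v = -(-(y * q) - j) / q := by
    field_simp
    linarith
  rw [h7, abs_div, abs_neg, abs_of_pos hq0, div_le_div_iff₀ hq0 (by positivity)]
  nlinarith

lemma near_d {n m d : ℕ} {R : ℝ} (hR : R ^ 2 = n) (hR0 : 0 ≤ R)
    (he1 : n * T m ≤ T (d + 1) + d + 1) (he2 : T (d + 1) ≤ n * T m + d + 1) :
    R * m ≤ d + 5 / 2 ∧ d ≤ R * (m + 1 / 2) := by
  have t1 : (2 * T m : ℝ) = m * (m + 1) := by exact_mod_cast two_T m
  have t2 : (2 * T (d + 1) : ℝ) = (d + 1) * (d + 1 + 1) := by exact_mod_cast two_T (d + 1)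
  have h1 : (n * T m : ℝ) ≤ T (d + 1) + d + 1 := by exact_mod_cast he1
  have h2 : (T (d + 1) : ℝ) ≤ n * T m + d + 1 := by exact_mod_cast he2
  have h3 : 2 * ((n : ℝ) * T m) = R ^ 2 * (m * (m + 1)) := by rw [hR, ← t1]; ring
  have h4 : 0 ≤ R ^ 2 * m := by positivity
  have h5 : (0 : ℝ) ≤ d := by positivity
  constructor
  · exact (abs_le_of_sq_le_sq' (by nlinarith) (by positivity)).2
  · exact (abs_le_of_sq_le_sq' (by nlinarith) (by positivity)).2

lemma err_bound {R m d q i k0 s : ℝ} (hR : 1000000 ≤ R) (hm : R ≤ m) (h1 : R * m ≤ d + 5 / 2)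
    (h2 : d ≤ R * (m + 1 / 2)) (hi0 : 0 ≤ i) (hi : i ≤ q) (hq0 : 0 < q) (hq : 1000 * q ≤ R)
    (hk0 : 0 ≤ k0) (hk : k0 ≤ R / 2) (hs : |R - s| ≤ 1 / q ^ 2) :
    |i * ((2 * d + 3) / (2 * (m + 1))) + (2 * k0 * i + i ^ 2) / (2 * (m + 1)) - i * s| ≤
      1 / q + 3 / 1000 * (R ^ 2 / m) := by
  have e : i * ((2 * d + 3) / (2 * (m + 1))) + (2 * k0 * i + i ^ 2) / (2 * (m + 1)) - i * s =
      i * (R - s) + i * ((2 * d + 3 - 2 * R * (m + 1) + 2 * k0 + i) / (2 * (m + 1))) := by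
    have : m + 1 ≠ 0 := by linarith
    field_simp; ring
  rw [e]
  refine (abs_add_le _ _).trans (add_le_add ?_ ?_)
  · rw [abs_mul, abs_of_nonneg hi0]
    calc i * |R - s| ≤ q * (1 / q ^ 2) := by gcongr
      _ = 1 / q := by field_simp
  · rw [abs_mul, abs_of_nonneg hi0, abs_div, abs_of_pos (show 0 < 2 * (m + 1) by linarith)]
    have h3 : |2 * d + 3 - 2 * R * (m + 1) + 2 * k0 + i| ≤ 6 * R := by
      rw [abs_le]; constructor <;> nlinarith
    calc i * (|2 * d + 3 - 2 * R * (m + 1) + 2 * k0 + i| / (2 * (m + 1))) ≤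
        (R / 1000) * (6 * R / (2 * m)) := by
          have : 0 < m := by linarith
          gcongr <;> linarith
      _ = _ := by
        have : m ≠ 0 := by linarith
        field_simp; ring

lemma pick_k (n m d p q : ℕ) (R : ℝ) (hR2 : R ^ 2 = n) (hR : 1000000 ≤ R) (hm : R ≤ m)
    (h1 : R * m ≤ d + 5 / 2) (h2 : d ≤ R * (m + 1 / 2)) (hq0 : 0 < q) (hpq : Nat.Coprime p q)
    (hq : 1000 * q ≤ R) (hs : |R - p / q| ≤ 1 / (q : ℝ) ^ 2) (hmq : 40 * m ≤ q * n) (δ : ℝ) :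
    ∃ (k : ℕ) (v : ℤ), R / 2 - 1 ≤ k ∧ k ≤ R / 2 + R / 1000 ∧
      |δ + k * ((2 * d + 3) / (2 * (m + 1))) + (k : ℝ) ^ 2 / (2 * (m + 1)) - v| ≤
        1 / 20 * ((n : ℝ) / m) := by
  have a1 : (⌊R / 2⌋₊ : ℝ) ≤ R / 2 := Nat.floor_le (by linarith)
  have a2 : R / 2 < ⌊R / 2⌋₊ + 1 := Nat.lt_floor_add_one _
  generalize ⌊R / 2⌋₊ = k0 at *
  obtain ⟨i, v, hi, hv⟩ := rot p q hq0 hpq
    (δ + k0 * ((2 * d + 3) / (2 * (m + 1))) + (k0 : ℝ) ^ 2 / (2 * (m + 1)))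
  have hi' : (i : ℝ) ≤ q := by exact_mod_cast hi.le
  have hi0 : (0 : ℝ) ≤ i := by positivity
  have hq' : (0 : ℝ) < q := by exact_mod_cast hq0
  have h3 := err_bound hR hm h1 h2 hi0 hi' hq' hq (by positivity) a1 hs
  refine ⟨k0 + i, v, by push_cast; linarith, by push_cast; linarith, ?_⟩
  have e : δ + ((k0 + i : ℕ) : ℝ) * ((2 * d + 3) / (2 * (m + 1))) +
      ((k0 + i : ℕ) : ℝ) ^ 2 / (2 * (m + 1)) - v =
      (δ + k0 * ((2 * d + 3) / (2 * (m + 1))) + (k0 : ℝ) ^ 2 / (2 * (m + 1)) + i * (p / q) - v) +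
      (i * ((2 * d + 3) / (2 * (m + 1))) + (2 * k0 * i + i ^ 2) / (2 * (m + 1)) - i * (p / q)) := by
    push_cast; ring
  rw [e]
  refine (abs_add_le _ _).trans ((add_le_add hv h3).trans ?_)
  have h4 : 1 / (q : ℝ) ≤ 1 / 40 * (n / m) := by
    have : (40 * m : ℝ) ≤ q * n := by exact_mod_cast hmq
    rw [div_le_iff₀ hq', ← mul_div_assoc, div_mul_eq_mul_div, le_div_iff₀ (by linarith)]
    linarith
  have h5 : 1 / (2 * (q : ℝ)) = 1 / 2 * (1 / q) := by field_simp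
  have h6 : (0 : ℝ) ≤ n / m := by positivity
  rw [hR2, h5]
  linarith

lemma params2 (n m d p q : ℕ) (R : ℝ) (hR2 : R ^ 2 = n) (hR : 1000000 ≤ R) (hm : 1000 * R ≤ m)
    (hq0 : 0 < q) (hpq : Nat.Coprime p q)
    (hq : 1000 * q ≤ R) (hs : |R - p / q| ≤ 1 / (q : ℝ) ^ 2) (hmq : 40 * m ≤ q * n)
    (he1 : n * T m ≤ T (d + 1) + d + 1) (he2 : T (d + 1) ≤ n * T m + d + 1) :
    ∃ k x r b c : ℕ, 0 < k ∧ d = x + m * k ∧ n = r + k ^ 2 + 2 * (b + c) ∧
      T (x + k + 1) = T (x + 1) + (b + c) * (m + 1) + c + k ^ 2 ∧ n ≤ 5 * r ∧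
      20 * T (x + 1) + n * m ≤ 20 * (r * T m) ∧ 20 * (r * T m) + n * m ≤ 20 * T (x + k + 1) := by
  obtain ⟨h1, h2⟩ := near_d hR2 (by linarith) he1 he2
  obtain ⟨k, v, k1, k2, hv⟩ := pick_k n m d p q R hR2 hR (by linarith) h1 h2 hq0 hpq hq hs hmq
    ((n * T m - T (d + 1)) / (m * (m + 1)) - 1 / 10 * (n / m))
  have hm0 : (0 : ℝ) < m := by linarith
  have x1 : (m * k : ℝ) ≤ m * (R / 2 + R / 1000) := by gcongr
  have x2 : m * (R / 2 - 1) ≤ (m * k : ℝ) := by gcongr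
  have x3 : 1000000 * (m : ℝ) ≤ R * m := by gcongr
  obtain ⟨x, hx⟩ : ∃ x, d = x + m * k := by
    have : m * k ≤ d := by
      have : (m * k : ℝ) ≤ d := by linarith
      exact_mod_cast this
    exact ⟨d - m * k, by omega⟩
  have hx' : (d : ℝ) = x + m * k := by exact_mod_cast hx
  have x4 : 49 / 100 * (R * m) ≤ x := by linarith
  have t1 : (2 * T m : ℤ) = m * (m + 1) := by exact_mod_cast two_T m
  have t2 : (2 * T (d + 1) : ℤ) = (x + m * k + 1) * (x + m * k + 1 + 1) := by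
    rw [hx]; exact_mod_cast two_T (x + m * k + 1)
  have t3 : (2 * T (x + 1) : ℤ) = (x + 1) * (x + 1 + 1) := by exact_mod_cast two_T (x + 1)
  have t4 : (2 * T (x + k + 1) : ℤ) = (x + k + 1) * (x + k + 1 + 1) := by
    exact_mod_cast two_T (x + k + 1)
  set bt : ℤ := v - k ^ 2 with hbt
  set r : ℤ := n - k ^ 2 - 2 * bt with hr
  set g : ℤ := r * T m - T (x + 1) with hg
  set c : ℤ := T (x + k + 1) - T (x + 1) - bt * (m + 1) - k ^ 2 with hc
  have i1 : 2 * g = 2 * (n * T m - T (d + 1)) + m * k * (2 * d + 3) + m * k ^ 2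
      - 2 * v * (m * (m + 1)) := by
    have hxz : (d : ℤ) = x + m * k := by exact_mod_cast hx
    rw [hg, hr, hbt, hxz]
    linear_combination (k ^ 2 - 2 * v) * t1 - t3 + t2
  have i2 : m * c = T (d + 1) - n * T m + g := by
    have : 2 * (m * c) = 2 * (T (d + 1) - n * T m + g) := by
      rw [hc, hg, hr]
      linear_combination m * t4 - m * t3 - t2 + t3 + (k ^ 2 + 2 * bt) * t1
    omega
  have i3 : 2 * (T (x + k + 1) - T (x + 1) : ℤ) = 2 * k * x + k ^ 2 + 3 * k := by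
    linear_combination t4 - t3
  have r1 : (2 * g : ℝ) = 2 * (n * T m - T (d + 1)) + m * k * (2 * d + 3) + m * k ^ 2
      - 2 * v * (m * (m + 1)) := by exact_mod_cast i1
  have r2 : (n * T m - T (d + 1)) / (m * (m + 1)) - 1 / 10 * (n / m) +
      k * ((2 * d + 3) / (2 * (m + 1))) + (k : ℝ) ^ 2 / (2 * (m + 1)) - v =
      (g - 1 / 10 * (n * (m + 1))) / (m * (m + 1)) := by
    field_simp
    linarith
  rw [r2, abs_div, abs_of_pos (show (0 : ℝ) < m * (m + 1) by positivity),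
    div_le_iff₀ (by positivity),
    show 1 / 20 * ((n : ℝ) / m) * (m * (m + 1)) = 1 / 20 * (n * (m + 1)) by field_simp,
    abs_le] at hv
  obtain ⟨g1, g2⟩ := hv
  have y1 : (1000 * n : ℝ) ≤ n * m := by
    rw [mul_comm]; gcongr; linarith
  have y2 : 1000000 * (R * m) ≤ n * m := by
    rw [← hR2, pow_two, mul_assoc]; gcongr
  have y3 : 24 / 100 * (n * m) ≤ (k * x : ℝ) := by
    have : (49 / 100 * R) * (49 / 100 * (R * m)) ≤ (k * x : ℝ) := by gcongr; linarith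
    have e : (49 / 100 * R) * (49 / 100 * (R * m)) = 2401 / 10000 * (n * m) := by
      rw [← hR2]; ring
    have : (0 : ℝ) ≤ n * m := by positivity
    linarith
  have y4 : (k : ℝ) ^ 2 ≤ n := by rw [← hR2]; gcongr; linarith
  have n0 : (0 : ℝ) ≤ n := by positivity
  have k0 : (0 : ℝ) ≤ k := by positivity
  have e1 : (n * T m : ℝ) ≤ T (d + 1) + d + 1 := by exact_mod_cast he1
  have e2 : (T (d + 1) : ℝ) ≤ n * T m + d + 1 := by exact_mod_cast he2
  have r3 : (m * c : ℝ) = T (d + 1) - n * T m + g := by exact_mod_cast i2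
  have r4 : 2 * (T (x + k + 1) - T (x + 1) : ℝ) = 2 * k * x + k ^ 2 + 3 * k := by exact_mod_cast i3
  have r5 : (c : ℝ) = T (x + k + 1) - T (x + 1) - bt * (m + 1) - k ^ 2 := by exact_mod_cast hc
  have r6 : (g : ℝ) = r * T m - T (x + 1) := by exact_mod_cast hg
  have c0 : 0 ≤ c := by
    have : (0 : ℝ) ≤ c := le_of_mul_le_mul_left (by linarith) hm0
    exact_mod_cast this
  have c1 : (c : ℝ) ≤ 17 / 100 * n := le_of_mul_le_mul_left (by linarith) hm0
  have c2 : c ≤ bt := by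
    have : (c : ℝ) * (m + 1) ≤ 17 / 100 * n * (m + 1) := by gcongr
    have : (c : ℝ) ≤ bt := le_of_mul_le_mul_right (by linarith) (show (0 : ℝ) < m + 1 by linarith)
    exact_mod_cast this
  have r7 : (n : ℝ) ≤ 5 * r := by
    have s1 : (2 * T m : ℝ) = m * (m + 1) := by exact_mod_cast t1
    have s3 : (2 * T (x + 1) : ℝ) = (x + 1) * (x + 1 + 1) := by exact_mod_cast t3
    have s4 : (49 / 100 * (R * m)) ^ 2 ≤ (x : ℝ) ^ 2 := by gcongr
    have s5 : (49 / 100 * (R * m)) ^ 2 = 2401 / 10000 * (n * m * m) := by rw [← hR2]; ring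
    have s6 : 1000 * (n * m) ≤ (n * m * m : ℝ) := by
      rw [mul_comm]; gcongr; linarith
    have s7 : (0 : ℝ) ≤ x := by positivity
    have s8 : (r : ℝ) * (m * (m + 1)) = 2 * (r * T m) := by rw [← s1]; ring
    have s9 : (0 : ℝ) ≤ n * m := by positivity
    exact le_of_mul_le_mul_right (a := (m : ℝ) * (m + 1)) (by linarith) (mul_pos hm0 (by linarith))
  have r8 : (n : ℤ) ≤ 5 * r := by exact_mod_cast r7
  obtain ⟨r', hr'⟩ := Int.eq_ofNat_of_zero_le (show 0 ≤ r by omega)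
  obtain ⟨c', hc'⟩ := Int.eq_ofNat_of_zero_le c0
  obtain ⟨b', hb'⟩ := Int.eq_ofNat_of_zero_le (sub_nonneg.2 c2)
  have hk0 : 0 < k := by
    have : (0 : ℝ) < k := by linarith
    exact_mod_cast this
  have hbc : bt = b' + c' := by omega
  rw [hr'] at r6
  refine ⟨k, x, r', b', c', hk0, hx, ?_, ?_, by omega, ?_, ?_⟩
  · zify; rw [← hbc, ← hr', hr]; ring
  · zify; rw [← hbc, ← hc', hc]; ring
  · have : (20 * T (x + 1) + n * m : ℝ) ≤ 20 * (r' * T m) := by push_cast at r6; linarith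
    exact_mod_cast this
  · have : (20 * (r' * T m) + n * m : ℝ) ≤ 20 * T (x + k + 1) := by
      push_cast at r6
      have := sq_nonneg (k : ℝ)
      linarith
    exact_mod_cast this

end Pool.Agent.Lib.MP_d03834_ag
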