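import Pool.Agent.Lib.MP_d03834_ag.Final
import Pool.Agent.Lib.MP_d03834_ag.Rot

set_option autoImplicit false

open MvPolynomial Module Filter

namespace Pool.Agent.Lib.MP_d03834_ag

lemma good_of_win {m n B c : ℕ} (h : Win m n B)
    (hc : T c + B ≤ n * T m ∨ n * T m + B ≤ T c) :
    H19.Good m (H19.sp (H19.tri c)) n (min (T c) (n * T m)) := by
  classical
  obtain ⟨P, hP⟩ := (win_affine h).exists
  refine ⟨Finset.univ.image P, Finset.card_image_le.trans (by simp), ?_⟩
  rw [Finset.coe_image, Finset.coe_univ, Set.image_univ, sp_tri_eq, van_eq, hP c hc, finrank_sp,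
    card_tri]
  omega

open H19 in
lemma affine_of_near (n m : ℕ) (hm : 0 < m) (hn : 0 < n)
    (near : ∀ d, n * tn m ≤ tn (d + 1) + d + 1 → tn (d + 1) ≤ n * tn m + d + 1 →
      Good m (H19.sp (H19.tri (d + 1))) n (min (tn (d + 1)) (n * tn m))) :
    Gen n fun P => ∀ d, finrank ℂ ↥(H19.sp (H19.tri (d + 1)) ⊓ van m (Set.range P)) =
      tn (d + 1) - n * tn m := by
  classical
  have hex : ∃ d, n * tn m < tn (d + 1) := ⟨n * tn m, by
    have := two_tn (n * tn m + 1); nlinarith⟩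
  obtain ⟨d1, hd1, hmin⟩ : ∃ d1, n * tn m < tn (d1 + 1) ∧ ∀ d < d1, ¬ n * tn m < tn (d + 1) :=
    ⟨Nat.find hex, Nat.find_spec hex, fun d hd => Nat.find_min hex hd⟩
  have hM := tn_pos hm
  obtain ⟨d0, rfl⟩ : ∃ d0, d1 = d0 + 1 := by
    rcases d1 with _ | d0
    · exfalso
      have : tn (0 + 1) = 1 := by simp [tn]
      nlinarith
    · exact ⟨d0, rfl⟩
  have hd0 := not_lt.mp (hmin d0 (by omega))
  have hs := tn_succ (d0 + 1)
  have g0 := (near d0 (by omega) (by omega)).gen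
  have g1 := (near (d0 + 1) (by omega) (by omega)).gen
  refine (g0.and g1).mono ?_
  rintro P ⟨a0, a1⟩ d
  rw [min_eq_left hd0, H19.finrank_sp, H19.card_tri] at a0
  rw [min_eq_right hd1.le] at a1
  have b1 := H19.finrank_lower m n P (H19.sp (H19.tri (d + 1)))
  rw [H19.finrank_sp, H19.card_tri] at b1
  rcases le_or_gt d d0 with h | h
  · have : FiniteDimensional ℂ ↥(H19.sp (H19.tri (d0 + 1)) ⊓ van m (Set.range P)) :=
      Submodule.finiteDimensional_of_le inf_le_left
    have b2 : finrank ℂ ↥(H19.sp (H19.tri (d + 1)) ⊓ van m (Set.range P)) ≤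
        finrank ℂ ↥(H19.sp (H19.tri (d0 + 1)) ⊓ van m (Set.range P)) :=
      Submodule.finrank_mono (inf_le_inf_right _ (tri_mono (by omega)))
    have b3 : tn (d + 1) ≤ tn (d0 + 1) := tn_mono (by omega)
    omega
  · have b2 := propagate (tri_mono (show d0 + 1 + 1 ≤ d + 1 by omega)) a1
    rw [H19.finrank_sp, H19.card_tri] at b2
    omega

/-- the conjecture for `n` points of multiplicity `m` -/
def SHGH (n m : ℕ) : Prop := H19.Gen n fun P => ∀ d,
  finrank ℂ ↥(homogeneousSubmodule (Fin 3) ℂ d ⊓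
    Submodule.restrictScalars ℂ (⨅ i : Fin n, H19.hid (P i) ^ m)) =
  Nat.choose (d + 2) 2 - n * Nat.choose (m + 1) 2

lemma win_small {n m r B : ℕ} {R : ℝ} (hR2 : R ^ 2 = n) (hR : 1000000 ≤ R) (hr : n ≤ 5 * r)
    (hm : 20000000 * m ≤ R * n) (hB : (B : ℝ) ≤ 300000 * (m : ℝ) ^ 2 / √r) : 20 * B ≤ n * m := by
  have h1 : (n : ℝ) ≤ 5 * r := by exact_mod_cast hr
  have h2 : R / 3 ≤ √(r : ℝ) := Real.le_sqrt_of_sq_le (by nlinarith)
  have h3 : (B : ℝ) ≤ 300000 * (m : ℝ) ^ 2 / (R / 3) :=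
    hB.trans (div_le_div_of_nonneg_left (by positivity) (by linarith) h2)
  rw [le_div_iff₀ (by linarith)] at h3
  have h4 : 20000000 * (m : ℝ) * m ≤ R * n * m := by gcongr
  have h5 : (20 * B : ℝ) ≤ n * m :=
    le_of_mul_le_mul_left (a := R) (by nlinarith [sq_nonneg (m : ℝ)]) (by linarith)
  exact_mod_cast h5

theorem dioph (n m p q : ℕ) (hm : 0 < m) (hpq : Nat.Coprime p q) (hq : 1000000 * q ≤ √(n : ℝ))
    (hs : |√(n : ℝ) - p / q| ≤ 1 / (q : ℝ) ^ 2) (hmq : 40 * m ≤ q * n) : SHGH n m := by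
  have hR2 : √(n : ℝ) ^ 2 = n := Real.sq_sqrt (by positivity)
  generalize √(n : ℝ) = R at *
  have hq0 : 0 < q := by
    rcases Nat.eq_zero_or_pos q with rfl | h
    · omega
    · exact h
  have hq1 : (1 : ℝ) ≤ q := by exact_mod_cast hq0
  have hR : 1000000 ≤ R := by linarith
  have hn : (1000000 : ℝ) * R ≤ n := by nlinarith
  have hn' : 1000000000000 ≤ n := by
    have : (1000000000000 : ℝ) ≤ n := by linarith
    exact_mod_cast this
  by_cases h0 : 24 * m ≤ n
  · exact H19.final n m hm h0 (by omega)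
  have h1 : (n : ℝ) ≤ 24 * m := by exact_mod_cast (not_le.1 h0).le
  have h2 : 20000000 * m ≤ R * n := by
    have a1 : (40 * m : ℝ) ≤ q * n := by exact_mod_cast hmq
    have a2 : 1000000 * q * (n : ℝ) ≤ R * n := by gcongr
    have a3 : (0 : ℝ) ≤ m := by positivity
    linarith
  refine (affine_of_near n m hm (by omega) fun d he1 he2 => ?_).mono fun P h d => by
    rw [H19.finrank_hom, h d]; rfl
  simp only [tn_eq] at he1 he2
  obtain ⟨k, x, r, b, c, hk, rfl, e1, e2, e3, e4, e5⟩ :=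
    params2 n m d p q R hR2 hR (by linarith) hq0 hpq (by linarith) hs hmq he1 he2
  obtain ⟨B, hB, hW⟩ := window_large m r (by omega) (by
    have : n < 24 * m := by omega
    nlinarith)
  have hB' := win_small hR2 hR e3 h2 hB
  have g1 := good_of_win hW (c := x + 1) (Or.inl (by omega))
  have g2 := good_of_win hW (c := x + k + 1) (Or.inr (by omega))
  rw [min_eq_left (by omega), ← tn_eq] at g1
  rw [min_eq_right (by omega), ← tn_eq] at g2
  have := H19.main_step m k x r b c hm hk g1 g2 (by simpa only [tn_eq] using e2)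
  rwa [← e1] at this

end Pool.Agent.Lib.MP_d03834_ag
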