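import Mathlib

set_option autoImplicit false

open MvPolynomial Module

namespace Pool.Agent.Lib.MP_d03834_ag

abbrev E := Fin 2 →₀ ℕ
abbrev R := MvPolynomial (Fin 2) ℂ
abbrev Pt := Fin 2 → ℂ

/-- span of the monomials with exponent in `D` -/
noncomputable def sp (D : Finset E) : Submodule ℂ R := restrictSupport ℂ (D : Set E)

lemma mem_sp {D : Finset E} {f : R} : f ∈ sp D ↔ ∀ ν, coeff ν f ≠ 0 → ν ∈ D := by
  simp [sp, mem_restrictSupport_iff, Finset.subset_iff]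

lemma support_subset_of_mem_sp {D : Finset E} {f : R} (h : f ∈ sp D) : f.support ⊆ D := by
  intro ν hν
  exact mem_sp.1 h ν (mem_support_iff.1 hν)

instance sp_fd (D : Finset E) : FiniteDimensional ℂ (sp D) :=
  Module.Finite.of_basis (basisRestrictSupport ℂ (D : Set E))

lemma finrank_sp (D : Finset E) : finrank ℂ (sp D) = D.card := by
  rw [sp, finrank_eq_card_basis (basisRestrictSupport ℂ (D : Set E))]
  simp

lemma sp_mono {D D' : Finset E} (h : D ⊆ D') : sp D ≤ sp D' := by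
  intro f hf
  exact mem_sp.2 fun ν hν => h (mem_sp.1 hf ν hν)

lemma monomial_mem_sp {D : Finset E} {ν : E} (h : ν ∈ D) (c : ℂ) : monomial ν c ∈ sp D := by
  rw [mem_sp]
  intro μ hμ
  rw [coeff_monomial] at hμ
  split_ifs at hμ with h1
  · exact h1 ▸ h
  · exact absurd rfl hμ

lemma sp_empty : sp ∅ = ⊥ := by
  rw [eq_bot_iff]
  intro f hf
  rw [Submodule.mem_bot]
  ext ν
  by_contra h
  simpa using mem_sp.1 hf ν (by simpa using h)

/-- polynomials whose coefficients on `S` vanish -/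
def J (S : Finset E) : Submodule ℂ R where
  carrier := {f | ∀ ν ∈ S, coeff ν f = 0}
  add_mem' := by
    intro a b ha hb ν hν
    simp [ha ν hν, hb ν hν]
  zero_mem' := by simp
  smul_mem' := by
    intro c f hf ν hν
    simp [hf ν hν]

lemma mem_J {S : Finset E} {f : R} : f ∈ J S ↔ ∀ ν ∈ S, coeff ν f = 0 := Iff.rfl

section dims

variable {V : Type*} [AddCommGroup V] [Module ℂ V]

lemma finrank_le_add_card (W K : Submodule ℂ V) [FiniteDimensional ℂ W] {A : Type*} [Fintype A]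
    (φ : V →ₗ[ℂ] (A → ℂ)) (h : ∀ f ∈ W, φ f = 0 → f ∈ K) :
    finrank ℂ W ≤ finrank ℂ ↥(W ⊓ K) + Fintype.card A := by
  have h1 := LinearMap.finrank_range_add_finrank_ker (φ.domRestrict W)
  have h2 : finrank ℂ (LinearMap.range (φ.domRestrict W)) ≤ Fintype.card A := by
    have := Submodule.finrank_le (LinearMap.range (φ.domRestrict W))
    simpa using this
  have h3 : finrank ℂ (LinearMap.ker (φ.domRestrict W)) ≤ finrank ℂ ↥(W ⊓ K) := by
    rw [← Submodule.finrank_map_subtype_eq]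
    apply Submodule.finrank_mono
    rintro f ⟨g, hg, rfl⟩
    exact ⟨g.2, h _ g.2 (by simpa using hg)⟩
  omega

lemma finrank_le_of_inj {V' : Type*} [AddCommGroup V'] [Module ℂ V'] (W : Submodule ℂ V)
    (W' : Submodule ℂ V') [FiniteDimensional ℂ W'] (φ : V →ₗ[ℂ] V')
    (hinj : ∀ f ∈ W, φ f = 0 → f = 0) (hmap : ∀ f ∈ W, φ f ∈ W') :
    finrank ℂ W ≤ finrank ℂ W' := by
  refine LinearMap.finrank_le_finrank_of_injective
    (f := (φ.domRestrict W).codRestrict W' (fun f => hmap f f.2)) ?_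
  rw [injective_iff_map_eq_zero]
  intro f hf
  have : φ f = 0 := by simpa [Subtype.ext_iff] using hf
  exact Subtype.ext (hinj f f.2 this)

end dims

/-- coefficients on `A` after applying `ψ` -/
noncomputable def coefMap (ψ : R →ₗ[ℂ] R) (A : Finset E) : R →ₗ[ℂ] (A → ℂ) :=
  LinearMap.pi fun ν => (lcoeff ℂ ν.1).comp ψ

lemma finrank_le_coeffs (W K : Submodule ℂ R) [FiniteDimensional ℂ W] (ψ : R →ₗ[ℂ] R)
    (A : Finset E) (h : ∀ f ∈ W, (∀ ν ∈ A, coeff ν (ψ f) = 0) → f ∈ K) :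
    finrank ℂ W ≤ finrank ℂ ↥(W ⊓ K) + A.card := by
  have := finrank_le_add_card W K (coefMap ψ A) (fun f hf h0 => h f hf fun ν hν => by
    have := congrFun h0 ⟨ν, hν⟩
    simpa [coefMap] using this)
  simpa using this

lemma finrank_sp_inf_le (D D' A : Finset E) (I : Submodule ℂ R) (h : D ⊆ D' ∪ A) :
    finrank ℂ ↥(sp D ⊓ I) ≤ finrank ℂ ↥(sp D' ⊓ I) + A.card := by
  refine (finrank_le_coeffs (sp D ⊓ I) (sp D' ⊓ I) LinearMap.id A ?_).trans ?_
  · intro f hf h0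
    refine ⟨mem_sp.2 fun ν hν => ?_, hf.2⟩
    rcases Finset.mem_union.1 (h (mem_sp.1 hf.1 ν hν)) with h1 | h1
    · exact h1
    · exact absurd (h0 ν h1) hν
  · gcongr
    exact Submodule.finrank_mono inf_le_right

/-- polynomials vanishing to order `a` at `p` -/
noncomputable def fat (p : Pt) (a : ℕ) : Submodule ℂ R :=
  ((RingHom.ker (eval p : R →+* ℂ)) ^ a).restrictScalars ℂ

lemma mem_fat_def {p : Pt} {a : ℕ} {f : R} :
    f ∈ fat p a ↔ f ∈ (RingHom.ker (eval p : R →+* ℂ)) ^ a := Iff.rfl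

lemma fat_zero (p : Pt) : fat p 0 = ⊤ := by
  simp [fat]

lemma fat_anti (p : Pt) {a b : ℕ} (h : a ≤ b) : fat p b ≤ fat p a :=
  fun _ hf => Ideal.pow_le_pow_right h hf

lemma fat_mul {p : Pt} {a : ℕ} {f : R} (g : R) (h : f ∈ fat p a) : g * f ∈ fat p a :=
  Ideal.mul_mem_left _ g h

/-- the point `eval p ∘ φ` -/
noncomputable def pt (φ : R →ₐ[ℂ] R) (p : Pt) : Pt := fun i => eval p (φ (X i))

lemma eval_pt (φ : R →ₐ[ℂ] R) (p : Pt) (f : R) : eval (pt φ p) f = eval p (φ f) := by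
  induction f using MvPolynomial.induction_on with
  | C a =>
    have : φ (C a) = C a := φ.commutes a
    simp [this]
  | add p q hp hq => simp [hp, hq]
  | mul_X q i hq => simp [hq, pt]

lemma map_mem_fat (φ : R →ₐ[ℂ] R) (p : Pt) (a : ℕ) {f : R} (h : f ∈ fat (pt φ p) a) :
    φ f ∈ fat p a := by
  rw [mem_fat_def] at h ⊢
  have h1 : Ideal.map φ (RingHom.ker (eval (pt φ p) : R →+* ℂ)) ≤
      RingHom.ker (eval p : R →+* ℂ) := by
    rw [Ideal.map_le_iff_le_comap]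
    intro g hg
    simpa [RingHom.mem_ker, eval_pt] using hg
  have h2 := Ideal.mem_map_of_mem φ h
  rw [Ideal.map_pow] at h2
  exact Ideal.pow_right_mono h1 a h2

lemma map_mem_fat_iff (φ : R ≃ₐ[ℂ] R) (p : Pt) (a : ℕ) {f : R} :
    φ f ∈ fat p a ↔ f ∈ fat (pt φ p) a := by
  refine ⟨fun h => ?_, fun h => map_mem_fat (φ : R →ₐ[ℂ] R) p a h⟩
  have h1 : pt (φ.symm : R →ₐ[ℂ] R) (pt φ p) = p := by
    funext i
    simp [pt, eval_pt]
  have := map_mem_fat (φ.symm : R →ₐ[ℂ] R) (pt φ p) a (f := φ f) (by rwa [h1])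
  simpa using this

/-- translation -/
noncomputable def tr (p : Pt) : R ≃ₐ[ℂ] R :=
  AlgEquiv.ofAlgHom (aeval fun i => X i + C (p i)) (aeval fun i => X i - C (p i))
    (by ext i : 1; simp) (by ext i : 1; simp)

@[simp] lemma tr_X (p : Pt) (i : Fin 2) : tr p (X i) = X i + C (p i) := by simp [tr]

@[simp] lemma tr_C (p : Pt) (c : ℂ) : tr p (C c) = C c := (tr p).commutes c

lemma pt_tr (p q : Pt) : pt (tr p : R →ₐ[ℂ] R) q = q + p := by
  funext i
  simp [pt]

lemma degree_eq (ν : E) : Finsupp.degree ν = ν 0 + ν 1 := by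
  rw [Finsupp.degree_eq_sum]
  simp [Fin.sum_univ_two]

lemma ker_eval_zero : RingHom.ker (eval (0 : Pt) : R →+* ℂ) = idealOfVars (Fin 2) ℂ := by
  ext f
  rw [← pow_one (idealOfVars (Fin 2) ℂ), mem_pow_idealOfVars_iff', RingHom.mem_ker]
  have : eval (0 : Pt) f = coeff 0 f := by
    rw [eval_zero]; rfl
  rw [this]
  constructor
  · intro h x hx
    have : x = 0 := by
      rw [← Finsupp.degree_eq_zero_iff]; omega
    rw [this, h]
  · intro h
    exact h 0 (by simp)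

lemma mem_fat_origin {a : ℕ} {f : R} :
    f ∈ fat 0 a ↔ ∀ β : E, β 0 + β 1 < a → coeff β f = 0 := by
  rw [mem_fat_def, ker_eval_zero, mem_pow_idealOfVars_iff']
  simp only [degree_eq]

lemma mem_fat {p : Pt} {a : ℕ} {f : R} :
    f ∈ fat p a ↔ ∀ β : E, β 0 + β 1 < a → coeff β (tr p f) = 0 := by
  rw [← mem_fat_origin, map_mem_fat_iff, pt_tr, zero_add]

/-- intersection of fat points -/
noncomputable def II {ι : Type*} (P : ι → Pt) (a : ι → ℕ) : Submodule ℂ R := ⨅ i, fat (P i) (a i)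

lemma mem_II {ι : Type*} {P : ι → Pt} {a : ι → ℕ} {f : R} :
    f ∈ II P a ↔ ∀ i, f ∈ fat (P i) (a i) := by
  simp [II]

lemma map_mem_II_iff {ι : Type*} (φ : R ≃ₐ[ℂ] R) (P : ι → Pt) (a : ι → ℕ) {f : R} :
    φ f ∈ II P a ↔ f ∈ II (fun i => pt φ (P i)) a := by
  simp only [mem_II, map_mem_fat_iff]

/-- exponent from two naturals -/
noncomputable def ex (i j : ℕ) : E := Finsupp.equivFunOnFinite.symm ![i, j]

@[simp] lemma ex_zero (i j : ℕ) : ex i j 0 = i := rfl
@[simp] lemma ex_one (i j : ℕ) : ex i j 1 = j := rfl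

lemma E_ext {ν μ : E} (h0 : ν 0 = μ 0) (h1 : ν 1 = μ 1) : ν = μ := by
  ext i
  fin_cases i
  · exact h0
  · exact h1

lemma E_ext_iff {ν μ : E} : ν = μ ↔ ν 0 = μ 0 ∧ ν 1 = μ 1 :=
  ⟨fun h => by simp [h], fun h => E_ext h.1 h.2⟩

/-- monomials of degree `a` with second exponent in `[u, v)` -/
noncomputable def layer (a u v : ℕ) : Finset E :=
  ((Finset.Ico u v).filter (· ≤ a)).image fun j => ex (a - j) j

lemma mem_layer {a u v : ℕ} {ν : E} : ν ∈ layer a u v ↔ ν 0 + ν 1 = a ∧ u ≤ ν 1 ∧ ν 1 < v := by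
  simp only [layer, Finset.mem_image, Finset.mem_filter, Finset.mem_Ico]
  constructor
  · rintro ⟨j, ⟨⟨h1, h2⟩, h3⟩, rfl⟩
    simp; omega
  · rintro ⟨h1, h2, h3⟩
    refine ⟨ν 1, ⟨⟨h2, h3⟩, by omega⟩, E_ext ?_ ?_⟩ <;> simp; omega

lemma card_layer_le (a u v : ℕ) : (layer a u v).card ≤ v - u := by
  refine Finset.card_image_le.trans ((Finset.card_filter_le _ _).trans ?_)
  simp

lemma card_layer (a u v : ℕ) (h : v ≤ a + 1) : (layer a u v).card = v - u := by
  rw [layer, Finset.card_image_of_injective _ (fun j k hjk => by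
    have := congrArg (· 1) hjk; simpa using this), Finset.filter_true_of_mem]
  · simp
  · intro j hj
    simp at hj; omega

lemma finrank_fat_succ (W : Submodule ℂ R) [FiniteDimensional ℂ W] (p : Pt) (a : ℕ) :
    finrank ℂ ↥(W ⊓ fat p a) ≤ finrank ℂ ↥(W ⊓ fat p (a + 1)) + (a + 1) := by
  refine (finrank_le_coeffs (W ⊓ fat p a) (W ⊓ fat p (a + 1)) (tr p).toLinearMap
    (layer a 0 (a + 1)) ?_).trans ?_
  · intro f hf h0
    refine ⟨hf.1, mem_fat.2 fun β hβ => ?_⟩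
    rcases Nat.lt_succ_iff_lt_or_eq.1 hβ with h1 | h1
    · exact mem_fat.1 hf.2 β h1
    · exact h0 β (mem_layer.2 ⟨h1, by omega, by omega⟩)
  · have := card_layer_le a 0 (a + 1)
    have h2 : finrank ℂ ↥((W ⊓ fat p a) ⊓ (W ⊓ fat p (a + 1))) ≤
        finrank ℂ ↥(W ⊓ fat p (a + 1)) := Submodule.finrank_mono inf_le_right
    omega

end Pool.Agent.Lib.MP_d03834_ag
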