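import Pool.Agent.Lib.MP_d03834_ag.Step

set_option autoImplicit false

open MvPolynomial Module Filter

namespace Pool.Agent.Lib.MP_d03834_ag

lemma exists_par (x : ℝ) (hx : 0 ≤ x) (p : ℤ) :
    ∃ n : ℕ, x ≤ n ∧ (n : ℝ) < x + 2 ∧ (n : ℤ) % 2 = p % 2 := by
  have h1 := Nat.le_ceil x
  have h2 := Nat.ceil_lt_add_one hx
  by_cases h : (⌈x⌉₊ : ℤ) % 2 = p % 2
  · exact ⟨_, h1, by linarith, h⟩
  · exact ⟨⌈x⌉₊ + 1, by push_cast; linarith, by push_cast; linarith, by push_cast; omega⟩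

lemma le_three_pow (j : ℕ) : (j : ℝ) + 1 ≤ 3 ^ j := by
  induction j with
  | zero => simp
  | succ j ih => push_cast; rw [pow_succ]; have : (0 : ℝ) ≤ j := by positivity
                 linarith

lemma descend (j : ℕ) (p : ℤ) (n : ℕ) (t τ U : ℝ) (hτ : 300 ≤ τ) (ht : t * 3 ^ (j + 1) = p)
    (hpar : (n : ℤ) % 2 = p % 2) (h1 : t ^ 2 + 20 * (j + 1) ≤ n) (h2 : n ≤ t ^ 2 + U)
    (h3 : τ * 3 ^ (j + 1) ≤ t + 6) :
    ∃ (a E n' : ℕ) (p' : ℤ) (t' : ℝ), n = n' + (8 * a ^ 2 + 2 * E) ∧ 2 * E + 20 * j ≤ U ∧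
      τ * 3 ^ j ≤ 2 * a ∧ ((a : ℝ) - 9 / 2) ^ 2 ≤ n' ∧ (n' : ℝ) ≤ (a + 5) ^ 2 ∧
      t' * 3 ^ j = p' ∧ (n' : ℤ) % 2 = p' % 2 ∧ t' ^ 2 + 20 * j ≤ n' ∧
      n' < t' ^ 2 + 20 * j + 2 ∧ τ * 3 ^ j ≤ t' + 6 := by
  have g1 := le_three_pow j
  have g0 : (0 : ℝ) ≤ j := by positivity
  have g2 : 300 * ((j : ℝ) + 1) ≤ τ * 3 ^ j := by nlinarith
  rw [pow_succ] at h3 ht
  generalize hq : (3 : ℝ) ^ j = q at *
  let a := ⌊t / 3 + 1 / 2⌋₊
  have a1 : (a : ℝ) ≤ t / 3 + 1 / 2 := Nat.floor_le (by linarith)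
  have a2 : t / 3 + 1 / 2 < a + 1 := Nat.lt_floor_add_one _
  obtain ⟨n', n1, n2, n3⟩ := exists_par ((3 * t - 8 * a) ^ 2 + 20 * j) (by positivity) p
  have e1 : -18 ≤ t ^ 2 - (3 * t - 8 * a) ^ 2 - 8 * a ^ 2 := by nlinarith
  have e2 : t ^ 2 - (3 * t - 8 * a) ^ 2 - 8 * a ^ 2 ≤ 0 := by nlinarith [sq_nonneg (t - 3 * a)]
  have e3 : n' + 8 * a ^ 2 ≤ n := by
    have : (n' : ℝ) + 8 * a ^ 2 ≤ n := by linarith
    exact_mod_cast this
  obtain ⟨E, hE⟩ : ∃ E, n = n' + (8 * a ^ 2 + 2 * E) := ⟨(n - n' - 8 * a ^ 2) / 2, by omega⟩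
  have hE' : (n : ℝ) = n' + (8 * a ^ 2 + 2 * E) := by exact_mod_cast hE
  refine ⟨a, E, n', p - 8 * a * 3 ^ j, 3 * t - 8 * a, hE, by linarith, by linarith, ?_, ?_, ?_,
    ?_, n1, n2, by linarith⟩
  · have : ((a : ℝ) - 9 / 2) ^ 2 ≤ (3 * t - 8 * a) ^ 2 := by
      apply pow_le_pow_left₀ <;> linarith
    linarith
  · have : (3 * t - 8 * a) ^ 2 ≤ ((a : ℝ) + 9 / 2) ^ 2 := by
      apply pow_le_pow_left₀ <;> linarith
    nlinarith
  · push_cast
    rw [hq, ← ht]; ring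
  · rw [mul_assoc]; omega

lemma inner (m : ℕ) (τ : ℝ) (hτ : 300 ≤ τ) (j : ℕ) : ∀ (p : ℤ) (n : ℕ) (t : ℝ), t * 3 ^ j = p →
    (n : ℤ) % 2 = p % 2 → t ^ 2 + 20 * j ≤ n → n < t ^ 2 + 20 * j + 2 → τ * 3 ^ j ≤ t + 6 →
    n ≤ m ^ 2 → ∃ B : ℕ, (B : ℝ) ≤ 72000 * (1 - 1 / 9 ^ j) * (2 * T m) / τ ^ 2 ∧ Win m n B := by
  induction j with
  | zero =>
    intro p n t ht hpar h1 h2 _ _
    refine ⟨0, by simp, ?_⟩
    simp only [pow_zero, mul_one, CharP.cast_eq_zero, mul_zero, add_zero] at ht h1 h2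
    subst ht
    have h3 : p ^ 2 ≤ n := by exact_mod_cast h1
    have h4 : n < p ^ 2 + 2 := by exact_mod_cast h2
    have h5 : p ^ 2 % 2 = p % 2 := by
      rcases Int.emod_two_eq_zero_or_one p with h | h <;> simp [pow_two, Int.mul_emod, h]
    have h6 : n = p.natAbs ^ 2 := by
      zify
      rw [sq_abs]; omega
    rw [h6]
    exact Win_sq _ _
  | succ j ih =>
    intro p n t ht hpar h1 h2 h3 hm
    push_cast at h1 h2
    obtain ⟨a, E, n', p', t', rfl, d1, d2, d3, d4, d5, d6, d7, d8, d9⟩ :=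
      descend j p n t τ (20 * (j + 1) + 2) hτ ht hpar h1 (by linarith) h3
    obtain ⟨B', hB', hW⟩ := ih p' n' t' d5 d6 d7 d8 d9 (by omega)
    have hE : E ≤ 11 := by
      have : (E : ℝ) ≤ 11 := by linarith
      exact_mod_cast this
    have q1 : (1 : ℝ) ≤ 3 ^ j := one_le_pow₀ (by norm_num)
    have ha : (150 : ℝ) ≤ a := by nlinarith
    have ha' : 150 ≤ a := by exact_mod_cast ha
    have hT : (0 : ℝ) ≤ 2 * T m := by positivity
    have hτ2 : 90000 ≤ τ ^ 2 := by nlinarith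
    have q2 : (0 : ℝ) < 1 / 9 ^ j := by positivity
    obtain ⟨e, he, hW'⟩ := step (m := m) (a := a) (E := E) (by nlinarith) (by omega) d3 d4 (by
      have : (B' : ℝ) ≤ 2 * T m := by
        refine hB'.trans ?_
        rw [div_le_iff₀ (by positivity)]
        nlinarith
      exact_mod_cast this) hW
    refine ⟨_, ?_, hW'⟩
    have q3 : (9 : ℝ) ^ j = (3 ^ j) ^ 2 := by rw [← pow_mul, mul_comm, pow_mul]; norm_num
    have he' : (e : ℝ) ^ 2 ≤ 64000 * (1 / 9 ^ j) * (2 * T m) / τ ^ 2 := by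
      refine he.trans ?_
      have hE' : (2 * E + 20 : ℝ) ≤ 42 := by exact_mod_cast (show 2 * E + 20 ≤ 42 by omega)
      have f1 : (2 * E + 20 : ℝ) ^ 2 ≤ 42 ^ 2 := by gcongr
      have f2 : τ ^ 2 * 9 ^ j ≤ 4 * a ^ 2 := by
        rw [q3, ← mul_pow, show 4 * (a : ℝ) ^ 2 = (2 * a) ^ 2 by ring]
        gcongr
      rw [div_le_div_iff₀ (by positivity) (by positivity)]
      have f3 : 9 * (2 * E + 20 : ℝ) ^ 2 * τ ^ 2 ≤ 64000 * (1 / 9 ^ j) * a ^ 2 := by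
        rw [mul_one_div, div_mul_eq_mul_div, le_div_iff₀ (by positivity)]
        have : (2 * E + 20 : ℝ) ^ 2 * (τ ^ 2 * 9 ^ j) ≤ 42 ^ 2 * (4 * a ^ 2) := by gcongr
        nlinarith
      nlinarith
    push_cast
    have : 72000 * (1 - 1 / 9 ^ (j + 1)) * (2 * T m) / τ ^ 2 =
        72000 * (1 - 1 / 9 ^ j) * (2 * T m) / τ ^ 2 + 64000 * (1 / 9 ^ j) * (2 * T m) / τ ^ 2 := by
      field_simp; ring
    linarith

lemma top_tau (r : ℝ) (hr0 : 90000 ≤ r) : ∃ (j : ℕ) (τ : ℝ), τ * 3 ^ (j + 1) = r ∧ r ≤ τ ^ 2 ∧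
    τ ^ 2 ≤ 9 * r ∧ 300 ≤ τ ∧ τ ≤ r / 100 := by
  obtain ⟨l, hl1, hl2⟩ := exists_nat_pow_near (show (1 : ℝ) ≤ r by linarith)
    (show (1 : ℝ) < 9 by norm_num)
  obtain ⟨j, rfl⟩ : ∃ j, l = j + 1 := ⟨l - 1, by
    rcases l with _ | l
    · norm_num at hl2; linarith
    · rfl⟩
  have q3 : (9 : ℝ) ^ (j + 1) = (3 ^ (j + 1)) ^ 2 := by rw [← pow_mul, mul_comm, pow_mul]; norm_num
  rw [pow_succ, q3] at hl2
  rw [q3] at hl1
  have h0 : (1 : ℝ) ≤ 3 ^ (j + 1) := one_le_pow₀ (by norm_num)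
  refine ⟨j, r / 3 ^ (j + 1), by field_simp, ?_⟩
  generalize (3 : ℝ) ^ (j + 1) = h at *
  have hτ0 : 0 < r / h := by positivity
  have hτ : r / h * h = r := by field_simp
  generalize r / h = τ at *
  have t1 : r ≤ τ ^ 2 := by
    have : r * h ^ 2 ≤ τ ^ 2 * h ^ 2 := by rw [← mul_pow, hτ]; nlinarith
    exact le_of_mul_le_mul_right this (by positivity)
  have t2 : τ ^ 2 ≤ 9 * r := by
    have : τ ^ 2 * h ^ 2 ≤ 9 * r * h ^ 2 := by rw [← mul_pow, hτ]; nlinarith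
    exact le_of_mul_le_mul_right this (by positivity)
  clear hl1 hl2 hτ q3
  exact ⟨t1, t2, (abs_le_of_sq_le_sq' (by linarith) hτ0.le).2,
    (abs_le_of_sq_le_sq' (by nlinarith) (by positivity)).2⟩

lemma top_t (n : ℕ) (r τ h v : ℝ) (hr2 : r ^ 2 = n) (hr0 : 90000 ≤ r) (hτ : τ * h = r)
    (h0 : 1 ≤ h) (hv0 : 0 ≤ v) (hv : v ≤ r) : ∃ (p : ℤ) (t : ℝ), t * h = p ∧
      (n : ℤ) % 2 = p % 2 ∧ t ^ 2 + v ≤ n ∧ n ≤ t ^ 2 + (4 * τ + v) ∧ r ≤ t + 6 := by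
  have hρ2 : √(n - v) ^ 2 = n - v := Real.sq_sqrt (by nlinarith)
  have hρ1 : r - 1 ≤ √(n - v) := Real.le_sqrt_of_sq_le (by nlinarith)
  have hρ3 : √(n - v) ≤ r := (abs_le_of_sq_le_sq' (by linarith) (by linarith)).2
  generalize √(n - v) = ρ at *
  have hρh : ρ * 1 ≤ ρ * h := mul_le_mul_of_nonneg_left h0 (by linarith)
  obtain ⟨p, p1, p2, p3⟩ := exists_par (ρ * h - 2) (by linarith) n
  have ht : p / h * h = p := by field_simp
  have ht0 : 0 ≤ p / h := by positivity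
  generalize p / h = t at *
  have u1 : t ≤ ρ := le_of_mul_le_mul_right (by linarith) (show 0 < h by linarith)
  have u3 : (ρ - t) * 1 ≤ (ρ - t) * h := mul_le_mul_of_nonneg_left h0 (by linarith)
  have u4 : (ρ - t) * (ρ + t) ≤ 4 * τ := by
    have a1 : (ρ - t) * h * (ρ + t) ≤ 2 * (2 * r) :=
      mul_le_mul (by linarith) (by linarith) (by linarith) (by norm_num)
    exact le_of_mul_le_mul_right (by linarith) (show 0 < h by linarith)
  have u5 : t ^ 2 ≤ ρ ^ 2 := by gcongr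
  exact ⟨p, t, by simpa using ht, p3.symm, by linarith, by linarith, by linarith⟩

lemma top_b1 {B X τ r q : ℝ} (hX : 0 ≤ X) (hq : 0 < q) (hr : 0 < r) (t1 : r ≤ τ ^ 2)
    (h : B ≤ 72000 * (1 - q) * X / τ ^ 2) : B ≤ 72000 * X / r := by
  refine h.trans ((div_le_div_of_nonneg_right ?_ (by positivity)).trans
    (div_le_div_of_nonneg_left (by positivity) hr t1))
  nlinarith

lemma top_b2 {e F X τ r a : ℝ} (hX : 0 ≤ X) (hr : 0 < r) (t2 : τ ^ 2 ≤ 9 * r) (hF0 : 0 ≤ F)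
    (hF : F ≤ 5 * τ) (ha : r ≤ 6 * a) (h : e ≤ 9 * F ^ 2 * X / a ^ 2) : e ≤ 72900 * X / r := by
  refine h.trans ?_
  have ha0 : 0 < a := by linarith
  rw [div_le_div_iff₀ (by positivity) hr]
  have f1 : F ^ 2 ≤ (5 * τ) ^ 2 := by gcongr
  have f2 : r ^ 2 ≤ (6 * a) ^ 2 := by gcongr
  have f3 : F ^ 2 * r ≤ (225 * r) * r := mul_le_mul_of_nonneg_right (by linarith) hr.le
  have f4 : (9 * F ^ 2 * r) * X ≤ (72900 * a ^ 2) * X :=
    mul_le_mul_of_nonneg_right (by linarith) hX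
  linarith

lemma two_T_le {m : ℕ} (hm : 1 ≤ m) : (2 * T m : ℝ) ≤ 2 * m ^ 2 := by
  have h3 : (2 * T m : ℝ) = m * (m + 1) := by exact_mod_cast two_T m
  have h4 : (1 : ℝ) ≤ m := by exact_mod_cast hm
  nlinarith

theorem window_large (m n : ℕ) (hn : 8100000000 ≤ n) (hm : n ≤ m ^ 2) :
    ∃ B : ℕ, (B : ℝ) ≤ 300000 * (m : ℝ) ^ 2 / √n ∧ Win m n B := by
  have hr2 : √(n : ℝ) ^ 2 = n := Real.sq_sqrt (by positivity)
  have hr0 : 90000 ≤ √(n : ℝ) := Real.le_sqrt_of_sq_le (by exact_mod_cast hn)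
  generalize √(n : ℝ) = r at *
  have hm1 : 1 ≤ m := by
    by_contra h
    have : m = 0 := by omega
    subst this
    omega
  obtain ⟨j, τ, hτ, t1, t2, t3, t4⟩ := top_tau r hr0
  have g1 := le_three_pow (j + 1)
  have g0 : (0 : ℝ) ≤ j := by positivity
  push_cast at g1
  have g2 : 300 * 3 ^ (j + 1) ≤ τ * 3 ^ (j + 1) := mul_le_mul_of_nonneg_right t3 (by positivity)
  obtain ⟨p, t, p1, p2, p3, p4, p5⟩ := top_t n r τ _ (20 * (j + 1)) hr2 hr0 hτ (by linarith)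
    (by positivity) (by linarith)
  obtain ⟨a, E, n', p', t', rfl, d1, d2, d3, d4, d5, d6, d7, d8, d9⟩ :=
    descend j p n t τ _ t3 p1 p2 p3 p4 (by linarith)
  obtain ⟨B', hB', hW⟩ := inner m τ t3 j p' n' t' d5 d6 d7 d8 d9 (by omega)
  have ha : r ≤ 6 * a := by
    rw [← hτ, pow_succ]; linarith
  have hT : (0 : ℝ) ≤ 2 * T m := by positivity
  have hB1 := top_b1 hT (by positivity) (by linarith) t1 hB'
  obtain ⟨e, he, hW'⟩ := step (m := m) (a := a) (E := E)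
    ((Nat.pow_le_pow_iff_left (show 2 ≠ 0 by omega)).1 (by omega)) (by
      have : 3 * (2 * E + 20 : ℝ) ≤ a := by linarith
      exact_mod_cast this) d3 d4 (by
      have : (B' : ℝ) ≤ 2 * T m := by
        refine hB1.trans ?_
        rw [div_le_iff₀ (by positivity), mul_comm]
        exact mul_le_mul_of_nonneg_left (by linarith) hT
      exact_mod_cast this) hW
  refine ⟨_, ?_, hW'⟩
  have he' := top_b2 hT (by linarith) t2 (by positivity) (by linarith) ha he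
  have hT2 := two_T_le hm1
  have : 72000 * (2 * T m) / r + 72900 * (2 * T m) / r ≤ 300000 * (m : ℝ) ^ 2 / r := by
    rw [← add_div]
    exact div_le_div_of_nonneg_right (by linarith [sq_nonneg (m : ℝ)]) (by linarith)
  rw [Nat.cast_add, Nat.cast_pow]
  linarith

lemma window_small (m n : ℕ) : Win m n (n ^ 2 * T m) := by
  have h0 : n * T m ≤ n ^ 2 * T m := Nat.mul_le_mul_right _ (Nat.le_self_pow (by omega) n)
  constructor
  · rw [Nat.sub_eq_zero_of_le h0]; exact K_DN_zero _ _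
  · classical
    obtain ⟨P, hP⟩ := squares' m n
    let f : Fin n → Fin (n ^ 2) := Fin.castLE (Nat.le_self_pow (by omega) n)
    have h1 := finrank_II_le (sp (DN (n ^ 2 * T m))) P (a := fun _ => m)
      (b := fun i => if i.1 < n then m else 0) fun i => by split_ifs <;> omega
    have h2 : ∑ i : Fin (n ^ 2), T (if i.1 < n then m else 0) = n * T m := by
      rw [Fin.sum_univ_eq_sum_range (fun i => T (if i < n then m else 0)),
        ← Finset.sum_subset (Finset.range_mono (Nat.le_self_pow (by omega) n))]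
      · rw [Finset.sum_congr rfl fun i hi => by rw [if_pos (Finset.mem_range.1 hi)]]
        simp
      · intro i _ hi
        rw [if_neg (by simpa using hi)]; rfl
    rw [h2] at h1
    simp only [Finset.sum_const, Finset.card_univ, Fintype.card_fin, smul_eq_mul] at h1
    refine ⟨fun i => P (f i), ?_⟩
    rw [add_comm]
    refine (finrank_DN_add _ _ _).trans ?_
    have h3 : finrank ℂ ↥(sp (DN (n ^ 2 * T m)) ⊓ II (fun i => P (f i)) fun _ => m) ≤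
        finrank ℂ ↥(sp (DN (n ^ 2 * T m)) ⊓ II P fun i => if i.1 < n then m else 0) := by
      refine Submodule.finrank_mono (inf_le_inf_left _ fun g hg => mem_II.2 fun i => ?_)
      split_ifs with h
      · exact mem_II.1 hg ⟨i.1, h⟩
      · simp [fat_zero]
    omega

end Pool.Agent.Lib.MP_d03834_ag
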