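import Pool.Agent.Lib.MP_d03834_ag.H19Basic

set_option autoImplicit false

namespace Pool.Agent.Lib.MP_d03834_ag.H19

lemma ineqs (m k ρ d : ℤ) (hm : 1 ≤ m) (hk0 : 0 ≤ k) (hρ : 0 ≤ ρ) (hρ' : ρ + 1 ≤ 2 * m)
    (hd : d = 2 * m * k + ρ) (h1 : 24 * m * (m * (m + 1)) ≤ (d + 1) * (d + 4))
    (h2 : 400 * (m * (m + 1)) ≤ (d + 1) * (d + 4)) :
    10 ≤ k ∧ 12 * m ^ 2 + 2 * m ≤ 2 * k * (m * k + ρ) + k ^ 2 + 3 * k ∧
      2 * d + 2 + 7 * m ^ 2 - 5 * m ≤ 2 * k * (m * k + ρ) + k ^ 2 + 3 * k ∧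
      (2 * d + 7 * m ^ 2 + 9 * m) * (m + 2) ≤ m * (2 * k * (m * k + ρ) - k ^ 2 + 3 * k) := by
  have hd0 : 0 ≤ d := by rw [hd]; positivity
  have hk : 10 ≤ k := by
    by_contra hc
    have a1 : d + 1 ≤ 20 * m := by nlinarith
    nlinarith
  have hρ2 : (ρ + 1) * (ρ + 4) ≤ 2 * m * (2 * m + 3) := by nlinarith
  have hA : 12 * m ^ 2 + 2 * m ≤ 2 * k * (m * k + ρ) + k ^ 2 + 3 * k := by
    have a1 : 0 ≤ m * k * (k - 2) := mul_nonneg (by positivity) (by omega)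
    have a2 : (2 * m) * (12 * m ^ 2 + 2 * m) ≤ (2 * m) * (2 * k * (m * k + ρ) + k ^ 2 + 3 * k) := by
      subst hd; nlinarith
    exact le_of_mul_le_mul_left a2 (by omega)
  have hd20 : 20 * m ≤ d := by nlinarith
  refine ⟨hk, hA, ?_, ?_⟩
  · have a1 : 10 * d ≤ 2 * k * (m * k + ρ) := by nlinarith
    nlinarith
  · rcases hm.eq_or_lt with rfl | hm2
    · have a1 : 26 ≤ d := by nlinarith
      have a2 : 13 ≤ k := by omega
      nlinarith
    · have a0 : 24 * m ^ 3 ≤ d ^ 2 := by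
        have b1 : (4 * m + 1) * (24 * m ^ 3) ≤ (4 * m + 1) * d ^ 2 := by
          have c1 : 4 * m * (24 * m * (m * (m + 1))) ≤ 4 * m * ((d + 1) * (d + 4)) :=
            mul_le_mul_of_nonneg_left h1 (by omega)
          have c2 : 20 * m * d ≤ d * d := mul_le_mul_of_nonneg_right hd20 hd0
          have c3 : m ≤ m ^ 3 := by nlinarith [mul_pos (show 0 < m by omega) (show 0 < m by omega)]
          nlinarith
        exact le_of_mul_le_mul_left b1 (by omega)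
      have a1 : 400 * m ^ 2 ≤ d ^ 2 := by nlinarith
      have a2 : 140 * m ^ 4 + 500 * m ^ 3 + 360 * m ^ 2 ≤ d ^ 2 * (8 * m - 9) := by
        have hm0 : 0 ≤ m ^ 2 := by positivity
        rcases le_total m 16 with h | h
        · have c1 : 400 * m ^ 2 * (8 * m - 9) ≤ d ^ 2 * (8 * m - 9) :=
            mul_le_mul_of_nonneg_right a1 (by omega)
          have c2 : 0 ≤ 2700 * m - 140 * m ^ 2 - 3960 := by nlinarith
          nlinarith [mul_nonneg hm0 c2]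
        · have c1 : 24 * m ^ 3 * (8 * m - 9) ≤ d ^ 2 * (8 * m - 9) :=
            mul_le_mul_of_nonneg_right a0 (by omega)
          have c2 : 0 ≤ 52 * m ^ 2 - 716 * m - 360 := by nlinarith
          nlinarith [mul_nonneg hm0 c2]
      have a3 : (2 * m * k) ^ 2 ≤ d ^ 2 := by
        apply pow_le_pow_left₀ (by positivity); omega
      have a4 : ρ ^ 2 ≤ 4 * m ^ 2 := by nlinarith
      have a5 : 20 * m * d * (m + 2) ≤ d * d * (m + 2) :=
        mul_le_mul_of_nonneg_right (mul_le_mul_of_nonneg_right hd20 hd0) (by omega)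
      have a6 : m * ρ ^ 2 ≤ m * (4 * m ^ 2) := mul_le_mul_of_nonneg_left a4 (by omega)
      have a7 : 2 * m * (2 * k * (m * k + ρ) - k ^ 2 + 3 * k) =
          d ^ 2 - ρ ^ 2 - 2 * m * k ^ 2 + 6 * m * k := by rw [hd]; ring
      have a8 : 0 ≤ m ^ 2 * k := by positivity
      have a9 : (20 * m) * ((2 * d + 7 * m ^ 2 + 9 * m) * (m + 2)) ≤
          (20 * m) * (m * (2 * k * (m * k + ρ) - k ^ 2 + 3 * k)) := by
        have : (20 * m) * (m * (2 * k * (m * k + ρ) - k ^ 2 + 3 * k)) =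
            10 * m * (d ^ 2 - ρ ^ 2 - 2 * m * k ^ 2 + 6 * m * k) := by rw [← a7]; ring
        rw [this]
        nlinarith
      exact le_of_mul_le_mul_left a9 (by omega)

lemma exists_r (L M q : ℕ) (hM : 0 < M) :
    ∃ r : ℕ, L ≤ r * M ∧ r * M < L + 2 * M ∧ (r + q) % 2 = 0 := by
  have h1 := Nat.div_add_mod (L + M - 1) M
  have h2 := Nat.mod_lt (L + M - 1) hM
  set u := (L + M - 1) / M
  rcases Nat.mod_two_eq_zero_or_one (u + q) with h | h
  · exact ⟨u, by rw [mul_comm]; omega, by rw [mul_comm]; omega, h⟩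
  · exact ⟨u + 1, by rw [add_mul, mul_comm]; omega, by rw [add_mul, mul_comm]; omega, by omega⟩

lemma params (n m d : ℕ) (hm : 0 < m) (h1 : 24 * m ≤ n) (h2 : 400 ≤ n)
    (he1 : n * tn m ≤ tn (d + 1) + d + 1) (he2 : tn (d + 1) ≤ n * tn m + d + 1) :
    ∃ k x r b c : ℕ, 0 < k ∧ d = x + m * k ∧ 2 * m ≤ x + 1 ∧ n = r + k ^ 2 + 2 * (b + c) ∧
      tn (x + k + 1) = tn (x + 1) + (b + c) * (m + 1) + c + k ^ 2 ∧
      tn (x + 1) + 9 * tn m ≤ r * tn m + tn (2 * m) ∧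
      r * tn m + tn (3 * m - 1) < tn (x + k + 1) + 4 * tn m := by
  obtain ⟨k, ρ, hd, hρ⟩ : ∃ k ρ : ℕ, d = 2 * m * k + ρ ∧ ρ < 2 * m :=
    ⟨d / (2 * m), d % (2 * m), (Nat.div_add_mod d (2 * m)).symm, Nat.mod_lt _ (by omega)⟩
  have t1 := two_tn m
  have t2 := two_tn (d + 1)
  have t3 := two_tn (m * k + ρ + 1)
  have t4 := two_tn (m * k + ρ + k + 1)
  have t5 := two_tn (2 * m)
  obtain ⟨m', hm'⟩ : ∃ m', 3 * m = m' + 1 := ⟨3 * m - 1, by omega⟩
  rw [show 3 * m - 1 = m' by omega]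
  have t6 := two_tn m'
  have hM : 0 < tn m := by nlinarith
  have t7 : tn (2 * m) ≤ 9 * tn m := by nlinarith
  obtain ⟨r, r1, r2, r3⟩ := exists_r (tn (m * k + ρ + 1) +
    max (9 * tn m - tn (2 * m)) (n * tn m - tn (d + 1))) (tn m) (n + k ^ 2) hM
  generalize tn m = M at *
  generalize tn (d + 1) = Td at *
  generalize hT1 : tn (m * k + ρ + 1) = T1 at *
  generalize hT2 : tn (m * k + ρ + k + 1) = T2 at *
  generalize tn (2 * m) = T3 at *
  generalize tn m' = T4 at *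
  have hn : n * (m * (m + 1)) ≤ (d + 1) * (d + 4) := by nlinarith
  obtain ⟨hk, hA, hB, hC⟩ := ineqs m k ρ d (by omega) (by omega) (by omega) (by omega)
    (by exact_mod_cast hd) (by exact_mod_cast (Nat.mul_le_mul_right _ h1).trans hn)
    (by exact_mod_cast (Nat.mul_le_mul_right _ h2).trans hn)
  obtain ⟨bt, hbt⟩ : ∃ bt : ℤ, (n : ℤ) = r + k ^ 2 + 2 * bt :=
    ⟨((n : ℤ) - r - ((k ^ 2 : ℕ) : ℤ)) / 2, by
      rw [← Nat.cast_pow]; generalize k ^ 2 = q at *; omega⟩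
  obtain ⟨c, hc⟩ : ∃ c : ℤ, (T2 : ℤ) = T1 + bt * (m + 1) + c + k ^ 2 :=
    ⟨T2 - T1 - bt * (m + 1) - k ^ 2, by ring⟩
  zify at t1 t2 t3 t4 t5 t6 hm' hd
  have hΔ : 2 * ((T2 : ℤ) - T1) = 2 * k * (m * k + ρ) + k ^ 2 + 3 * k := by
    linear_combination t4 - t3
  have hid : (m : ℤ) * c = Td - n * M + (r * M - T1) := by
    have : 2 * ((m : ℤ) * c) = 2 * (Td - n * M + (r * M - T1)) := by
      rw [hd] at t2
      rw [hbt]
      linear_combination (-2 * m) * hc + m * hΔ - t2 + t3 + (k ^ 2 + 2 * bt) * t1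
    omega
  have hT3 : 2 * (9 * (M : ℤ) - T3) = 5 * m ^ 2 + 7 * m := by linear_combination 9 * t1 - t5
  have hT4 : 2 * ((T4 : ℤ) - 4 * M) = 5 * m ^ 2 - 7 * m := by
    have : (m' : ℤ) = 3 * m - 1 := by omega
    rw [this] at t6
    linear_combination t6 - 4 * t1
  have hM2 : 2 * (M : ℤ) = m ^ 2 + m := by linear_combination t1
  have hnM : ((n * M : ℕ) : ℤ) = n * M := by push_cast; ring
  have hrM : ((r * M : ℕ) : ℤ) = r * M := by push_cast; ring
  generalize (m : ℤ) ^ 2 = m2 at hA hB hT3 hT4 hM2 hC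
  have hc0 : 0 ≤ c := by
    have : 0 ≤ (m : ℤ) * c := by omega
    by_contra hneg
    nlinarith
  have hcb : c ≤ bt := by
    have a1 : 2 * ((m : ℤ) * c) ≤ 2 * d + 7 * m2 + 9 * m := by omega
    have a2 : 2 * ((m : ℤ) * c) * (m + 2) ≤ (2 * d + 7 * m2 + 9 * m) * (m + 2) :=
      mul_le_mul_of_nonneg_right a1 (by omega)
    have a3 : 2 * (k : ℤ) * (m * k + ρ) - k ^ 2 + 3 * k = 2 * (bt * (m + 1) + c) := by
      linear_combination -hΔ + 2 * hc
    rw [a3] at hC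
    by_contra hlt
    have a4 : (m : ℤ) * (m + 1) * (bt + 1) ≤ m * (m + 1) * c :=
      mul_le_mul_of_nonneg_left (by omega) (by positivity)
    have a5 : 0 < (m : ℤ) * (m + 1) := by positivity
    nlinarith
  obtain ⟨c', rfl⟩ := Int.eq_ofNat_of_zero_le hc0
  obtain ⟨b, hb⟩ := Int.eq_ofNat_of_zero_le (sub_nonneg.mpr hcb)
  have hbt' : bt = b + c' := by omega
  subst hbt'
  refine ⟨k, m * k + ρ, r, b, c', by omega, by zify; rw [hd]; ring, ?_, by exact_mod_cast hbt,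
    by rw [hT1, hT2]; exact_mod_cast hc, by rw [hT1]; omega, by rw [hT2]; omega⟩
  have : 10 ≤ k := by exact_mod_cast hk
  nlinarith

end Pool.Agent.Lib.MP_d03834_ag.H19
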