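import Pool.Agent.Lib.MP_d03834_ag.H19Main
import Pool.Agent.Lib.MP_d03834_ag.H19Arith

set_option autoImplicit false

namespace Pool.Agent.Lib.MP_d03834_ag.H19

open MvPolynomial Module

noncomputable section

lemma good_near (n m d : ℕ) (hm : 0 < m) (h1 : 24 * m ≤ n) (h2 : 400 ≤ n)
    (he1 : n * tn m ≤ tn (d + 1) + d + 1) (he2 : tn (d + 1) ≤ n * tn m + d + 1) :
    Good m (sp (tri (d + 1))) n (min (tn (d + 1)) (n * tn m)) := by
  obtain ⟨k, x, r, b, c, hk, rfl, hx, rfl, hB, p1, p2⟩ := params n m d hm h1 h2 he1 he2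
  exact main_step m k x r b c hm hk (crude_emp m (x + 1) r hm hx p1)
    (crude_ind m (x + k + 1) r hm (by omega) p2) hB

lemma affine (n m : ℕ) (hm : 0 < m) (h1 : 24 * m ≤ n) (h2 : 400 ≤ n) :
    Gen n fun P => ∀ d, finrank ℂ ↥(sp (tri (d + 1)) ⊓ van m (Set.range P)) =
      tn (d + 1) - n * tn m := by
  classical
  have hex : ∃ d, n * tn m < tn (d + 1) := ⟨n * tn m, by
    have := two_tn (n * tn m + 1); nlinarith⟩
  obtain ⟨d1, hd1, hmin⟩ : ∃ d1, n * tn m < tn (d1 + 1) ∧ ∀ d < d1, ¬ n * tn m < tn (d + 1) :=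
    ⟨Nat.find hex, Nat.find_spec hex, fun d hd => Nat.find_min hex hd⟩
  have hM := tn_pos hm
  obtain ⟨d0, rfl⟩ : ∃ d0, d1 = d0 + 1 := by
    rcases d1 with _ | d0
    · exfalso
      have : tn (0 + 1) = 1 := by simp [tn]
      nlinarith
    · exact ⟨d0, rfl⟩
  have hd0 := not_lt.mp (hmin d0 (by omega))
  have hs := tn_succ (d0 + 1)
  have g0 := (good_near n m d0 hm h1 h2 (by omega) (by omega)).gen
  have g1 := (good_near n m (d0 + 1) hm h1 h2 (by omega) (by omega)).gen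
  refine (g0.and g1).mono ?_
  rintro P ⟨a0, a1⟩ d
  rw [min_eq_left hd0, finrank_sp, card_tri] at a0
  rw [min_eq_right hd1.le] at a1
  have b1 := finrank_lower m n P (sp (tri (d + 1)))
  rw [finrank_sp, card_tri] at b1
  rcases le_or_gt d d0 with h | h
  · have : FiniteDimensional ℂ ↥(sp (tri (d0 + 1)) ⊓ van m (Set.range P)) :=
      Submodule.finiteDimensional_of_le inf_le_left
    have b2 : finrank ℂ ↥(sp (tri (d + 1)) ⊓ van m (Set.range P)) ≤
        finrank ℂ ↥(sp (tri (d0 + 1)) ⊓ van m (Set.range P)) :=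
      Submodule.finrank_mono (inf_le_inf_right _ (tri_mono (by omega)))
    have b3 : tn (d + 1) ≤ tn (d0 + 1) := tn_mono (by omega)
    omega
  · have b2 := propagate (tri_mono (show d0 + 1 + 1 ≤ d + 1 by omega)) a1
    rw [finrank_sp, card_tri] at b2
    omega

abbrev R3 := MvPolynomial (Fin 3) ℂ

/-- dehomogenisation -/
def dh : R3 →ₐ[ℂ] R := aeval ![X 0, X 1, 1]

lemma dh_monomial (ν : Fin 3 →₀ ℕ) (c : ℂ) : dh (monomial ν c) = monomial (mk (ν 0) (ν 1)) c := by
  rw [dh, aeval_monomial, monomial_eq, Finsupp.prod_fintype _ _ (by simp),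
    Finsupp.prod_fintype _ _ (by simp)]
  simp [Fin.prod_univ_three, Fin.prod_univ_two]

lemma deg3 {G : R3} {d : ℕ} (hG : G.IsHomogeneous d) {ν : Fin 3 →₀ ℕ} (hν : ν ∈ G.support) :
    ν 0 + ν 1 + ν 2 = d := by
  have := hG (MvPolynomial.mem_support_iff.mp hν)
  rw [Finsupp.weight_apply, Finsupp.sum_fintype _ _ (by simp), Fin.sum_univ_three] at this
  simpa using this

lemma coeff_dh {G : R3} {d : ℕ} (hG : G.IsHomogeneous d) {ν : Fin 3 →₀ ℕ} (hν : ν ∈ G.support) :
    coeff (mk (ν 0) (ν 1)) (dh G) = coeff ν G := by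
  classical
  conv_lhs => rw [G.as_sum, map_sum, coeff_sum]
  rw [Finset.sum_eq_single ν]
  · rw [dh_monomial, coeff_monomial, if_pos rfl]
  · intro ν' hν' hne
    rw [dh_monomial, coeff_monomial, if_neg]
    intro h
    have h0 : ν' 0 = ν 0 := by simpa using congrArg (fun μ : Mon => μ 0) h
    have h1 : ν' 1 = ν 1 := by simpa using congrArg (fun μ : Mon => μ 1) h
    have h2 := deg3 hG hν
    have h3 := deg3 hG hν'
    apply hne
    ext a
    fin_cases a
    · exact h0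
    · exact h1
    · show ν' 2 = ν 2
      omega
  · intro h; exact absurd hν h

/-- homogeneous ideal of a point -/
def hid (p : Pt) : Ideal R3 :=
  Ideal.span ({X 0 - C (p 0) * X 2, X 1 - C (p 1) * X 2} : Set R3)

/-- homogeneous translation -/
def tr3 (p : Pt) : R3 →ₐ[ℂ] R3 := aeval ![X 0 + C (p 0) * X 2, X 1 + C (p 1) * X 2, X 2]

lemma dh_mem (p : Pt) (m : ℕ) {G : R3} (h : G ∈ hid p ^ m) : dh G ∈ pid p ^ m := by
  have h1 : (hid p).map dh ≤ pid p := by
    rw [hid, Ideal.map_span, Ideal.span_le]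
    rintro _ ⟨_, rfl | rfl, rfl⟩ <;> rw [SetLike.mem_coe, mem_pid] <;> simp [dh]
  have h2 : (hid p ^ m).map dh ≤ pid p ^ m := by
    rw [Ideal.map_pow]; exact Ideal.pow_right_mono h1 m
  exact h2 (Ideal.mem_map_of_mem dh h)

lemma mem_of_dh (p : Pt) (m d : ℕ) {G : R3} (hG : G.IsHomogeneous d) (h : dh G ∈ pid p ^ m) :
    G ∈ hid p ^ m := by
  have e1 : ∀ F, dh (tr3 p F) = tr p (dh F) := by
    have : dh.comp (tr3 p) = (tr p).comp dh := by
      ext1 a
      fin_cases a <;> simp [dh, tr3, tr]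
    exact AlgHom.congr_fun this
  have e2 : ∀ F, tr3 (-p) (tr3 p F) = F := by
    have : (tr3 (-p)).comp (tr3 p) = AlgHom.id ℂ R3 := by
      ext1 a
      fin_cases a <;> simp [tr3]
    exact AlgHom.congr_fun this
  have hG' : (tr3 p G).IsHomogeneous d := by
    have := hG.aeval ![X 0 + C (p 0) * X 2, X 1 + C (p 1) * X 2, (X 2 : R3)] (n := 1) (by
      intro a
      fin_cases a
      · exact (isHomogeneous_X ℂ 0).add ((isHomogeneous_X ℂ 2).C_mul _)
      · exact (isHomogeneous_X ℂ 1).add ((isHomogeneous_X ℂ 2).C_mul _)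
      · exact isHomogeneous_X ℂ 2)
    rwa [one_mul] at this
  rw [mem_pow_iff] at h
  rw [← e2 G, (tr3 p G).as_sum, map_sum]
  refine Ideal.sum_mem _ fun ν hν => ?_
  have h1 : m ≤ ν 0 + ν 1 := by
    by_contra hlt
    have := h (mk (ν 0) (ν 1)) (by simpa using hlt)
    rw [← e1, coeff_dh hG' hν] at this
    exact MvPolynomial.mem_support_iff.mp hν this
  have h2 : tr3 (-p) (X 0) ∈ hid p := Ideal.subset_span (Or.inl (by simp [tr3]; ring))
  have h3 : tr3 (-p) (X 1) ∈ hid p := Ideal.subset_span (Or.inr (by simp [tr3]; ring))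
  rw [monomial_eq, Finsupp.prod_fintype _ _ (by simp), Fin.prod_univ_three, map_mul, map_mul,
    map_mul, map_pow, map_pow]
  refine Ideal.mul_mem_left _ _ (Ideal.mul_mem_right _ _ (Ideal.pow_le_pow_right h1 ?_))
  rw [pow_add]
  exact Ideal.mul_mem_mul (Ideal.pow_mem_pow h2 _) (Ideal.pow_mem_pow h3 _)

lemma exists_hom (d : ℕ) (F : R) (hF : F ∈ sp (tri (d + 1))) :
    ∃ G : R3, G.IsHomogeneous d ∧ dh G = F := by
  let e : Mon → (Fin 3 →₀ ℕ) := fun μ =>
    Finsupp.single 0 (μ 0) + Finsupp.single 1 (μ 1) + Finsupp.single 2 (d - μ 0 - μ 1)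
  refine ⟨∑ μ ∈ F.support, monomial (e μ) (coeff μ F), ?_, ?_⟩
  · refine IsHomogeneous.sum _ _ _ fun μ hμ => isHomogeneous_monomial _ ?_
    have := (mem_tri _ μ).mp ((mem_sp _ F).mp hF hμ)
    rw [Finsupp.degree_eq_sum, Fin.sum_univ_three]
    simp [e]; omega
  · rw [map_sum]
    conv_rhs => rw [F.as_sum]
    refine Finset.sum_congr rfl fun μ _ => ?_
    rw [dh_monomial]
    simp [e, mk_eta]

lemma finrank_hom (n m d : ℕ) (P : Fin n → Pt) :
    finrank ℂ ↥(homogeneousSubmodule (Fin 3) ℂ d ⊓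
      Submodule.restrictScalars ℂ (⨅ i : Fin n, hid (P i) ^ m)) =
    finrank ℂ ↥(sp (tri (d + 1)) ⊓ van m (Set.range P)) := by
  set W := homogeneousSubmodule (Fin 3) ℂ d ⊓
      Submodule.restrictScalars ℂ (⨅ i : Fin n, hid (P i) ^ m) with hW
  have hmem : ∀ G, G ∈ W ↔ G.IsHomogeneous d ∧ ∀ i, G ∈ hid (P i) ^ m := by
    intro G
    rw [hW, Submodule.mem_inf, mem_homogeneousSubmodule, Submodule.restrictScalars_mem,
      Submodule.mem_iInf]
  let f : W →ₗ[ℂ] R := dh.toLinearMap.domRestrict W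
  have hf : Function.Injective f := by
    rw [injective_iff_map_eq_zero]
    intro G hG
    apply Subtype.ext
    by_contra hne
    obtain ⟨ν, hν⟩ := support_nonempty.mpr hne
    have := coeff_dh ((hmem _).mp G.2).1 hν
    have h0 : dh G.1 = 0 := hG
    rw [h0, coeff_zero] at this
    exact MvPolynomial.mem_support_iff.mp hν this.symm
  have hr : LinearMap.range f = sp (tri (d + 1)) ⊓ van m (Set.range P) := by
    ext F
    constructor
    · rintro ⟨G, rfl⟩
      obtain ⟨h1, h2⟩ := (hmem _).mp G.2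
      refine ⟨?_, ?_⟩
      · show dh G.1 ∈ sp (tri (d + 1))
        rw [G.1.as_sum, map_sum]
        refine Submodule.sum_mem _ fun ν hν => ?_
        rw [dh_monomial, mem_sp]
        refine support_monomial_subset.trans ?_
        have := deg3 h1 hν
        simp [mem_tri]; omega
      · rintro _ ⟨i, rfl⟩
        exact dh_mem _ _ (h2 i)
    · rintro ⟨h1, h2⟩
      obtain ⟨G, g1, rfl⟩ := exists_hom d F h1
      exact ⟨⟨G, (hmem G).mpr ⟨g1, fun i => mem_of_dh _ m d g1 (h2 _ ⟨i, rfl⟩)⟩⟩, rfl⟩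
  rw [← hr, LinearMap.finrank_range_of_inj hf]

theorem final (n m : ℕ) (hm : 0 < m) (h1 : 24 * m ≤ n) (h2 : 400 ≤ n) :
    Gen n fun P => ∀ d, finrank ℂ ↥(homogeneousSubmodule (Fin 3) ℂ d ⊓
      Submodule.restrictScalars ℂ (⨅ i : Fin n, hid (P i) ^ m)) =
      Nat.choose (d + 2) 2 - n * Nat.choose (m + 1) 2 :=
  (affine n m hm h1 h2).mono fun P h d => by rw [finrank_hom, h d]; rfl

end

end Pool.Agent.Lib.MP_d03834_ag.H19
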