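import Pool.Agent.Lib.MP_d03834_ag.AllDeg

set_option autoImplicit false

namespace Pool.Agent.Lib.MP_d03834_ag

lemma count (Q Z L : ℕ) (S : Finset ℕ)
    (h : ∀ n ∈ S, ∃ p q : ℕ, 0 < q ∧ q ≤ Q ∧ Nat.Coprime p q ∧
      |(q : ℤ) ^ 2 * n - p ^ 2| ≤ L * q ∧ 2 * (p / q) + q ≤ Z) :
    S.card ≤ Q * (Z * (2 * L + 1)) := by
  choose! p q h1 h2 h3 h4 h5 using h
  let a : ℕ → ℤ := fun n => q n * (n - (p n / q n : ℕ) ^ 2) - 2 * (p n / q n : ℕ) * (p n % q n : ℕ)
    - ((p n % q n) ^ 2 / q n : ℕ)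
  have ha : ∀ n ∈ S, -(L : ℤ) ≤ a n ∧ a n ≤ L := by
    intro n hn
    have e1 := Nat.div_add_mod (p n) (q n)
    have e2 := Nat.div_add_mod ((p n % q n) ^ 2) (q n)
    have e3 := Nat.mod_lt ((p n % q n) ^ 2) (h1 n hn)
    have e4 := abs_le.1 (h4 n hn)
    have e0 := h1 n hn
    simp only [a]
    generalize (p n % q n) ^ 2 / q n = w at *
    generalize (p n % q n) ^ 2 % q n = ρ at *
    generalize p n % q n = i at *
    generalize p n / q n = s at *
    rw [← e1] at e4
    generalize q n = r at *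
    zify at e2 e3 e0
    push_cast at e4
    have e5 : (r : ℤ) * (r * (n - s ^ 2) - 2 * s * i - w) = r ^ 2 * n - (r * s + i) ^ 2 + ρ := by
      linear_combination -e2
    constructor
    · exact le_of_mul_le_mul_left (a := (r : ℤ)) (by linarith [Int.natCast_nonneg ρ]) e0
    · exact Int.lt_add_one_iff.1 (lt_of_mul_lt_mul_left (a := (r : ℤ)) (by linarith) e0.le)
  have := Finset.card_le_card_of_injOn (s := S)
    (t := Finset.Icc 1 Q ×ˢ Finset.range Z ×ˢ Finset.range (2 * L + 1))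
    (fun n => (q n, (2 * (p n / q n) / q n) * q n + p n % q n, (a n + L).toNat)) (by
      intro n hn
      have e1 := ha n hn
      have e2 := Nat.mod_lt (p n) (h1 n hn)
      have e3 := Nat.div_mul_le_self (2 * (p n / q n)) (q n)
      have := h1 n hn
      have := h2 n hn
      have := h5 n hn
      simp only [Finset.coe_product, Set.mem_prod, Finset.mem_coe, Finset.mem_Icc, Finset.mem_range]
      omega) (by
      intro n hn n' hn' he
      simp only [Prod.mk.injEq] at he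
      obtain ⟨e1, e2, e3⟩ := he
      have a1 := ha n hn
      have a2 := ha n' hn'
      have e4 : a n = a n' := by omega
      have q0 := h1 n hn
      have c1 := h3 n hn
      have m1 := Nat.mod_lt (p n) q0
      have m2 := Nat.mod_lt (p n') q0
      simp only [a] at e4
      rw [← e1] at e2 e4
      have e5 : p n % q n = p n' % q n := by
        have := congrArg (· % q n) e2
        simpa [Nat.mul_add_mod_of_lt, m1, m2] using this
      have e6 : 2 * (p n / q n) / q n = 2 * (p n' / q n) / q n := by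
        rw [e5] at e2
        exact Nat.eq_of_mul_eq_mul_right q0 (by omega)
      have c2 : Nat.Coprime (p n % q n) (q n) := by
        rw [Nat.Coprime, ← Nat.gcd_rec, Nat.gcd_comm]; exact c1
      rw [← e5] at e4
      have d1 := Nat.div_add_mod (2 * (p n / q n)) (q n)
      have d2 := Nat.div_add_mod (2 * (p n' / q n)) (q n)
      have d3 := Nat.mod_lt (2 * (p n / q n)) q0
      have d4 := Nat.mod_lt (2 * (p n' / q n)) q0
      rw [e6] at d1
      generalize p n % q n = i at *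
      generalize p n / q n = s at *
      generalize p n' / q n = s' at *
      generalize q n = r at *
      have f1 : (r : ℤ) ∣ (2 * s - 2 * s') * i :=
        ⟨(n - s ^ 2) - (n' - s' ^ 2), by linear_combination -e4⟩
      have f2 : (r : ℤ) ∣ 2 * s - 2 * s' :=
        (Nat.isCoprime_iff_coprime.2 c2.symm).dvd_of_dvd_mul_right f1
      have f3 := Int.eq_zero_of_abs_lt_dvd f2 (by rw [abs_lt]; omega)
      have f4 : s = s' := by omega
      subst f4
      have f5 : (r : ℤ) * n = r * n' := by linear_combination e4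
      exact_mod_cast mul_left_cancel₀ (by omega) f5)
  simpa using this

lemma bad_approx {n m X : ℕ} {Y : ℝ} (hn : 1000000000000 ≤ n) (hX : n ≤ X) (hm : 0 < m)
    (hY : (m : ℝ) ≤ Y * n) (h : ¬ SHGH n m) : ∃ p q : ℕ, 0 < q ∧ q ≤ ⌊40 * Y⌋₊ ∧
      Nat.Coprime p q ∧ |(q : ℤ) ^ 2 * n - p ^ 2| ≤ (3000000 : ℕ) * q ∧
      2 * (p / q) + q ≤ ⌊4 * √(X : ℝ)⌋₊ := by
  have hR2 : √(n : ℝ) ^ 2 = n := Real.sq_sqrt (by positivity)
  have hR : 1000000 ≤ √(n : ℝ) := Real.le_sqrt_of_sq_le (by exact_mod_cast hn)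
  have hRX : √(n : ℝ) ≤ √(X : ℝ) := Real.sqrt_le_sqrt (by exact_mod_cast hX)
  have N1 : (⌊√(n : ℝ) / 1000000⌋₊ : ℝ) ≤ √(n : ℝ) / 1000000 := Nat.floor_le (by positivity)
  have N2 := Nat.lt_floor_add_one (√(n : ℝ) / 1000000)
  obtain ⟨ξ, h1, h2⟩ := Real.exists_rat_abs_sub_le_and_den_le √(n : ℝ)
    (n := ⌊√(n : ℝ) / 1000000⌋₊) (Nat.floor_pos.2 (by linarith))
  generalize ⌊√(n : ℝ) / 1000000⌋₊ = N at *
  have q0 := ξ.pos
  have q1 : (1 : ℝ) ≤ ξ.den := by exact_mod_cast q0
  have q2 : (ξ.den : ℝ) ≤ N := by exact_mod_cast h2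
  have h3 : 1 / (((N : ℝ) + 1) * ξ.den) ≤ 1 / (ξ.den : ℝ) ^ 2 :=
    one_div_le_one_div_of_le (by positivity) (by nlinarith)
  have h4 : 1 / (ξ.den : ℝ) ^ 2 ≤ 1 := by
    rw [div_le_one (by positivity)]; nlinarith
  have h5 := abs_le.1 (h1.trans (h3.trans h4))
  have h6 : 0 ≤ ξ.num := Rat.num_nonneg.2 (by
    have : (0 : ℝ) ≤ ξ := by linarith
    exact_mod_cast this)
  obtain ⟨p, hp⟩ := Int.eq_ofNat_of_zero_le h6
  have h7 : (ξ : ℝ) = p / ξ.den := by
    rw [Rat.cast_def, hp]; simp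
  have h8 : Nat.Coprime p ξ.den := by
    have := ξ.reduced
    rwa [hp, Int.natAbs_natCast] at this
  rw [h7] at h1 h5
  generalize ξ.den = q at *
  refine ⟨p, q, q0, ?_, h8, ?_, ?_⟩
  · by_contra h9
    refine h (dioph n m p q hm h8 (by linarith) (h1.trans h3) ?_)
    have a1 : 40 * Y < q := by
      by_contra a2
      exact h9 (Nat.le_floor (not_lt.1 a2))
    have a2 : (0 : ℝ) ≤ n := by positivity
    have : (40 * m : ℝ) ≤ q * n := by nlinarith
    exact_mod_cast this
  · generalize √(n : ℝ) = R at *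
    have e : ((q : ℝ) ^ 2 * n - p ^ 2) = q ^ 2 * ((R - p / q) * (R + p / q)) := by
      rw [← hR2]; field_simp; ring
    have a1 : |(q : ℝ) ^ 2 * n - p ^ 2| ≤ 3000000 * q := by
      rw [e, abs_mul, abs_mul, abs_of_nonneg (sq_nonneg _),
        abs_of_nonneg (show 0 ≤ R + p / q by positivity)]
      calc (q : ℝ) ^ 2 * (|R - p / q| * (R + p / q)) ≤
          q ^ 2 * (1 / (R / 1000000 * q) * (3 * R)) := by
            gcongr
            · exact h1.trans (one_div_le_one_div_of_le (by positivity) (by gcongr))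
            · linarith
        _ = _ := by field_simp; ring
    exact_mod_cast a1
  · refine Nat.le_floor ?_
    have : ((p / q : ℕ) : ℝ) ≤ p / q := Nat.cast_div_le
    push_cast
    linarith

theorem few_exceptions : ∃ K : ℝ, ∀ (Y : ℝ) (X : ℕ), 0 < Y →
    (Set.ncard {n : ℕ | n ≤ X ∧ ∃ m : ℕ, 0 < m ∧ (m : ℝ) ≤ Y * n ∧ ¬ SHGH n m} : ℝ) ≤
      K * Y * √X := by
  classical
  refine ⟨1000000000000 ^ 2 + 40 * (4 * (2 * 3000000 + 1)), fun Y X hY => ?_⟩
  let S := (Finset.range (X + 1)).filter fun n : ℕ => ∃ m : ℕ, 0 < m ∧ (m : ℝ) ≤ Y * n ∧ ¬ SHGH n m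
  have e : {n : ℕ | n ≤ X ∧ ∃ m : ℕ, 0 < m ∧ (m : ℝ) ≤ Y * n ∧ ¬ SHGH n m} = S := by
    ext n
    simp [S]
  rw [e, Set.ncard_coe_finset]
  have h1 := Finset.card_filter_add_card_filter_not (s := S) (fun n => 1000000000000 ≤ n)
  have h2 := count ⌊40 * Y⌋₊ ⌊4 * √(X : ℝ)⌋₊ 3000000 (S.filter fun n => 1000000000000 ≤ n) (by
    intro n hn
    simp only [S, Finset.mem_filter, Finset.mem_range] at hn
    obtain ⟨⟨a1, m, a2, a3, a4⟩, a5⟩ := hn
    exact bad_approx a5 (by omega) a2 a3 a4)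
  have h3 : ((S.filter fun n => 1000000000000 ≤ n).card : ℝ) ≤
      40 * (4 * (2 * 3000000 + 1)) * Y * √X := by
    have a1 : (⌊40 * Y⌋₊ : ℝ) ≤ 40 * Y := Nat.floor_le (by positivity)
    have a2 : (⌊4 * √(X : ℝ)⌋₊ : ℝ) ≤ 4 * √(X : ℝ) := Nat.floor_le (by positivity)
    calc ((S.filter fun n => 1000000000000 ≤ n).card : ℝ) ≤
        ⌊40 * Y⌋₊ * (⌊4 * √(X : ℝ)⌋₊ * (2 * 3000000 + 1)) := by exact_mod_cast h2
      _ ≤ 40 * Y * (4 * √(X : ℝ) * (2 * 3000000 + 1)) := by gcongr
      _ = _ := by ring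
  have h4 : ((S.filter fun n => ¬ 1000000000000 ≤ n).card : ℝ) ≤ 1000000000000 ^ 2 * Y * √X := by
    rcases (S.filter fun n => ¬ 1000000000000 ≤ n).eq_empty_or_nonempty with h | ⟨n, hn⟩
    · rw [h]; simp; positivity
    · simp only [S, Finset.mem_filter, Finset.mem_range] at hn
      obtain ⟨⟨a1, m, a2, a3, -⟩, a5⟩ := hn
      have b1 : (1 : ℝ) ≤ m := by exact_mod_cast a2
      have b2 : (n : ℝ) ≤ 1000000000000 := by exact_mod_cast (not_le.1 a5).le
      have b3 : 1 ≤ Y * 1000000000000 := b1.trans (a3.trans (by gcongr))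
      have b4 : 1 ≤ X := by
        by_contra h
        have : n = 0 := by omega
        subst this
        simp at a3; omega
      have b5 : 1 ≤ √(X : ℝ) := Real.one_le_sqrt.2 (by exact_mod_cast b4)
      have b6 : (S.filter fun n => ¬ 1000000000000 ≤ n).card ≤ 1000000000000 := by
        refine (Finset.card_le_card (t := Finset.range 1000000000000) fun n hn => ?_).trans
          (by simp)
        rw [Finset.mem_filter] at hn
        exact Finset.mem_range.2 (by omega)
      have b7 : ((S.filter fun n => ¬ 1000000000000 ≤ n).card : ℝ) ≤ 1000000000000 := by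
        exact_mod_cast b6
      nlinarith
  rw [← h1]
  push_cast
  linarith

end Pool.Agent.Lib.MP_d03834_ag
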