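import Pool.Agent.Lib.MP_d03834_ag.Semicont

set_option autoImplicit false

open MvPolynomial Module Filter

namespace Pool.Agent.Lib.MP_d03834_ag

/-- value of a monomial -/
def mono (p : Pt) (ν : E) : ℂ := p 0 ^ ν 0 * p 1 ^ ν 1

lemma eval_monomial' (p : Pt) (ν : E) (c : ℂ) : eval p (monomial ν c) = c * mono p ν := by
  rw [eval_monomial, Finsupp.prod_fintype _ _ (by simp)]
  simp [mono, Fin.prod_univ_two]

/-- scaling -/
noncomputable def sc (s : Pt) (hs : ∀ i, s i ≠ 0) : R ≃ₐ[ℂ] R :=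
  AlgEquiv.ofAlgHom (aeval fun i => C (s i) * X i) (aeval fun i => C (s i)⁻¹ * X i)
    (by
      ext i : 1
      simp only [AlgHom.comp_apply, aeval_X, map_mul, AlgHom.id_apply, aeval_C, algebraMap_eq]
      rw [← mul_assoc, ← C_mul, inv_mul_cancel₀ (hs i), C_1, one_mul])
    (by
      ext i : 1
      simp only [AlgHom.comp_apply, aeval_X, map_mul, AlgHom.id_apply, aeval_C, algebraMap_eq]
      rw [← mul_assoc, ← C_mul, mul_inv_cancel₀ (hs i), C_1, one_mul])

lemma sc_monomial (s : Pt) (hs : ∀ i, s i ≠ 0) (ν : E) (c : ℂ) :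
    sc s hs (monomial ν c) = monomial ν (mono s ν * c) := by
  simp only [sc, AlgEquiv.ofAlgHom_apply, aeval_monomial, algebraMap_eq]
  rw [Finsupp.prod_fintype _ _ (by simp), monomial_eq, Finsupp.prod_fintype _ _ (by simp)]
  simp only [Fin.prod_univ_two, mono, mul_pow, map_mul, map_pow]
  ring

lemma coeff_sc (s : Pt) (hs : ∀ i, s i ≠ 0) (f : R) (ν : E) :
    coeff ν (sc s hs f) = mono s ν * coeff ν f := by
  classical
  induction f using MvPolynomial.induction_on' with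
  | monomial μ c =>
    rw [sc_monomial, coeff_monomial, coeff_monomial]
    split_ifs with h
    · rw [h]
    · simp
  | add p q hp hq => simp [hp, hq, mul_add]

/-- weight of an exponent -/
def wt (w : Fin 2 → ℤ) (ν : E) : ℤ := w 0 * ν 0 + w 1 * ν 1

/-- one parameter subgroup -/
noncomputable def tw (w : Fin 2 → ℤ) (t : ℂ) : R ≃ₐ[ℂ] R :=
  sc (fun i => if t = 0 then 1 else t ^ w i) (fun i => by
    split_ifs with h
    · exact one_ne_zero
    · exact zpow_ne_zero _ h)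

lemma coeff_tw (w : Fin 2 → ℤ) {t : ℂ} (ht : t ≠ 0) (f : R) (ν : E) :
    coeff ν (tw w t f) = t ^ wt w ν * coeff ν f := by
  rw [tw, coeff_sc]
  congr 1
  simp only [mono, if_neg ht, wt]
  rw [zpow_add₀ ht, zpow_mul, zpow_mul, zpow_natCast, zpow_natCast]

lemma coeff_tw_eq_zero (w : Fin 2 → ℤ) (t : ℂ) (f : R) (ν : E) :
    coeff ν (tw w t f) = 0 ↔ coeff ν f = 0 := by
  rw [tw, coeff_sc, mul_eq_zero]
  refine ⟨fun h => h.resolve_left ?_, Or.inr⟩
  simp only [mono]
  split_ifs with h1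
  · simp
  · exact mul_ne_zero (pow_ne_zero _ (zpow_ne_zero _ h1)) (pow_ne_zero _ (zpow_ne_zero _ h1))

/-- polynomial functions of one variable -/
noncomputable def polyB : Subalgebra ℂ (ℂ → ℂ) :=
  (Polynomial.aeval (id : ℂ → ℂ) : Polynomial ℂ →ₐ[ℂ] (ℂ → ℂ)).range

lemma cofinite_of_polyB {g : ℂ → ℂ} (hg : g ∈ polyB) (h0 : g 0 = 1) :
    ∀ᶠ t in cofinite, g t ≠ 0 := by
  obtain ⟨F, rfl⟩ := hg
  have hF : F ≠ 0 := by
    rintro rfl
    simp at h0
  have h1 : ∀ (F : Polynomial ℂ) t, (Polynomial.aeval (id : ℂ → ℂ) F) t = F.eval t := by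
    intro F t
    induction F using Polynomial.induction_on' with
    | monomial n a => simp
    | add p q hp hq => simp
  rw [eventually_cofinite]
  refine (F.roots.toFinset.finite_toSet).subset fun t ht => ?_
  simp only [Set.mem_ofPred_eq, not_not] at ht
  have : F.eval t = 0 := by rw [← h1]; exact ht
  simp [hF, this]

lemma id_mem_polyB : (id : ℂ → ℂ) ∈ polyB := ⟨Polynomial.X, by simp⟩

/-- sum of monomials -/
noncomputable def emb (S : Finset E) : (S → ℂ) →ₗ[ℂ] R :=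
  ∑ ν : S, (monomial ν.1).comp (LinearMap.proj ν)

lemma emb_apply (S : Finset E) (c : S → ℂ) : emb S c = ∑ ν : S, monomial ν.1 (c ν) := by
  simp [emb, LinearMap.sum_apply]

lemma coeff_emb (S : Finset E) (c : S → ℂ) (ν : S) : coeff ν.1 (emb S c) = c ν := by
  classical
  rw [emb_apply, coeff_sum, Finset.sum_eq_single ν]
  · simp
  · intro μ _ h
    rw [coeff_monomial, if_neg (fun h' => h (Subtype.ext h'))]
  · simp

lemma emb_mem_sp (S : Finset E) (c : S → ℂ) : emb S c ∈ sp S := by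
  rw [emb_apply]
  exact Submodule.sum_mem _ fun ν _ => monomial_mem_sp ν.2 _

lemma core (S : Finset E) (w : Fin 2 → ℤ) (g : S → R)
    (hg : ∀ ν : S, coeff ν.1 (g ν) = 1 ∧ ∀ μ, coeff μ (g ν) ≠ 0 → μ = ν.1 ∨ wt w ν.1 < wt w μ)
    (V : Submodule ℂ R) (hV : ∀ f ∈ V, ∃ c : S → ℂ, ∑ ν, c ν • g ν = f) (I : Submodule ℂ R) :
    ∀ᶠ t in cofinite, finrank ℂ ↥(V ⊓ I.comap (tw w t).toLinearMap) ≤ finrank ℂ ↥(sp S ⊓ I) := by
  classical
  let G : S → ℂ → R := fun ν t => ∑ μ ∈ (g ν).support,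
    (t ^ (wt w μ - wt w ν.1).toNat * coeff μ (g ν)) • monomial μ (1 : ℂ)
  let N : ℂ → (S → ℂ) →ₗ[ℂ] R := fun t => Fintype.linearCombination ℂ (fun ν => G ν t)
  let M : ℂ → (S → ℂ) →ₗ[ℂ] (R ⧸ I) := fun t => I.mkQ.comp (N t)
  have hcoef : ∀ ν t μ, coeff μ (G ν t) = t ^ (wt w μ - wt w ν.1).toNat * coeff μ (g ν) := by
    intro ν t μ
    simp only [G, coeff_sum, coeff_smul, coeff_monomial, smul_eq_mul, mul_ite, mul_one, mul_zero]
    rw [Finset.sum_ite_eq']
    split_ifs with h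
    · rfl
    · rw [notMem_support_iff.1 h, mul_zero]
  have hG0 : ∀ ν, G ν 0 = monomial ν.1 1 := by
    intro ν
    ext μ
    rw [hcoef, coeff_monomial]
    split_ifs with h
    · subst h; simp [(hg ν).1]
    · by_cases h1 : coeff μ (g ν) = 0
      · simp [h1]
      · rcases (hg ν).2 μ h1 with h2 | h2
        · exact absurd h2.symm h
        · rw [zero_pow (by omega), zero_mul]
  have hGt : ∀ ν t, t ≠ 0 → tw w t (g ν) = t ^ wt w ν.1 • G ν t := by
    intro ν t ht
    ext μ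
    rw [coeff_tw w ht, coeff_smul, hcoef, smul_eq_mul]
    by_cases h1 : coeff μ (g ν) = 0
    · simp [h1]
    · have h2 : wt w ν.1 ≤ wt w μ := by
        rcases (hg ν).2 μ h1 with h2 | h2
        · rw [h2]
        · exact h2.le
      rw [← mul_assoc, ← zpow_natCast, ← zpow_add₀ ht, Int.toNat_of_nonneg (by omega)]
      congr 2
      ring
  obtain ⟨q, hq, h0, h⟩ := semicont polyB M (fun c l => by
    have : (fun t => l (M t c)) = ∑ ν : S, ∑ μ ∈ (g ν).support,
        (c ν * coeff μ (g ν) * l (I.mkQ (monomial μ 1))) •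
          (id : ℂ → ℂ) ^ (wt w μ - wt w ν.1).toNat := by
      funext t
      simp only [M, N, G, LinearMap.comp_apply, Fintype.linearCombination_apply, map_sum,
        map_smul, Finset.sum_apply, Pi.smul_apply, Pi.pow_apply, id, smul_eq_mul, Finset.mul_sum]
      refine Finset.sum_congr rfl fun ν _ => Finset.sum_congr rfl fun μ _ => by ring
    rw [this]
    exact polyB.sum_mem fun ν _ => polyB.sum_mem fun μ _ =>
      polyB.smul_mem (polyB.pow_mem id_mem_polyB _) _) 0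
  have hne : ∀ᶠ t : ℂ in cofinite, t ≠ 0 := by
    rw [eventually_cofinite]; simp
  filter_upwards [cofinite_of_polyB hq h0, hne] with t ht ht0
  have h1 : finrank ℂ (LinearMap.ker (M 0)) ≤ finrank ℂ ↥(sp S ⊓ I) := by
    have hN : ∀ c, N 0 c = emb S c := by
      intro c
      simp [N, hG0, emb_apply, Fintype.linearCombination_apply, smul_monomial]
    refine finrank_le_of_inj _ _ (emb S) (fun c _ hc => ?_) (fun c hc => ⟨emb_mem_sp S c, ?_⟩)
    · funext ν
      rw [← coeff_emb S c ν, hc]; simp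
    · have : I.mkQ (N 0 c) = 0 := hc
      rw [hN] at this
      simpa using this
  have h2 : finrank ℂ ↥(V ⊓ I.comap (tw w t).toLinearMap) ≤ finrank ℂ (LinearMap.ker (M t)) := by
    let ψ : (S → ℂ) →ₗ[ℂ] R := Fintype.linearCombination ℂ (fun ν => (t ^ wt w ν.1)⁻¹ • g ν)
    refine le_trans (Submodule.finrank_mono (t := (LinearMap.ker (M t)).map ψ) ?_)
      (Submodule.finrank_map_le _ _)
    rintro f ⟨hf1, hf2⟩
    obtain ⟨c, rfl⟩ := hV f hf1
    refine ⟨fun ν => c ν * t ^ wt w ν.1, ?_, ?_⟩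
    · have h3 : N t (fun ν => c ν * t ^ wt w ν.1) = tw w t (∑ ν, c ν • g ν) := by
        simp [N, Fintype.linearCombination_apply, hGt _ t ht0, mul_smul]
      have h4 : tw w t (∑ ν, c ν • g ν) ∈ I := hf2
      simp only [M, SetLike.mem_coe, LinearMap.mem_ker, LinearMap.comp_apply, h3]
      exact (Submodule.Quotient.mk_eq_zero I).2 h4
    · simp only [ψ, Fintype.linearCombination_apply, smul_smul]
      refine Finset.sum_congr rfl fun ν _ => ?_
      rw [mul_assoc, mul_inv_cancel₀ (zpow_ne_zero _ ht0), mul_one]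
  exact h2.trans ((h t ht).trans h1)

lemma finrank_inf_le_add {V : Type*} [AddCommGroup V] [Module ℂ V] (A B K : Submodule ℂ V)
    [FiniteDimensional ℂ A] [FiniteDimensional ℂ B] :
    finrank ℂ ↥((A ⊔ B) ⊓ K) ≤ finrank ℂ ↥(A ⊓ K) + finrank ℂ B := by
  have h1 := Submodule.finrank_sup_add_finrank_inf_eq ((A ⊔ B) ⊓ K) A
  have h2 := Submodule.finrank_sup_add_finrank_inf_eq A B
  have h3 : finrank ℂ ↥((A ⊔ B) ⊓ K ⊔ A) ≤ finrank ℂ ↥(A ⊔ B) :=
    Submodule.finrank_mono (sup_le inf_le_left le_sup_left)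
  have h4 : finrank ℂ ↥((A ⊔ B) ⊓ K ⊓ A) ≤ finrank ℂ ↥(A ⊓ K) :=
    Submodule.finrank_mono (le_inf inf_le_right (inf_le_left.trans inf_le_right))
  omega

/-- gluing lemma -/
lemma glue (S : Finset E) (w : Fin 2 → ℤ) (V : Submodule ℂ R) [FiniteDimensional ℂ V]
    (hV : ∀ f ∈ V, ∀ μ, coeff μ f ≠ 0 → μ ∉ S → ∀ ν ∈ S, wt w ν < wt w μ) (I : Submodule ℂ R) :
    ∀ᶠ t in cofinite, finrank ℂ ↥(V ⊓ I.comap (tw w t).toLinearMap) ≤
      finrank ℂ ↥(V ⊓ J S) + finrank ℂ ↥(sp S ⊓ I) := by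
  classical
  obtain ⟨U, hU⟩ := ((V ⊓ J S).comap V.subtype).exists_isCompl
  let π : R →ₗ[ℂ] (S → ℂ) := coefMap LinearMap.id S
  let ι : U →ₗ[ℂ] R := V.subtype.comp U.subtype
  have hker : LinearMap.ker (π.comp ι) = ⊥ := by
    rw [LinearMap.ker_eq_bot']
    intro u hu
    have h1 : (u : V) ∈ (V ⊓ J S).comap V.subtype ⊓ U := by
      refine ⟨⟨u.1.2, fun ν hν => ?_⟩, u.2⟩
      have := congrFun hu ⟨ν, hν⟩
      simpa [π, ι, coefMap] using this
    rw [hU.inf_eq_bot] at h1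
    exact Subtype.ext (by simpa using h1)
  obtain ⟨L, hL⟩ := LinearMap.exists_leftInverse_of_injective (K := ℂ) (V := U) (V' := S → ℂ)
    (π.comp ι) hker
  let G : (S → ℂ) →ₗ[ℂ] R := ι.comp L + (emb S).comp (LinearMap.id - π.comp (ι.comp L))
  have hG1 : ∀ c (ν : S), coeff ν.1 (G c) = c ν := by
    intro c ν
    simp [G, coeff_emb, π, coefMap]
  have hG2 : ∀ c μ, coeff μ (G c) ≠ 0 → μ ∉ S → ∀ ν ∈ S, wt w ν < wt w μ := by
    intro c μ h hμ
    refine hV (ι (L c)) (L c).1.2 μ ?_ hμ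
    have : coeff μ (emb S (c - π (ι (L c)))) = 0 := by
      by_contra h1
      exact hμ (mem_sp.1 (emb_mem_sp S _) μ h1)
    simpa [G, this, -map_sub] using h
  have hG3 : ∀ u : U, G (π (ι u)) = ι u := by
    intro u
    have : L (π (ι u)) = u := LinearMap.congr_fun hL u
    simp [G, this]
  have hcore := core S w (fun ν => G (Pi.single ν 1)) (fun ν => ⟨by simp [hG1], fun μ hμ => by
    by_cases h : μ ∈ S
    · left
      have := hG1 (Pi.single ν 1) ⟨μ, h⟩
      rw [this] at hμ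
      by_contra h1
      exact hμ (Pi.single_eq_of_ne (fun h2 => h1 (congrArg Subtype.val h2)) _)
    · exact Or.inr (hG2 _ μ hμ h ν.1 ν.2)⟩) (LinearMap.range ι) (by
    rintro f ⟨u, rfl⟩
    refine ⟨π (ι u), ?_⟩
    conv_rhs => rw [← hG3 u, pi_eq_sum_univ' (π (ι u))]
    simp) I
  filter_upwards [hcore] with t ht
  have h1 : V ≤ LinearMap.range ι ⊔ (V ⊓ J S) := by
    intro f hf
    have : (⟨f, hf⟩ : V) ∈ (V ⊓ J S).comap V.subtype ⊔ U := by rw [hU.sup_eq_top]; trivial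
    obtain ⟨a, ha, b, hb, hab⟩ := Submodule.mem_sup.1 this
    refine Submodule.mem_sup.2 ⟨b, ⟨⟨b, hb⟩, rfl⟩, a, ha, ?_⟩
    have := congrArg Subtype.val hab
    simpa [add_comm] using this
  have h2 := finrank_inf_le_add (LinearMap.range ι) (V ⊓ J S) (I.comap (tw w t).toLinearMap)
  have h3 : finrank ℂ ↥(V ⊓ I.comap (tw w t).toLinearMap) ≤
      finrank ℂ ↥((LinearMap.range ι ⊔ (V ⊓ J S)) ⊓ I.comap (tw w t).toLinearMap) :=
    Submodule.finrank_mono (inf_le_inf_right _ h1)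
  omega

/-- `ν` is an initial exponent of `V` -/
def IsIni (w : Fin 2 → ℤ) (V : Submodule ℂ R) (ν : E) : Prop :=
  ∃ f ∈ V, coeff ν f = 1 ∧ ∀ μ, coeff μ f ≠ 0 → μ = ν ∨ wt w ν < wt w μ

lemma ini_indep (w : Fin 2 → ℤ) (S : Finset E) (g : S → R)
    (hg : ∀ ν : S, coeff ν.1 (g ν) = 1 ∧ ∀ μ, coeff μ (g ν) ≠ 0 → μ = ν.1 ∨ wt w ν.1 < wt w μ) :
    LinearIndependent ℂ g := by
  classical
  rw [Fintype.linearIndependent_iff]
  intro c hc
  by_contra h
  push Not at h
  obtain ⟨ν, hν, hmin⟩ := Finset.exists_min_image (Finset.univ.filter fun ν => c ν ≠ 0)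
    (fun ν => wt w ν.1) (by obtain ⟨ν, hν⟩ := h; exact ⟨ν, by simpa using hν⟩)
  have h1 := congrArg (coeff ν.1) hc
  rw [coeff_sum, Finset.sum_eq_single ν] at h1
  · simp [(hg ν).1] at h1 hν
    exact hν h1
  · intro μ _ hμ
    rw [coeff_smul, smul_eq_mul]
    by_contra h2
    rcases (hg μ).2 ν.1 (right_ne_zero_of_mul h2) with h3 | h3
    · exact hμ (Subtype.ext h3.symm)
    · have := hmin μ (by simpa using left_ne_zero_of_mul h2)
      omega
  · simp

lemma card_ini_le (w : Fin 2 → ℤ) (V : Submodule ℂ R) [FiniteDimensional ℂ V] (S : Finset E)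
    (hS : ∀ ν ∈ S, IsIni w V ν) : S.card ≤ finrank ℂ V := by
  choose g hg1 hg2 using fun ν : S => hS ν.1 ν.2
  have h := ini_indep w S g hg2
  have h1 : LinearIndependent ℂ (fun ν : S => (⟨g ν, hg1 ν⟩ : V)) :=
    LinearIndependent.of_comp V.subtype h
  simpa using h1.fintype_card_le_finrank

/-- degeneration to the initial monomials -/
lemma formA (w : Fin 2 → ℤ) (D : Finset E) (hw : Set.InjOn (wt w) D) (V : Submodule ℂ R)
    (hV : V ≤ sp D) : ∃ S : Finset E, S ⊆ D ∧ (∀ ν ∈ S, IsIni w V ν) ∧ ∀ I : Submodule ℂ R,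
      ∀ᶠ t in cofinite, finrank ℂ ↥(V ⊓ I.comap (tw w t).toLinearMap) ≤
        finrank ℂ ↥(sp S ⊓ I) := by
  classical
  have : FiniteDimensional ℂ V := Submodule.finiteDimensional_of_le hV
  let S := D.filter (IsIni w V)
  have hS : ∀ ν ∈ S, IsIni w V ν := fun ν hν => (Finset.mem_filter.1 hν).2
  refine ⟨S, Finset.filter_subset _ _, hS, fun I => ?_⟩
  choose g hg1 hg2 using fun ν : S => hS ν.1 ν.2
  refine core S w g hg2 V ?_ I
  have h1 : finrank ℂ V ≤ S.card := by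
    have := finrank_le_coeffs V ⊥ LinearMap.id S (fun f hf h0 => by
      rw [Submodule.mem_bot]
      by_contra h
      obtain ⟨ν, hν, hmin⟩ := Finset.exists_min_image f.support (wt w)
        (by simpa [Finset.nonempty_iff_ne_empty] using h)
      have hν' : coeff ν f ≠ 0 := mem_support_iff.1 hν
      refine hν' (h0 ν (Finset.mem_filter.2 ⟨mem_sp.1 (hV hf) ν hν', (coeff ν f)⁻¹ • f,
        V.smul_mem _ hf, by simp [hν'], fun μ hμ => ?_⟩))
      have hμ' : coeff μ f ≠ 0 := by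
        intro h; simp [h] at hμ
      rcases (hmin μ (mem_support_iff.2 hμ')).lt_or_eq with h1 | h1
      · exact Or.inr h1
      · exact Or.inl (hw (mem_sp.1 (hV hf) μ hμ') (mem_sp.1 (hV hf) ν hν') h1.symm))
    rwa [inf_bot_eq, finrank_bot, zero_add] at this
  have h2 : Submodule.span ℂ (Set.range g) = V := by
    apply Submodule.eq_of_le_of_finrank_le
    · rw [Submodule.span_le]
      rintro _ ⟨ν, rfl⟩
      exact hg1 ν
    · rw [finrank_span_eq_card (ini_indep w S g hg2)]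
      simpa using h1
  intro f hf
  rw [← h2] at hf
  exact (Submodule.mem_span_range_iff_exists_fun ℂ).1 hf

end Pool.Agent.Lib.MP_d03834_ag
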