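import Pool.Agent.Lib.MP_d03834_ag.Degen

set_option autoImplicit false

open MvPolynomial Module Filter

namespace Pool.Agent.Lib.MP_d03834_ag

/-- affine functions of the exponent -/
def Aff (l : E → ℂ) : Prop := ∃ a b c : ℂ, ∀ ν, l ν = a + b * (ν 0 : ℂ) + c * (ν 1 : ℂ)

/-- products of at most `k` affine functions -/
inductive PF : ℕ → (E → ℂ) → Prop
  | one (k : ℕ) : PF k (fun _ => 1)
  | mul {k : ℕ} {q l : E → ℂ} : PF k q → Aff l → PF (k + 1) (fun ν => l ν * q ν)

lemma PF.mono {k k' : ℕ} {q : E → ℂ} (h : PF k q) (hk : k ≤ k') : PF k' q := by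
  induction h generalizing k' with
  | one k => exact PF.one _
  | mul h1 h2 ih =>
    obtain ⟨j, rfl⟩ : ∃ j, k' = j + 1 := ⟨k' - 1, by omega⟩
    exact PF.mul (ih (by omega)) h2

lemma PF.mul' {k k' : ℕ} {q q' : E → ℂ} (h : PF k q) (h' : PF k' q') :
    PF (k + k') (fun ν => q ν * q' ν) := by
  induction h' with
  | one k' => simpa using h.mono (Nat.le_add_right _ _)
  | @mul j r l h1 h2 ih =>
    have := PF.mul ih h2
    have e : (fun ν => q ν * (l ν * r ν)) = fun ν => l ν * (q ν * r ν) := by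
      funext ν; ring
    rw [e]
    exact this

lemma PF.prod {κ : Type*} (s : Finset κ) (l : κ → E → ℂ) (h : ∀ i ∈ s, Aff (l i)) :
    PF s.card (fun ν => ∏ i ∈ s, l i ν) := by
  classical
  induction s using Finset.induction_on with
  | empty => simpa using PF.one 0
  | insert i s hi ih =>
    rw [Finset.card_insert_of_notMem hi]
    simp only [Finset.prod_insert hi]
    exact PF.mul (ih fun j hj => h j (Finset.mem_insert_of_mem hj)) (h i (Finset.mem_insert_self _ _))

/-- multiply the coefficient of `ν` by `q ν` -/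
noncomputable def act (q : E → ℂ) : R →ₗ[ℂ] R :=
  (basisMonomials (Fin 2) ℂ).constr ℂ fun ν => monomial ν (q ν)

lemma act_monomial (q : E → ℂ) (ν : E) (c : ℂ) : act q (monomial ν c) = monomial ν (q ν * c) := by
  have : monomial ν c = c • (basisMonomials (Fin 2) ℂ) ν := by simp [smul_monomial]
  rw [this, map_smul, act, Basis.constr_basis, smul_monomial, smul_eq_mul, mul_comm]

lemma coeff_act (q : E → ℂ) (f : R) (ν : E) : coeff ν (act q f) = q ν * coeff ν f := by
  classical
  induction f using MvPolynomial.induction_on' with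
  | monomial μ c =>
    rw [act_monomial, coeff_monomial, coeff_monomial]
    split_ifs with h
    · rw [h]
    · simp
  | add p q hp hq => simp [hp, hq, mul_add]

lemma act_one (f : R) : act (fun _ => 1) f = f := by
  ext ν; simp [coeff_act]

lemma act_mul (l q : E → ℂ) (f : R) : act (fun ν => l ν * q ν) f = act l (act q f) := by
  ext ν; simp [coeff_act, mul_assoc]

lemma act_coord (i : Fin 2) (f : R) : act (fun ν => (ν i : ℂ)) f = X i * pderiv i f := by
  induction f using MvPolynomial.induction_on' with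
  | monomial μ c =>
    rw [act_monomial, X_mul_pderiv_monomial, smul_monomial]
    simp
  | add p q hp hq => simp [hp, hq, mul_add]

lemma pderiv_tr (p : Pt) (i : Fin 2) (f : R) : pderiv i (tr p f) = tr p (pderiv i f) := by
  classical
  induction f using MvPolynomial.induction_on with
  | C a => simp
  | add p q hp hq => simp [hp, hq]
  | mul_X q j hq =>
    simp only [map_mul, tr_X, Derivation.leibniz, smul_eq_mul, map_add, hq, pderiv_C, add_zero,
      pderiv_X, Pi.single_apply]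
    split_ifs <;> simp

lemma pderiv_mem_fat {p : Pt} {a : ℕ} {f : R} (h : f ∈ fat p (a + 1)) (i : Fin 2) :
    pderiv i f ∈ fat p a := by
  rw [mem_fat] at h ⊢
  intro β hβ
  rw [← pderiv_tr, coeff_pderiv, h, zero_mul]
  fin_cases i <;> simp <;> omega

lemma mem_fat_one {p : Pt} {f : R} : f ∈ fat p 1 ↔ eval p f = 0 := by
  rw [mem_fat_def, pow_one, RingHom.mem_ker]

lemma mem_fat_succ {p : Pt} {a : ℕ} {f : R} (h0 : eval p f = 0)
    (h : ∀ i, pderiv i f ∈ fat p a) : f ∈ fat p (a + 1) := by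
  have h1 := mem_fat.1 (mem_fat_one.2 h0)
  simp only [mem_fat] at h ⊢
  intro β hβ
  by_cases hb : β 0 + β 1 < 1
  · exact h1 β hb
  · obtain ⟨i, hi⟩ : ∃ i, β i ≠ 0 := by
      by_contra hc
      push Not at hc
      simp [hc] at hb
    have h2 := h i (β - Finsupp.single i 1) (by
      fin_cases i <;> simp at hi ⊢ <;> omega)
    have h3 : β - Finsupp.single i 1 + Finsupp.single i 1 = β := by
      apply E_ext <;> fin_cases i <;> simp at hi ⊢ <;> omega
    rw [← pderiv_tr, coeff_pderiv, h3, mul_eq_zero] at h2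
    exact h2.resolve_right (Nat.cast_add_one_ne_zero _)

lemma act_aff_mem_fat {p : Pt} {a : ℕ} {f : R} (h : f ∈ fat p (a + 1)) {l : E → ℂ}
    (hl : Aff l) : act l f ∈ fat p a := by
  obtain ⟨x, y, z, hl⟩ := hl
  have : act l f = x • f + y • (X 0 * pderiv 0 f) + z • (X 1 * pderiv 1 f) := by
    rw [← act_coord, ← act_coord]
    ext ν
    simp [coeff_act, hl]
    ring
  rw [this]
  exact add_mem (add_mem (Submodule.smul_mem _ _ (fat_anti p (Nat.le_succ a) h))
    (Submodule.smul_mem _ _ (fat_mul _ (pderiv_mem_fat h 0))))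
    (Submodule.smul_mem _ _ (fat_mul _ (pderiv_mem_fat h 1)))

lemma act_mem_fat {p : Pt} {k : ℕ} {q : E → ℂ} (hq : PF k q) {a : ℕ} {f : R}
    (h : f ∈ fat p (a + k)) : act q f ∈ fat p a := by
  induction hq generalizing a with
  | one k => rw [act_one]; exact fat_anti p (Nat.le_add_right _ _) h
  | mul h1 h2 ih =>
    rw [act_mul]
    exact act_aff_mem_fat (ih (by rwa [add_assoc, add_comm 1])) h2

lemma euler_of_mem {p : Pt} {k a : ℕ} {q : E → ℂ} (hq : PF k q) (hk : k < a) {f : R}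
    (h : f ∈ fat p a) : eval p (act q f) = 0 :=
  mem_fat_one.1 (act_mem_fat hq (fat_anti p (by omega) h))

lemma cancel_X {p : Pt} {i : Fin 2} (hp : p i ≠ 0) {a : ℕ} {g : R} (h : X i * g ∈ fat p a) :
    g ∈ fat p a := by
  induction a with
  | zero => simp [fat_zero]
  | succ a ih =>
    have h1 := ih (fat_anti p (Nat.le_succ a) h)
    have h2 : (X i - C (p i)) * g ∈ fat p (a + 1) := by
      rw [mem_fat_def, pow_succ']
      exact Ideal.mul_mem_mul (by simp [RingHom.mem_ker]) h1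
    have h3 : g = (p i)⁻¹ • (X i * g - (X i - C (p i)) * g) := by
      have : X i * g - (X i - C (p i)) * g = p i • g := by
        rw [smul_eq_C_mul]; ring
      rw [this, smul_smul, inv_mul_cancel₀ hp, one_smul]
    rw [h3]
    exact Submodule.smul_mem _ _ (sub_mem h h2)

lemma mem_of_euler {p : Pt} (hp : ∀ i, p i ≠ 0) {a : ℕ} {f : R}
    (h : ∀ k q, PF k q → k < a → eval p (act q f) = 0) : f ∈ fat p a := by
  induction a generalizing f with
  | zero => simp [fat_zero]
  | succ a ih =>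
    refine mem_fat_succ (by simpa [act_one] using h 0 _ (PF.one 0) (by omega)) fun i => ?_
    refine cancel_X (hp i) (ih fun k q hq hk => ?_)
    have hl : Aff (fun ν => (ν i : ℂ)) := by
      fin_cases i
      · exact ⟨0, 1, 0, by simp⟩
      · exact ⟨0, 0, 1, by simp⟩
    rw [← act_coord, ← act_mul]
    simpa [mul_comm] using h (k + 1) _ (PF.mul hq hl) (by omega)

lemma eval_act (p : Pt) (q : E → ℂ) {f : R} {D : Finset E} (hf : f ∈ sp D) :
    eval p (act q f) = ∑ ν ∈ D, coeff ν f * (q ν * mono p ν) := by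
  conv_lhs => rw [f.as_sum]
  simp only [map_sum, act_monomial, eval_monomial']
  rw [← Finset.sum_subset (support_subset_of_mem_sp hf)]
  · exact Finset.sum_congr rfl fun ν _ => by ring
  · intro ν _ hν
    simp [notMem_support_iff.1 hν]

/-- change of exponents -/
noncomputable def expMap (φ : E → E) : R →ₗ[ℂ] R :=
  (basisMonomials (Fin 2) ℂ).constr ℂ fun ν => monomial (φ ν) 1

lemma expMap_monomial (φ : E → E) (ν : E) (c : ℂ) :
    expMap φ (monomial ν c) = monomial (φ ν) c := by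
  have : monomial ν c = c • (basisMonomials (Fin 2) ℂ) ν := by simp [smul_monomial]
  rw [this, map_smul, expMap, Basis.constr_basis, smul_monomial, smul_eq_mul, mul_one]

lemma expMap_eq (φ : E → E) {f : R} {D : Finset E} (hf : f ∈ sp D) :
    expMap φ f = ∑ ν ∈ D, monomial (φ ν) (coeff ν f) := by
  conv_lhs => rw [f.as_sum]
  simp only [map_sum, expMap_monomial]
  refine Finset.sum_subset (support_subset_of_mem_sp hf) fun ν _ hν => ?_
  simp [notMem_support_iff.1 hν]

/-- some configuration has at most `k` sections -/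
def G {ι : Type*} (V : Submodule ℂ R) (a : ι → ℕ) (k : ℕ) : Prop :=
  ∃ P : ι → Pt, finrank ℂ ↥(V ⊓ II P a) ≤ k

lemma expo (D D' : Finset E) (a00 a01 a10 a11 b0 b1 : ℤ) (hdet : a00 * a11 - a01 * a10 ≠ 0)
    (h : ∀ ν ∈ D, ∃ μ ∈ D', (μ 0 : ℤ) = a00 * ν 0 + a01 * ν 1 + b0 ∧
      (μ 1 : ℤ) = a10 * ν 0 + a11 * ν 1 + b1)
    {ι : Type*} [Fintype ι] {a : ι → ℕ} {k : ℕ} (hG : G (sp D') a k) : G (sp D) a k := by
  classical
  obtain ⟨P0, hP0⟩ := hG
  obtain ⟨P, hP, hP1⟩ := exists_torus (sp D') a P0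
  choose! φ hφ1 hφ2 hφ3 using h
  have hinj : ∀ ν ∈ D, ∀ μ ∈ D, φ ν = φ μ → ν = μ := by
    intro ν hν μ hμ h
    have h1 := hφ2 ν hν
    have h2 := hφ3 ν hν
    rw [h, hφ2 μ hμ] at h1
    rw [h, hφ3 μ hμ] at h2
    have e0 : (a00 * a11 - a01 * a10) * ((ν 0 : ℤ) - μ 0) = 0 := by
      linear_combination (-a11) * h1 + a01 * h2
    have e1 : (a00 * a11 - a01 * a10) * ((ν 1 : ℤ) - μ 1) = 0 := by
      linear_combination a10 * h1 - a00 * h2
    have := (mul_eq_zero.1 e0).resolve_left hdet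
    have := (mul_eq_zero.1 e1).resolve_left hdet
    exact E_ext (by omega) (by omega)
  have hPF : ∀ k q, PF k q → ∃ q', PF k q' ∧ ∀ ν ∈ D, q (φ ν) = q' ν := by
    intro k q hq
    induction hq with
    | one k => exact ⟨_, PF.one k, fun _ _ => rfl⟩
    | @mul j r l h1 h2 ih =>
      obtain ⟨q', hq', he⟩ := ih
      obtain ⟨x, y, z, hl⟩ := h2
      refine ⟨_, PF.mul hq' (l := fun ν => (x + y * b0 + z * b1) + (y * a00 + z * a10) * (ν 0 : ℂ)
        + (y * a01 + z * a11) * (ν 1 : ℂ)) ⟨_, _, _, fun _ => rfl⟩, fun ν hν => ?_⟩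
      have e0 : ((φ ν 0 : ℕ) : ℂ) = a00 * ν 0 + a01 * ν 1 + b0 := by exact_mod_cast hφ2 ν hν
      have e1 : ((φ ν 1 : ℕ) : ℂ) = a10 * ν 0 + a11 * ν 1 + b1 := by exact_mod_cast hφ3 ν hν
      simp only [hl, he ν hν, e0, e1]
      ring
  let Q : ι → Pt := fun i => ![P i 0 ^ a00 * P i 1 ^ a10, P i 0 ^ a01 * P i 1 ^ a11]
  have hmono : ∀ i, ∀ ν ∈ D, mono (P i) (φ ν) = (P i 0 ^ b0 * P i 1 ^ b1) * mono (Q i) ν := by
    intro i ν hν
    simp only [mono, Q, Matrix.cons_val_zero, Matrix.cons_val_one, mul_pow]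
    rw [← zpow_natCast, ← zpow_natCast (P i 1), hφ2 ν hν, hφ3 ν hν]
    simp only [zpow_add₀ (hP i 0), zpow_add₀ (hP i 1), zpow_mul, zpow_natCast]
    ring
  refine ⟨Q, le_trans ?_ (hP1.trans hP0)⟩
  refine finrank_le_of_inj _ _ (expMap φ) (fun f hf h0 => ?_) (fun f hf => ⟨?_, ?_⟩)
  · ext ν
    by_contra hν
    have hν' : coeff ν f ≠ 0 := by simpa using hν
    have hD := mem_sp.1 hf.1 ν hν'
    have := congrArg (coeff (φ ν)) h0
    rw [expMap_eq φ hf.1, coeff_sum, Finset.sum_eq_single ν] at this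
    · simp [hν'] at this
    · intro μ hμ hne
      rw [coeff_monomial, if_neg (fun h => hne (hinj μ hμ ν hD h))]
    · intro h; exact absurd hD h
  · rw [expMap_eq φ hf.1]
    exact Submodule.sum_mem _ fun ν hν => monomial_mem_sp (hφ1 ν hν) _
  · refine mem_II.2 fun i => mem_of_euler (hP i) fun k q hq hk => ?_
    obtain ⟨q', hq', he⟩ := hPF k q hq
    have h1 := euler_of_mem hq' hk (mem_II.1 hf.2 i)
    rw [eval_act _ _ hf.1] at h1
    rw [expMap_eq φ hf.1]
    simp only [map_sum, act_monomial, eval_monomial']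
    rw [← mul_zero (P i 0 ^ b0 * P i 1 ^ b1), ← h1, Finset.mul_sum]
    refine Finset.sum_congr rfl fun ν hν => ?_
    rw [hmono i ν hν, he ν hν]
    ring

end Pool.Agent.Lib.MP_d03834_ag
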