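import Pool.Agent.Lib.MP_d03834_ag.Chain
import Pool.Agent.Lib.MP_d03834_ag.H19Final

set_option autoImplicit false

open MvPolynomial Module Filter

namespace Pool.Agent.Lib.MP_d03834_ag

lemma sp_tri_eq (N : ℕ) : H19.sp (H19.tri N) = sp (tri N) := by
  have : H19.tri N = tri N := by
    ext ν
    rw [H19.mem_tri, mem_tri]
  rw [this]
  rfl

lemma pid_eq (p : Pt) : H19.pid p = RingHom.ker (eval p : R →+* ℂ) := by
  ext f
  rw [H19.mem_pid, RingHom.mem_ker]

lemma van_eq {ι : Type*} (m : ℕ) (P : ι → Pt) : H19.van m (Set.range P) = II P fun _ => m := by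
  ext f
  simp only [H19.mem_van, Set.forall_mem_range, mem_II, mem_fat_def, pid_eq]

lemma tn_eq (c : ℕ) : H19.tn c = T c := choose_eq_T c

lemma finrank_lower (W : Submodule ℂ R) [FiniteDimensional ℂ W] {n : ℕ} (P : Fin n → Pt) (m : ℕ) :
    finrank ℂ W ≤ finrank ℂ ↥(W ⊓ II P fun _ => m) + n * T m := by
  have h := finrank_II_le W P (a := fun _ => m) (b := fun _ => 0) fun _ => Nat.zero_le _
  have e : II P (fun _ => 0) = ⊤ := by simp [II, fat_zero]
  rw [e, inf_top_eq] at h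
  simpa [T] using h

lemma win_affine {m n B : ℕ} (h : Win m n B) : ∀ᶠ P in gen (Fin n), ∀ c : ℕ,
    (T c + B ≤ n * T m ∨ n * T m + B ≤ T c) →
      finrank ℂ ↥(sp (tri c) ⊓ II P fun _ => m) = T c - n * T m := by
  obtain ⟨⟨P1, h1⟩, ⟨P2, h2⟩⟩ := h
  filter_upwards [gen_II (sp (DN (n * T m - B))) (fun _ => m) P1,
    gen_II (sp (DN (n * T m + B))) (fun _ => m) P2] with P g1 g2 c hc
  replace g1 := g1.trans h1
  replace g2 := g2.trans h2
  have l := finrank_lower (sp (tri c)) P m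
  rw [finrank_sp, card_tri] at l
  rw [← DN_T] at l ⊢
  rcases hc with hc | hc
  · have : finrank ℂ ↥(sp (DN (T c)) ⊓ II P fun _ => m) ≤
        finrank ℂ ↥(sp (DN (n * T m - B)) ⊓ II P fun _ => m) :=
      Submodule.finrank_mono (inf_le_inf_right _ (sp_mono (DN_mono (by omega))))
    omega
  · obtain ⟨b, hb⟩ := Nat.exists_eq_add_of_le hc
    have := finrank_DN_add (n * T m + B) b (II P fun _ => m)
    rw [← hb] at this
    omega

lemma win_final {m n B : ℕ} (h : Win m n B) : H19.Gen n fun P => ∀ d : ℕ,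
    (T (d + 1) + B ≤ n * T m ∨ n * T m + B ≤ T (d + 1)) →
      finrank ℂ ↥(homogeneousSubmodule (Fin 3) ℂ d ⊓
        Submodule.restrictScalars ℂ (⨅ i : Fin n, H19.hid (P i) ^ m)) =
      Nat.choose (d + 2) 2 - n * Nat.choose (m + 1) 2 := by
  obtain ⟨F, hF, h1⟩ := eventually_gen.1 (win_affine h)
  refine ⟨F, hF, fun P hP d hd => ?_⟩
  rw [H19.finrank_hom, sp_tri_eq, van_eq, h1 P hP _ hd, choose_eq_T, choose_eq_T]

theorem window : ∃ C : ℝ, ∀ n : ℕ, 0 < n → ∀ m : ℕ, 0 < m → H19.Gen n fun P => ∀ d : ℕ,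
    C * (m : ℝ) ^ 2 / √n ≤ |(Nat.choose (d + 2) 2 : ℝ) - n * Nat.choose (m + 1) 2| →
      finrank ℂ ↥(homogeneousSubmodule (Fin 3) ℂ d ⊓
        Submodule.restrictScalars ℂ (⨅ i : Fin n, H19.hid (P i) ^ m)) =
      Nat.choose (d + 2) 2 - n * Nat.choose (m + 1) 2 := by
  refine ⟨8100000000 ^ 3, fun n hn m hm => ?_⟩
  by_cases h1 : 24 * m ≤ n ∧ 400 ≤ n
  · exact (H19.final n m hm h1.1 h1.2).mono fun P h d _ => h d
  have hn' : (1 : ℝ) ≤ n := by exact_mod_cast hn
  have hs : 0 < √(n : ℝ) := Real.sqrt_pos.2 (by linarith)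
  obtain ⟨B, hB, hW⟩ : ∃ B : ℕ, (B : ℝ) ≤ 8100000000 ^ 3 * (m : ℝ) ^ 2 / √n ∧ Win m n B := by
    by_cases h2 : 8100000000 ≤ n
    · obtain ⟨B, hB, hW⟩ := window_large m n h2 (by
        have : n < 24 * m := by omega
        nlinarith)
      refine ⟨B, hB.trans ?_, hW⟩
      gcongr
      norm_num
    · refine ⟨_, ?_, window_small m n⟩
      have h3 : (n : ℝ) ≤ 8100000000 := by exact_mod_cast (not_le.1 h2).le
      have h4 : √(n : ℝ) ≤ 8100000000 := Real.sqrt_le_iff.2 ⟨by norm_num, by linarith⟩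
      have h5 := two_T_le (m := m) hm
      rw [le_div_iff₀ hs]
      push_cast
      calc (n : ℝ) ^ 2 * T m * √n ≤ 8100000000 ^ 2 * (m : ℝ) ^ 2 * 8100000000 := by
            gcongr; linarith
        _ = _ := by ring
  refine (win_final hW).mono fun P h d hd => h d ?_
  rw [choose_eq_T, choose_eq_T] at hd
  rcases le_abs.1 (hB.trans hd) with h2 | h2
  · right
    have : ((n * T m + B : ℕ) : ℝ) ≤ T (d + 1) := by push_cast; linarith
    exact_mod_cast this
  · left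
    have : ((T (d + 1) + B : ℕ) : ℝ) ≤ (n * T m : ℕ) := by push_cast; linarith
    exact_mod_cast this

end Pool.Agent.Lib.MP_d03834_ag
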