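import Mathlib

set_option autoImplicit false

namespace Pool.Agent.Lib.MP_d03834_ag.H19

open MvPolynomial Module

noncomputable section

abbrev R := MvPolynomial (Fin 2) ℂ
abbrev Pt := Fin 2 → ℂ
abbrev Mon := Fin 2 →₀ ℕ

/-- the ideal of a point -/
def pid (p : Pt) : Ideal R := Ideal.span (Set.range fun a => X a - C (p a))

lemma X_sub_mem (p : Pt) (a : Fin 2) : (X a - C (p a) : R) ∈ pid p :=
  Ideal.subset_span ⟨a, rfl⟩

lemma sub_C_eval_mem (p : Pt) (G : R) : G - C (eval p G) ∈ pid p := by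
  induction G using MvPolynomial.induction_on with
  | C a => simp
  | add f g hf hg =>
    have := (pid p).add_mem hf hg
    have e : f + g - C (eval p (f + g)) = f - C (eval p f) + (g - C (eval p g)) := by
      rw [map_add, map_add]; ring
    rw [e]; exact this
  | mul_X f a hf =>
    have h1 := X_sub_mem p a
    have := (pid p).add_mem ((pid p).mul_mem_right (X a) hf)
      ((pid p).mul_mem_left (C (eval p f)) h1)
    have e : f * X a - C (eval p (f * X a)) =
        (f - C (eval p f)) * X a + C (eval p f) * (X a - C (p a)) := by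
      rw [map_mul, map_mul, eval_X]; ring
    rw [e]; exact this

lemma mem_pid (p : Pt) (G : R) : G ∈ pid p ↔ eval p G = 0 := by
  constructor
  · intro h
    have : pid p ≤ RingHom.ker (eval p : R →+* ℂ) := by
      rw [pid, Ideal.span_le]
      rintro _ ⟨a, rfl⟩
      simp
    exact this h
  · intro h
    have := sub_C_eval_mem p G
    rw [h] at this
    simpa using this

lemma transport (φ : R →ₐ[ℂ] R) (p q : Pt) (h : ∀ a, eval p (φ (X a)) = q a) (m : ℕ) {F : R}
    (hF : F ∈ pid q ^ m) : φ F ∈ pid p ^ m := by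
  have h1 : (pid q).map φ ≤ pid p := by
    rw [pid, Ideal.map_span, Ideal.span_le]
    rintro _ ⟨_, ⟨a, rfl⟩, rfl⟩
    rw [SetLike.mem_coe, mem_pid]
    simp [h a]
  have h2 : (pid q ^ m).map φ ≤ pid p ^ m := by
    rw [Ideal.map_pow]; exact Ideal.pow_right_mono h1 m
  exact h2 (Ideal.mem_map_of_mem φ hF)

/-- translation -/
def tr (p : Pt) : R →ₐ[ℂ] R := aeval fun a => X a + C (p a)

lemma tr_X (p : Pt) (a : Fin 2) : tr p (X a) = X a + C (p a) := by simp [tr]

lemma tr_neg_tr (p : Pt) (F : R) : tr (-p) (tr p F) = F := by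
  have : (tr (-p)).comp (tr p) = AlgHom.id ℂ R := by
    ext1 a
    simp [tr]
  exact AlgHom.congr_fun this F

lemma pid_zero : pid 0 = idealOfVars (Fin 2) ℂ := by
  simp [pid, idealOfVars]

lemma degree_eq (μ : Mon) : Finsupp.degree μ = μ 0 + μ 1 := by
  rw [Finsupp.degree_eq_sum, Fin.sum_univ_two]

lemma mem_pow_iff (p : Pt) (m : ℕ) (F : R) :
    F ∈ pid p ^ m ↔ ∀ μ : Mon, μ 0 + μ 1 < m → coeff μ (tr p F) = 0 := by
  have : F ∈ pid p ^ m ↔ tr p F ∈ pid 0 ^ m := by
    constructor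
    · intro h
      exact transport (tr p) 0 p (by intro a; simp [tr_X]) m h
    · intro h
      have := transport (tr (-p)) p 0 (by intro a; simp [tr_X]) m h
      rwa [tr_neg_tr] at this
  rw [this, pid_zero, mem_pow_idealOfVars_iff']
  simp only [degree_eq]

/-- exponent vector -/
def mk (i j : ℕ) : Mon := Finsupp.single 0 i + Finsupp.single 1 j

@[simp] lemma mk_zero (i j : ℕ) : mk i j 0 = i := by simp [mk]
@[simp] lemma mk_one (i j : ℕ) : mk i j 1 = j := by simp [mk]

lemma mon_ext {μ ν : Mon} (h0 : μ 0 = ν 0) (h1 : μ 1 = ν 1) : μ = ν := by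
  ext a; fin_cases a
  · exact h0
  · exact h1

lemma mk_eta (μ : Mon) : mk (μ 0) (μ 1) = μ := mon_ext (by simp) (by simp)

/-- the triangle with `N` rows -/
def tri (N : ℕ) : Finset Mon :=
  (Finset.range N).biUnion fun j => (Finset.range (N - j)).image fun i => mk i j

lemma mem_tri (N : ℕ) (μ : Mon) : μ ∈ tri N ↔ μ 0 + μ 1 < N := by
  simp only [tri, Finset.mem_biUnion, Finset.mem_range, Finset.mem_image]
  constructor
  · rintro ⟨j, hj, i, hi, rfl⟩
    simp; omega
  · intro h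
    exact ⟨μ 1, by omega, μ 0, by omega, mk_eta μ⟩

/-- size of a row -/
def rowc (D : Finset Mon) (j : ℕ) : ℕ := (D.filter fun μ => μ 1 = j).card

lemma rowc_tri (N j : ℕ) : rowc (tri N) j = N - j := by
  have : ((tri N).filter fun μ => μ 1 = j) = (Finset.range (N - j)).image fun i => mk i j := by
    ext μ
    simp only [Finset.mem_filter, mem_tri, Finset.mem_image, Finset.mem_range]
    constructor
    · rintro ⟨h, rfl⟩
      exact ⟨μ 0, by omega, mk_eta μ⟩
    · rintro ⟨i, hi, rfl⟩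
      simp; omega
  rw [rowc, this, Finset.card_image_of_injective, Finset.card_range]
  intro a b h
  simpa using congrArg (fun μ : Mon => μ 0) h

lemma card_eq_sum_rowc (D : Finset Mon) (K : ℕ) (h : ∀ μ ∈ D, μ 1 < K) :
    D.card = ∑ j ∈ Finset.range K, rowc D j :=
  Finset.card_eq_sum_card_fiberwise (f := fun μ : Mon => μ 1) (by
    intro μ hμ; simpa using h μ hμ)

/-- triangular numbers -/
def tn (N : ℕ) : ℕ := (N + 1).choose 2

lemma tn_succ (N : ℕ) : tn (N + 1) = tn N + (N + 1) := by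
  simp only [tn]
  rw [Nat.choose_succ_succ' (N + 1) 1, Nat.choose_one_right]; ring

lemma tn_zero : tn 0 = 0 := by simp [tn]

lemma two_tn (N : ℕ) : 2 * tn N = N * (N + 1) := by
  induction N with
  | zero => simp [tn]
  | succ N ih => rw [tn_succ]; nlinarith

lemma tn_mono {a b : ℕ} (h : a ≤ b) : tn a ≤ tn b := by
  have := two_tn a; have := two_tn b; nlinarith

lemma sum_range_succ_eq_tn (N : ℕ) : ∑ j ∈ Finset.range N, (j + 1) = tn N := by
  induction N with
  | zero => simp [tn]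
  | succ N ih => rw [Finset.sum_range_succ, ih, tn_succ]

lemma sum_range_sub_eq_tn (N : ℕ) : ∑ j ∈ Finset.range N, (N - j) = tn N := by
  rw [← sum_range_succ_eq_tn, ← Finset.sum_range_reflect]
  apply Finset.sum_congr rfl
  intro j hj
  have := Finset.mem_range.mp hj
  omega

lemma card_tri (N : ℕ) : (tri N).card = tn N := by
  rw [card_eq_sum_rowc (tri N) N, ← sum_range_sub_eq_tn]
  · simp [rowc_tri]
  · intro μ hμ; rw [mem_tri] at hμ; omega

/-- polynomials supported in a diagram -/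
def sp (D : Finset Mon) : Submodule ℂ R := restrictSupport ℂ (D : Set Mon)

lemma mem_sp (D : Finset Mon) (F : R) : F ∈ sp D ↔ F.support ⊆ D := by
  rw [sp, mem_restrictSupport_iff, Finset.coe_subset]

instance (D : Finset Mon) : FiniteDimensional ℂ (sp D) :=
  Module.Finite.of_basis (basisRestrictSupport ℂ (D : Set Mon))

lemma finrank_sp (D : Finset Mon) : finrank ℂ (sp D) = D.card := by
  have := finrank_eq_card_basis (basisRestrictSupport ℂ (D : Set Mon))
  rw [sp, this]
  simp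

lemma sp_mono {D D' : Finset Mon} (h : D ⊆ D') : sp D ≤ sp D' := by
  intro F hF; rw [mem_sp] at *; exact hF.trans h

/-- vanishing to order `m` on a set of points -/
def van (m : ℕ) (S : Set Pt) : Submodule ℂ R where
  carrier := {F | ∀ p ∈ S, F ∈ pid p ^ m}
  add_mem' ha hb p hp := Ideal.add_mem _ (ha p hp) (hb p hp)
  zero_mem' p _ := Ideal.zero_mem _
  smul_mem' c F hF p hp := by
    rw [smul_eq_C_mul]; exact Ideal.mul_mem_left _ _ (hF p hp)

lemma mem_van (m : ℕ) (S : Set Pt) (F : R) : F ∈ van m S ↔ ∀ p ∈ S, F ∈ pid p ^ m := Iff.rfl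

lemma van_anti (m : ℕ) {S S' : Set Pt} (h : S ⊆ S') : van m S' ≤ van m S :=
  fun _ hF p hp => hF p (h hp)

lemma van_union (m : ℕ) (S S' : Set Pt) : van m (S ∪ S') = van m S ⊓ van m S' := by
  ext F
  simp only [mem_van, Submodule.mem_inf, Set.mem_union]
  exact ⟨fun h => ⟨fun p hp => h p (Or.inl hp), fun p hp => h p (Or.inr hp)⟩,
    fun h p hp => hp.elim (h.1 p) (h.2 p)⟩

/-- jets -/
def jet (m : ℕ) {κ : Type} (P : κ → Pt) : R →ₗ[ℂ] (κ × tri m → ℂ) where
  toFun F := fun k => coeff k.2.1 (tr (P k.1) F)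
  map_add' F G := by ext k; simp
  map_smul' c F := by ext k; simp

lemma jet_apply (m : ℕ) {κ : Type} (P : κ → Pt) (F : R) (k : κ × tri m) :
    jet m P F k = coeff k.2.1 (tr (P k.1) F) := rfl

lemma jet_eq_zero (m : ℕ) {κ : Type} (P : κ → Pt) (F : R) :
    jet m P F = 0 ↔ F ∈ van m (Set.range P) := by
  constructor
  · rintro h _ ⟨i, rfl⟩
    rw [mem_pow_iff]
    intro μ hμ
    exact congrFun h (i, ⟨μ, (mem_tri m μ).mpr hμ⟩)
  · intro h
    ext k
    exact (mem_pow_iff _ _ _).mp (h _ ⟨k.1, rfl⟩) k.2.1 ((mem_tri m _).mp k.2.2)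

/-- counting conditions -/
lemma finrank_lower (m n : ℕ) (P : Fin n → Pt) (U : Submodule ℂ R) [FiniteDimensional ℂ U] :
    finrank ℂ U ≤ finrank ℂ ↥(U ⊓ van m (Set.range P)) + n * tn m := by
  have h := LinearMap.finrank_range_add_finrank_ker ((jet m P).domRestrict U)
  have h1 : finrank ℂ (LinearMap.range ((jet m P).domRestrict U)) ≤ n * tn m := by
    refine (Submodule.finrank_le _).trans ?_
    simp [card_tri]
  have h2 : finrank ℂ (LinearMap.ker ((jet m P).domRestrict U)) =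
      finrank ℂ ↥(U ⊓ van m (Set.range P)) := by
    have e : Submodule.map U.subtype (LinearMap.ker ((jet m P).domRestrict U)) =
        U ⊓ van m (Set.range P) := by
      ext F
      simp only [Submodule.mem_map, LinearMap.mem_ker, LinearMap.domRestrict_apply,
        Submodule.subtype_apply, Submodule.mem_inf, jet_eq_zero]
      constructor
      · rintro ⟨G, hG, rfl⟩; exact ⟨G.2, hG⟩
      · rintro ⟨h1, h2⟩; exact ⟨⟨F, h1⟩, h2, rfl⟩
    rw [← Submodule.finrank_map_subtype_eq, e]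
  omega

/-- a family stays independent modulo the vanishing conditions -/
def Indep (m : ℕ) {ι : Type} [Fintype ι] (v : ι → R) (S : Set Pt) : Prop :=
  ∀ c : ι → ℂ, ∑ i, c i • v i ∈ van m S → ∀ i, c i = 0

lemma indep_iff (m : ℕ) {ι κ : Type} [Fintype ι] (v : ι → R) (P : κ → Pt) :
    Indep m v (Set.range P) ↔ LinearIndependent ℂ fun i => jet m P (v i) := by
  rw [Fintype.linearIndependent_iff]
  refine forall_congr' fun c => ?_
  rw [← jet_eq_zero, map_sum]
  simp only [map_smul]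

lemma Indep.finrank_le {m : ℕ} {ι : Type} [Fintype ι] {v : ι → R} {S : Set Pt}
    (h : Indep m v S) (U : Submodule ℂ R) [FiniteDimensional ℂ U] (hv : ∀ i, v i ∈ U) :
    finrank ℂ ↥(U ⊓ van m S) + Fintype.card ι ≤ finrank ℂ U := by
  have hli : LinearIndependent ℂ v := by
    rw [Fintype.linearIndependent_iff]
    intro c hc
    exact h c (by rw [hc]; exact Submodule.zero_mem _)
  set W := Submodule.span ℂ (Set.range v) with hW
  have hWU : W ≤ U := by
    rw [hW, Submodule.span_le]; rintro _ ⟨i, rfl⟩; exact hv i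
  have hdim : finrank ℂ W = Fintype.card ι := finrank_span_eq_card hli
  have : FiniteDimensional ℂ W := Submodule.finiteDimensional_of_le hWU
  have : FiniteDimensional ℂ ↥(U ⊓ van m S) := Submodule.finiteDimensional_of_le inf_le_left
  have hd : (U ⊓ van m S) ⊓ W = ⊥ := by
    rw [eq_bot_iff]
    rintro F ⟨⟨-, h1⟩, h2⟩
    obtain ⟨c, rfl⟩ := (Submodule.mem_span_range_iff_exists_fun ℂ).mp h2
    have := h c h1
    simp [this]
  have h3 := Submodule.finrank_sup_add_finrank_inf_eq (U ⊓ van m S) W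
  rw [hd, finrank_bot] at h3
  have h4 : finrank ℂ ↥((U ⊓ van m S) ⊔ W) ≤ finrank ℂ U :=
    Submodule.finrank_mono (sup_le inf_le_left hWU)
  omega

lemma exists_indep (m : ℕ) (S : Set Pt) (U : Submodule ℂ R) [FiniteDimensional ℂ U] :
    ∃ (s : ℕ) (v : Fin s → R), (∀ i, v i ∈ U) ∧ Indep m v S ∧
      finrank ℂ ↥(U ⊓ van m S) + s = finrank ℂ U := by
  obtain ⟨W', hW'⟩ := Submodule.exists_isCompl (U ⊓ van m S)
  set W := W' ⊓ U with hW
  have : FiniteDimensional ℂ W := Submodule.finiteDimensional_of_le inf_le_right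
  have : FiniteDimensional ℂ ↥(U ⊓ van m S) := Submodule.finiteDimensional_of_le inf_le_left
  have hd : (U ⊓ van m S) ⊓ W = ⊥ := by
    rw [hW, ← inf_assoc, hW'.inf_eq_bot, bot_inf_eq]
  have hs : (U ⊓ van m S) ⊔ W = U := by
    rw [hW, ← sup_inf_assoc_of_le _ (inf_le_left : U ⊓ van m S ≤ U), hW'.sup_eq_top, top_inf_eq]
  have h3 := Submodule.finrank_sup_add_finrank_inf_eq (U ⊓ van m S) W
  rw [hd, hs, finrank_bot] at h3
  let b := Module.finBasis ℂ W
  refine ⟨finrank ℂ W, fun i => (b i : R), fun i => (b i).2.2, ?_, by omega⟩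
  intro c hc
  have hmem : ∑ i, c i • (b i : R) ∈ W :=
    Submodule.sum_mem _ fun i _ => Submodule.smul_mem _ _ (b i).2
  have h0 : ∑ i, c i • (b i : R) = 0 := by
    have : ∑ i, c i • (b i : R) ∈ (U ⊓ van m S) ⊓ W := ⟨⟨hmem.2, hc⟩, hmem⟩
    rwa [hd, Submodule.mem_bot] at this
  have h1 : ∑ i, c i • b i = 0 := by
    apply Subtype.ext
    simpa using h0
  exact Fintype.linearIndependent_iff.mp b.linearIndependent c h1

/-- at most `n` points impose at least `c` conditions on `U` -/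
def Good (m : ℕ) (U : Submodule ℂ R) (n c : ℕ) : Prop :=
  ∃ S : Finset Pt, S.card ≤ n ∧ finrank ℂ ↥(U ⊓ van m (S : Set Pt)) + c ≤ finrank ℂ U

/-- generic property -/
def Gen (n : ℕ) (Q : (Fin n → Pt) → Prop) : Prop :=
  ∃ F : MvPolynomial (Fin n × Fin 2) ℂ, F ≠ 0 ∧
    ∀ P : Fin n → Pt, eval (fun ij : Fin n × Fin 2 => P ij.1 ij.2) F ≠ 0 → Q P

lemma Gen.mono {n : ℕ} {Q Q' : (Fin n → Pt) → Prop} (h : Gen n Q) (h' : ∀ P, Q P → Q' P) :
    Gen n Q' := by
  obtain ⟨F, hF, hQ⟩ := h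
  exact ⟨F, hF, fun P hP => h' P (hQ P hP)⟩

lemma Gen.and {n : ℕ} {Q Q' : (Fin n → Pt) → Prop} (h : Gen n Q) (h' : Gen n Q') :
    Gen n fun P => Q P ∧ Q' P := by
  obtain ⟨F, hF, hQ⟩ := h
  obtain ⟨F', hF', hQ'⟩ := h'
  refine ⟨F * F', mul_ne_zero hF hF', fun P hP => ?_⟩
  rw [map_mul] at hP
  exact ⟨hQ P (left_ne_zero_of_mul hP), hQ' P (right_ne_zero_of_mul hP)⟩

lemma Gen.exists {n : ℕ} {Q : (Fin n → Pt) → Prop} (h : Gen n Q) : ∃ P, Q P := by
  obtain ⟨F, hF, hQ⟩ := h
  by_contra hne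
  apply hF
  apply MvPolynomial.funext
  intro x
  by_contra h1
  exact hne ⟨fun i a => x (i, a), hQ _ (by simpa using h1)⟩

lemma generic_li {ι κ σ : Type} [Fintype ι] [Fintype κ] (A : κ → ι → MvPolynomial σ ℂ)
    (x0 : σ → ℂ) (h : LinearIndependent ℂ fun i k => eval x0 (A k i)) :
    ∃ Δ : MvPolynomial σ ℂ, Δ ≠ 0 ∧
      ∀ x, eval x Δ ≠ 0 → LinearIndependent ℂ fun i k => eval x (A k i) := by
  classical
  let B : (σ → ℂ) → Matrix κ ι ℂ := fun x => Matrix.of fun k i => eval x (A k i)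
  have key : ∀ x, (LinearIndependent ℂ fun i k => eval x (A k i)) ↔
      Function.Injective (B x).mulVec := by
    intro x
    rw [Matrix.mulVec_injective_iff]
    rfl
  have hinj : LinearMap.ker (Matrix.toLin' (B x0)) = ⊥ := by
    rw [LinearMap.ker_eq_bot]
    exact (key x0).mp h
  obtain ⟨g, hg⟩ := LinearMap.exists_leftInverse_of_injective _ hinj
  let L : Matrix ι κ ℂ := LinearMap.toMatrix' g
  have hL : L * B x0 = 1 := by
    have := congrArg LinearMap.toMatrix' hg
    rwa [LinearMap.toMatrix'_comp, LinearMap.toMatrix'_toLin', LinearMap.toMatrix'_id] at this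
  let L' : Matrix ι κ (MvPolynomial σ ℂ) := Matrix.of fun i k => C (L i k)
  let A' : Matrix κ ι (MvPolynomial σ ℂ) := Matrix.of A
  let N : Matrix ι ι (MvPolynomial σ ℂ) := L' * A'
  let Δ : MvPolynomial σ ℂ := N.det
  have hΔ : ∀ x, eval x Δ = (L * B x).det := by
    intro x
    rw [RingHom.map_det]
    congr 1
    ext i j
    have e : N i j = ∑ k, C (L i k) * A k j := Matrix.mul_apply
    rw [RingHom.mapMatrix_apply, Matrix.map_apply, e, Matrix.mul_apply, map_sum]
    simp [B]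
  refine ⟨Δ, ?_, fun x hx => ?_⟩
  · intro h0
    have := hΔ x0
    rw [h0, hL] at this
    simp at this
  · rw [key]
    rw [hΔ] at hx
    have h1 : Function.Injective (L * B x).mulVec :=
      Matrix.mulVec_injective_iff_isUnit.mpr ((Matrix.isUnit_iff_isUnit_det _).mpr (Ne.isUnit hx))
    intro u v huv
    apply h1
    rw [← Matrix.mulVec_mulVec, ← Matrix.mulVec_mulVec, huv]

lemma exists_poly (n : ℕ) (i : Fin n) (μ : Mon) (F : R) :
    ∃ A : MvPolynomial (Fin n × Fin 2) ℂ, ∀ P : Fin n → Pt,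
      eval (fun ij : Fin n × Fin 2 => P ij.1 ij.2) A = coeff μ (tr (P i) F) := by
  let τ : R →ₐ[ℂ] MvPolynomial (Fin 2) (MvPolynomial (Fin n × Fin 2) ℂ) :=
    aeval fun a => X a + C (X (i, a))
  refine ⟨coeff μ (τ F), fun P => ?_⟩
  rw [← coeff_map]
  congr 1
  have : (MvPolynomial.map (eval (fun ij : Fin n × Fin 2 => P ij.1 ij.2))).comp
      (τ : R →+* MvPolynomial (Fin 2) (MvPolynomial (Fin n × Fin 2) ℂ)) =
      (tr (P i) : R →+* R) := by
    apply MvPolynomial.ringHom_ext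
    · intro r
      simp [τ, tr, algebraMap_eq]
    · intro a
      simp [τ, tr]
  exact RingHom.congr_fun this F

lemma exists_fun_of_card_le {n : ℕ} (S : Finset Pt) (h : S.card ≤ n) :
    ∃ P : Fin n → Pt, (S : Set Pt) ⊆ Set.range P := by
  classical
  refine ⟨fun i => if hi : (i : ℕ) < S.card then (S.equivFin.symm ⟨i, hi⟩ : Pt) else 0, ?_⟩
  intro p hp
  refine ⟨⟨S.equivFin ⟨p, hp⟩, lt_of_lt_of_le (S.equivFin ⟨p, hp⟩).2 h⟩, ?_⟩
  simp

/-- semicontinuity -/
lemma Good.gen {m n c : ℕ} {U : Submodule ℂ R} [FiniteDimensional ℂ U] (h : Good m U n c) :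
    Gen n fun P => finrank ℂ ↥(U ⊓ van m (Set.range P)) + c ≤ finrank ℂ U := by
  obtain ⟨S, hS, hc⟩ := h
  obtain ⟨P0, hP0⟩ := exists_fun_of_card_le S hS
  obtain ⟨s, v, hv, hi, hs⟩ := exists_indep m (Set.range P0) U
  have : FiniteDimensional ℂ ↥(U ⊓ van m (S : Set Pt)) :=
    Submodule.finiteDimensional_of_le inf_le_left
  have h1 : finrank ℂ ↥(U ⊓ van m (Set.range P0)) ≤ finrank ℂ ↥(U ⊓ van m (S : Set Pt)) :=
    Submodule.finrank_mono (inf_le_inf_left _ (van_anti m hP0))
  choose A hA using exists_poly n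
  have hj : ∀ P : Fin n → Pt, (fun i => jet m P (v i)) = fun i (k : Fin n × tri m) =>
      eval (fun ij : Fin n × Fin 2 => P ij.1 ij.2) (A k.1 k.2.1 (v i)) := by
    intro P
    funext i k
    rw [hA, jet_apply]
  rw [indep_iff, hj] at hi
  obtain ⟨Δ, hΔ, hx⟩ := generic_li (fun (k : Fin n × tri m) i => A k.1 k.2.1 (v i)) _ hi
  refine ⟨Δ, hΔ, fun P hP => ?_⟩
  have h2 := hx _ hP
  rw [← hj, ← indep_iff] at h2
  have h3 := h2.finrank_le U hv
  rw [Fintype.card_fin] at h3
  omega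

end

end Pool.Agent.Lib.MP_d03834_ag.H19
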