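import Pool.Agent.Lib.MP_d03834_ag.H19Peel

set_option autoImplicit false

namespace Pool.Agent.Lib.MP_d03834_ag.H19

open MvPolynomial Module

noncomputable section

lemma strip (m s a b n : ℕ) (l : ℕ → ℕ) (h0 : ∀ j, s + m ≤ j → l j = 0)
    (h : ∀ i < m, l (s + i) ≤ a * (m - i) + b * (i + 1))
    (hE : Emp m (fun j => if j < s then l j else 0) n) : Emp m l (n + a + b) := by
  refine peel m b (n + a) (-1) (Or.inr rfl) l
    (fun j => if s ≤ j ∧ j < s + m then j - s + 1 else 0) ?_ ?_ ?_ ?_
  · intro j; split_ifs <;> omega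
  · intro j j' h1 h2; split_ifs at h1 h2 <;> omega
  · intro j j' h1 h2 h3
    have := h0 j'
    split_ifs at h1 ⊢ <;> omega
  refine peel m a n (-1) (Or.inr rfl) _
    (fun j => if s ≤ j ∧ j < s + m then s + m - j else 0) ?_ ?_ ?_ ?_
  · intro j; split_ifs <;> omega
  · intro j j' h1 h2; split_ifs at h1 h2 <;> omega
  · intro j j' h1 h2 h3
    have h4 := h0 j'
    have h5 : s ≤ j' ∧ j' < s + m := by split_ifs at h1 <;> omega
    have h6 := h (j' - s) (by omega)
    rw [show s + (j' - s) = j' by omega, show m - (j' - s) = s + m - j' by omega] at h6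
    simp only [if_pos h5]
    exact ⟨by omega, Or.inr (by omega)⟩
  refine hE.mono (fun j => ?_) le_rfl
  by_cases h5 : s ≤ j ∧ j < s + m
  · have h6 := h (j - s) (by omega)
    rw [show s + (j - s) = j by omega, show m - (j - s) = s + m - j by omega] at h6
    simp only [if_pos h5]
    omega
  · have := h0 j
    simp only [if_neg h5]
    split_ifs <;> omega

lemma emp_nine (m s : ℕ) (l : ℕ → ℕ) (h0 : ∀ j < s, l j = 0) (h : ∀ j, l j ≤ s + 3 * m - j) :
    Emp m l 9 := by
  refine strip m (s + 2 * m) 1 0 8 l (fun j hj => by have := h j; omega)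
    (fun i hi => by have := h (s + 2 * m + i); omega) ?_
  refine strip m (s + m) 2 1 5 _ (fun j hj => by rw [if_neg (by omega)])
    (fun i hi => by have := h (s + m + i); split_ifs <;> omega) ?_
  refine strip m s 3 2 0 _ (fun j hj => by rw [if_neg (by omega)])
    (fun i hi => by have := h (s + i); split_ifs <;> omega) ?_
  exact emp_zero m _ fun j => by have := h0 j; split_ifs <;> omega

/-- a sequence of reductions -/
def Chain (m : ℕ) (l l' : ℕ → ℕ) (t : ℕ) : Prop :=
  ∀ (z : ℕ → ℕ) (n : ℕ), Emp m (fun j => l' j - z j) n → Emp m (fun j => l j - z j) (n + t)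

/-- invariant of the greedy reduction -/
structure Inv (m N s : ℕ) (l : ℕ → ℕ) : Prop where
  zero : ∀ j < s, l j = 0
  pos : s < N → l s ≠ 0
  le : ∀ j, l j ≤ N - j
  top : ∀ j, s + m ≤ j → l j = N - j
  tip : ∀ j, N ≤ j + 2 * m → l j = N - j
  ord : ∀ j, s ≤ j → l j < l (j + 1) ∨ (m ≤ l j ∧ l j ≤ l (j + 1)) ∨
    (l j = N - j ∧ l (j + 1) = N - (j + 1))

lemma exists_anti (U : Finset ℕ) : ∃ g : ℕ → ℕ, (∀ i < U.card, g i ∈ U) ∧
    ∀ i j, i < j → j < U.card → g j < g i := by
  refine ⟨fun i => if h : i < U.card then U.orderEmbOfFin rfl ⟨U.card - 1 - i, by omega⟩ else 0,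
    fun i hi => ?_, fun i j hij hj => ?_⟩
  · simp only [dif_pos hi]; exact Finset.orderEmbOfFin_mem _ _ _
  · simp only [dif_pos hj, dif_pos (hij.trans hj)]
    apply (U.orderEmbOfFin rfl).strictMono
    simp only [Fin.mk_lt_mk]; omega

lemma sum_Icc_eq_tn (m : ℕ) : ∑ v ∈ Finset.Icc 1 m, v = tn m := by
  induction m with
  | zero => simp [tn]
  | succ m ih => rw [Finset.sum_Icc_succ_top (by omega), ih, tn_succ]

lemma sum_val (m s N : ℕ) (val : ℕ → ℕ) (hN : s + m ≤ N)
    (h1 : ∀ j, val j ≠ 0 ↔ s ≤ j ∧ j < s + m) (h2 : ∀ j, val j ≤ m)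
    (h3 : ∀ j j', val j ≠ 0 → val j = val j' → j = j') :
    ∑ j ∈ Finset.range N, val j = tn m := by
  have hinj : Set.InjOn val (Finset.Ico s (s + m)) := by
    intro a ha b _ h
    exact h3 a b ((h1 a).mpr (by simpa using ha)) h
  have him : (Finset.Ico s (s + m)).image val = Finset.Icc 1 m := by
    apply Finset.eq_of_subset_of_card_le
    · intro v hv
      obtain ⟨j, hj, rfl⟩ := Finset.mem_image.mp hv
      have := (h1 j).mpr (by simpa using hj)
      have := h2 j
      rw [Finset.mem_Icc]; omega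
    · rw [Finset.card_image_of_injOn hinj]; simp
  rw [← sum_Icc_eq_tn, ← him, Finset.sum_image hinj]
  symm
  apply Finset.sum_subset
  · intro j hj; rw [Finset.mem_Ico] at hj; rw [Finset.mem_range]; omega
  · intro j _ hj
    by_contra h
    exact hj (Finset.mem_Ico.mpr ((h1 j).mp h))

lemma step {m N s : ℕ} {l : ℕ → ℕ} (hm : 0 < m) (h : Inv m N s l) (hs : s + 3 * m ≤ N) :
    ∃ s' l', Inv m N s' l' ∧
      ∑ j ∈ Finset.range N, l j = ∑ j ∈ Finset.range N, l' j + tn m ∧ Chain m l l' 1 := by
  classical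
  have hex : ∃ i, i = m ∨ m ≤ l (s + i) := ⟨m, Or.inl rfl⟩
  obtain ⟨p, hp, hpmin⟩ : ∃ p, (p = m ∨ m ≤ l (s + p)) ∧ ∀ i < p, ¬ (i = m ∨ m ≤ l (s + i)) :=
    ⟨Nat.find hex, Nat.find_spec hex, fun i hi => Nat.find_min hex hi⟩
  have hpm : p ≤ m := by
    by_contra hc
    exact hpmin m (by omega) (Or.inl rfl)
  have hshort : ∀ j, s ≤ j → j < s + p → l j < m := by
    intro j h1 h2
    have := hpmin (j - s) (by omega)
    rw [show s + (j - s) = j by omega] at this
    omega
  have hlong : ∀ j, s + p ≤ j → j < s + m → m ≤ l j := by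
    intro j h1
    induction j, h1 using Nat.le_induction with
    | base => intro h2; omega
    | succ j h1 ih =>
      intro h2
      have := ih (by omega)
      have := h.ord j (by omega)
      omega
  have hinc : ∀ j j', s ≤ j → j < j' → j' < s + p → l j < l j' := by
    intro j j' h1 h2
    induction j', h2 using Nat.le_induction with
    | base =>
      intro h3
      show l j < l (j + 1)
      have := hshort j h1 (by omega)
      have := h.ord j h1
      omega
    | succ j' h2 ih =>
      intro h3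
      have := ih (by omega)
      have := hshort j' (by omega) (by omega)
      have := h.ord j' (by omega)
      omega
  have hpos : ∀ j, s ≤ j → j < s + p → l j ≠ 0 := by
    intro j h1 h2
    have := h.pos (by omega)
    rcases h1.eq_or_lt with rfl | h3
    · exact this
    · have := hinc s j le_rfl h3 h2; omega
  set Used := (Finset.Ico s (s + p)).image l with hUsed
  have hUc : Used.card = p := by
    rw [hUsed, Finset.card_image_of_injOn]
    · simp
    · intro a ha b hb hab
      simp only [Finset.coe_Ico, Set.mem_Ico] at ha hb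
      rcases lt_trichotomy a b with h1 | h1 | h1
      · have := hinc a b ha.1 h1 hb.2; omega
      · exact h1
      · have := hinc b a hb.1 h1 ha.2; omega
  have hUs : Used ⊆ Finset.Icc 1 m := by
    intro v hv
    obtain ⟨j, hj, rfl⟩ := Finset.mem_image.mp hv
    rw [Finset.mem_Ico] at hj
    have := hshort j hj.1 hj.2
    have := hpos j hj.1 hj.2
    rw [Finset.mem_Icc]; omega
  have hFc : (Finset.Icc 1 m \ Used).card = m - p := by
    rw [Finset.card_sdiff_of_subset hUs, hUc]; simp
  obtain ⟨g, hg1, hg2⟩ := exists_anti (Finset.Icc 1 m \ Used)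
  rw [hFc] at hg1 hg2
  obtain ⟨val, v0, v1, v2⟩ : ∃ val : ℕ → ℕ, (∀ j, j < s ∨ s + m ≤ j → val j = 0) ∧
      (∀ j, s ≤ j → j < s + p → val j = l j) ∧
      (∀ j, s + p ≤ j → j < s + m → val j = g (j - (s + p))) := by
    refine ⟨fun j => if j < s ∨ s + m ≤ j then 0 else if j < s + p then l j else g (j - (s + p)),
      fun j hj => if_pos hj, fun j h1 h2 => ?_, fun j h1 h2 => ?_⟩
    · simp only [if_neg (show ¬ (j < s ∨ s + m ≤ j) by omega), if_pos h2]
    · simp only [if_neg (show ¬ (j < s ∨ s + m ≤ j) by omega), if_neg (show ¬ j < s + p by omega)]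
  have v3 : ∀ j, s + p ≤ j → j < s + m → 1 ≤ val j ∧ val j ≤ m ∧ val j ∉ Used := by
    intro j h1 h2
    have := hg1 (j - (s + p)) (by omega)
    rw [← v2 j h1 h2, Finset.mem_sdiff, Finset.mem_Icc] at this
    tauto
  have v4 : ∀ j j', s + p ≤ j → j < j' → j' < s + m → val j' < val j := by
    intro j j' h1 h2 h3
    rw [v2 j h1 (by omega), v2 j' (by omega) h3]
    exact hg2 _ _ (by omega) (by omega)
  have v5 : ∀ j, val j ≠ 0 ↔ s ≤ j ∧ j < s + m := by
    intro j
    have := v0 j; have := v1 j; have := v3 j; have := hpos j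
    omega
  have v6 : ∀ j, val j ≤ m := by
    intro j
    have := v0 j; have := v1 j; have := v3 j; have := hshort j
    omega
  have v7 : ∀ j j', s ≤ j → j < s + p → s + p ≤ j' → j' < s + m → val j ≠ val j' := by
    intro j j' h1 h2 h3 h4 he
    apply (v3 j' h3 h4).2.2
    rw [← he, v1 j h1 h2]
    exact Finset.mem_image.mpr ⟨j, Finset.mem_Ico.mpr ⟨h1, h2⟩, rfl⟩
  have v8 : ∀ j j', val j ≠ 0 → val j = val j' → j = j' := by
    intro j j' h1 h2
    have a1 := (v5 j).mp h1
    have a2 := (v5 j').mp (h2 ▸ h1)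
    have := v7 j j'; have := v7 j' j; have := v4 j j'; have := v4 j' j
    have := hinc j j'; have := hinc j' j; have := v1 j; have := v1 j'
    omega
  have v9 : ∀ j, val j ≤ l j := by
    intro j
    have := v0 j; have := v1 j; have := v6 j; have := hlong j
    omega
  have hex' : ∃ j, l j - val j ≠ 0 := ⟨s + m, by
    have := h.top (s + m) le_rfl; have := v0 (s + m); omega⟩
  obtain ⟨s', hs', hsmin⟩ : ∃ s', l s' - val s' ≠ 0 ∧ ∀ j < s', ¬ (l j - val j ≠ 0) :=
    ⟨Nat.find hex', Nat.find_spec hex', fun i hi => Nat.find_min hex' hi⟩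
  have hss : s + p ≤ s' := by
    have := h.zero s'; have := v1 s'; omega
  refine ⟨s', fun j => l j - val j, ⟨?_, fun _ => hs', ?_, ?_, ?_, ?_⟩, ?_, ?_⟩
  · intro j hj; have := hsmin j hj; omega
  · intro j; have := h.le j; omega
  · intro j hj; have := h.top j; have := v0 j; omega
  · intro j hj; have := h.top j; have := v0 j; omega
  · intro j hj
    have := h.ord j (by omega)
    have := h.le j
    have := h.top j; have := h.top (j + 1)
    have := v0 j; have := v0 (j + 1)
    have := v4 j (j + 1); have := v3 j; have := hlong j; have := v6 j; have := v9 j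
    omega
  · rw [← sum_val m s N val (by omega) v5 v6 v8, ← Finset.sum_add_distrib]
    exact Finset.sum_congr rfl fun j _ => by have := v9 j; omega
  · intro z n hE
    refine peel m 1 n 1 (Or.inl rfl) _ val v6 v8 ?_ (hE.mono (fun j => by beta_reduce; omega) le_rfl)
    intro j j' h1 h2 h3
    have := (v5 j).mp h1
    have := v5 j'; have := h.zero j'; have := v1 j'; have := v4 j' j
    omega

lemma run (m N : ℕ) (hm : 0 < m) (t : ℕ) : ∃ t' s l, Inv m N s l ∧
    ∑ j ∈ Finset.range N, l j + t' * tn m = tn N ∧ Chain m (fun j => N - j) l t' ∧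
    (t' = t ∨ N < s + 3 * m) ∧ t' ≤ t := by
  induction t with
  | zero =>
    refine ⟨0, 0, fun j => N - j, ⟨by simp, fun h => by omega, by simp, by simp, by simp, by simp⟩, ?_,
      fun z n h => h, Or.inl rfl, le_rfl⟩
    rw [sum_range_sub_eq_tn]; simp
  | succ t ih =>
    obtain ⟨t', s, l, hI, hA, hC, hT, hle⟩ := ih
    by_cases hs : N < s + 3 * m
    · exact ⟨t', s, l, hI, hA, hC, Or.inr hs, by omega⟩
    · obtain ⟨s', l', hI', hA', hC'⟩ := step hm hI (by omega)
      refine ⟨t' + 1, s', l', hI', by rw [← hA, hA']; ring, fun z n hE => ?_, by omega, by omega⟩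
      have := hC z _ (hC' z n hE)
      rwa [show n + (t' + 1) = n + 1 + t' by ring]

lemma area_le {m N s : ℕ} {l : ℕ → ℕ} (h : Inv m N s l) :
    ∑ j ∈ Finset.range N, l j ≤ tn (N - s) := by
  rw [← sum_range_succ_eq_tn, ← Finset.sum_range_reflect]
  rw [← Finset.sum_subset (s₁ := Finset.range (N - s))]
  · apply Finset.sum_le_sum
    intro j hj
    have := Finset.mem_range.mp hj
    have := h.le (N - 1 - j)
    omega
  · intro j hj; rw [Finset.mem_range] at *; omega
  · intro j h1 h2
    rw [Finset.mem_range] at *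
    exact h.zero _ (by omega)

lemma area_ge {m N s : ℕ} {l : ℕ → ℕ} (h : Inv m N s l) (hN : 2 * m ≤ N) :
    tn (2 * m) ≤ ∑ j ∈ Finset.range N, l j := by
  rw [← sum_range_succ_eq_tn, ← Finset.sum_range_reflect l]
  refine le_trans (Finset.sum_le_sum fun j hj => ?_)
    (Finset.sum_le_sum_of_subset (Finset.range_mono hN))
  have := Finset.mem_range.mp hj
  have := h.tip (N - 1 - j) (by omega)
  omega

lemma exists_sub (D : Finset Mon) (l : ℕ → ℕ) (h : ∀ j, l j ≤ rowc D j) :
    ∃ D' ⊆ D, ∀ j, rowc D' j = l j := by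
  classical
  choose T hT hc using fun j => Finset.exists_subset_card_eq (h j)
  refine ⟨D.filter fun μ => μ ∈ T (μ 1), Finset.filter_subset _ _, fun j => ?_⟩
  rw [← hc j, rowc]
  congr 1
  ext μ
  simp only [Finset.mem_filter]
  constructor
  · rintro ⟨⟨_, h2⟩, rfl⟩; exact h2
  · intro h1
    have := Finset.mem_filter.mp (hT j h1)
    exact ⟨⟨this.1, this.2 ▸ h1⟩, this.2⟩

lemma good_of_empD {m n : ℕ} {D D' : Finset Mon} (h : D' ⊆ D) (hE : EmpD m D' n) :
    Good m (sp D) n D'.card := by
  classical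
  refine init (α := 0) (β := 0) (fun μ hμ => ⟨monomial μ 1, ?_, by simp, ?_⟩) hE
  · rw [mem_sp]
    exact support_monomial_subset.trans (by simpa using h hμ)
  · intro ν hν hne
    exact absurd (Finset.mem_singleton.mp (support_monomial_subset hν)) hne

lemma tn_pos {m : ℕ} (hm : 0 < m) : 0 < tn m := by
  have := two_tn m; nlinarith

lemma Good.fewer {m n n' : ℕ} {U : Submodule ℂ R} [FiniteDimensional ℂ U]
    (h : Good m U n' (n' * tn m)) (hn : n ≤ n') : Good m U n (n * tn m) := by
  classical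
  obtain ⟨S, hS, hc⟩ := h
  obtain ⟨S1, h1, h2⟩ := Finset.exists_subset_card_eq (min_le_right n S.card)
  have h3 : (S \ S1).card ≤ n' - n := by rw [Finset.card_sdiff_of_subset h1]; omega
  obtain ⟨P, hP⟩ := exists_fun_of_card_le _ h3
  have : FiniteDimensional ℂ ↥(U ⊓ van m (S1 : Set Pt)) :=
    Submodule.finiteDimensional_of_le inf_le_left
  have : FiniteDimensional ℂ ↥(U ⊓ van m (S : Set Pt)) :=
    Submodule.finiteDimensional_of_le inf_le_left
  have h4 := finrank_lower m (n' - n) P (U ⊓ van m (S1 : Set Pt))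
  have h5 : finrank ℂ ↥(U ⊓ van m (S1 : Set Pt) ⊓ van m (Set.range P)) ≤
      finrank ℂ ↥(U ⊓ van m (S : Set Pt)) := by
    apply Submodule.finrank_mono
    rintro F ⟨⟨f1, f2⟩, f3⟩
    refine ⟨f1, fun p hp => ?_⟩
    by_cases hp1 : p ∈ S1
    · exact f2 p hp1
    · exact f3 p (hP (by simpa using ⟨hp, hp1⟩))
  refine ⟨S1, by omega, ?_⟩
  have h6 : n' * tn m = n * tn m + (n' - n) * tn m := by
    rw [← add_mul]; congr 1; omega
  omega

lemma crude_ind (m N r : ℕ) (hm : 0 < m) (hN : 2 * m ≤ N)
    (h : r * tn m + tn (3 * m - 1) < tn N + 4 * tn m) :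
    Good m (sp (tri N)) r (r * tn m) := by
  obtain ⟨t, s, l, hI, hA, hC, hT, hle⟩ := run m N hm r
  have ht : r ≤ 3 + t := by
    by_contra hne
    have h1 := area_le hI
    have h2 : tn (N - s) ≤ tn (3 * m - 1) := tn_mono (by omega)
    have h3 : (t + 4) * tn m ≤ r * tn m := Nat.mul_le_mul_right _ (by omega)
    nlinarith
  obtain ⟨q, rfl⟩ : ∃ q, N = q + 2 * m := ⟨N - 2 * m, by omega⟩
  obtain ⟨e, e0, e1, e2⟩ : ∃ e : ℕ → ℕ, (∀ j < q, e j = 0) ∧
      (∀ j, q ≤ j → j < q + m → e j = m + 1) ∧ ∀ j, q + m ≤ j → e j = q + 2 * m - j := by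
    refine ⟨fun j => if j < q then 0 else if j < q + m then m + 1 else q + 2 * m - j,
      fun j hj => if_pos hj, fun j h1 h2 => ?_, fun j h1 => ?_⟩
    · simp only [if_neg (show ¬ j < q by omega), if_pos h2]
    · simp only [if_neg (show ¬ j < q by omega), if_neg (show ¬ j < q + m by omega)]
  have hel : ∀ j, e j ≤ l j := by
    intro j
    have := e0 j; have := e1 j; have := e2 j; have := hI.tip j
    omega
  have he : Emp m e 3 := by
    refine strip m (q + m) 1 0 2 e (fun j hj => by have := e2 j; omega)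
      (fun i hi => by have := e2 (q + m + i); omega) ?_
    refine strip m q 1 1 0 _ (fun j hj => by rw [if_neg (by omega)])
      (fun i hi => by have := e1 (q + i); split_ifs <;> omega) ?_
    exact emp_zero m _ fun j => by have := e0 j; split_ifs <;> omega
  have hes : ∑ j ∈ Finset.range (q + 2 * m), e j = 3 * tn m := by
    rw [show q + 2 * m = q + m + m by ring, Finset.sum_range_add, Finset.sum_range_add,
      Finset.sum_eq_zero fun j hj => e0 j (Finset.mem_range.mp hj),
      Finset.sum_congr rfl fun j hj => e1 (q + j) (by omega)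
        (by have := Finset.mem_range.mp hj; omega),
      Finset.sum_congr rfl (f := fun j => e (q + m + j)) (g := fun j => m - j)
        fun j _ => by rw [e2 _ (by omega)]; omega,
      sum_range_sub_eq_tn]
    have := two_tn m
    simp only [Finset.sum_const, Finset.card_range, smul_eq_mul]
    omega
  have hE := hC (fun j => l j - e j) 3 (he.mono (fun j => by have := hel j; omega) le_rfl)
  obtain ⟨D, hD, hr⟩ := exists_sub (tri (q + 2 * m)) (fun j => q + 2 * m - j - (l j - e j))
    fun j => by rw [rowc_tri]; omega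
  have hcard : D.card = (3 + t) * tn m := by
    rw [card_eq_sum_rowc D (q + 2 * m) fun μ hμ => by have := (mem_tri _ μ).mp (hD hμ); omega]
    have : ∑ j ∈ Finset.range (q + 2 * m), rowc D j + ∑ j ∈ Finset.range (q + 2 * m), l j =
        tn (q + 2 * m) + ∑ j ∈ Finset.range (q + 2 * m), e j := by
      rw [← sum_range_sub_eq_tn, ← Finset.sum_add_distrib, ← Finset.sum_add_distrib]
      exact Finset.sum_congr rfl fun j _ => by
        have := hI.le j; have := hel j; rw [hr]; omega
    rw [add_mul]; omega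
  refine Good.fewer ?_ ht
  rw [← hcard]
  exact good_of_empD hD (hE D fun j => (hr j).le)

lemma crude_emp (m N r : ℕ) (hm : 0 < m) (hN : 2 * m ≤ N)
    (h : tn N + 9 * tn m ≤ r * tn m + tn (2 * m)) :
    Good m (sp (tri N)) r (tn N) := by
  obtain ⟨t, s, l, hI, hA, hC, hT, hle⟩ := run m N hm r
  have h1 := area_ge hI hN
  have h2 : t + 9 ≤ r := by
    have h3 : (t + 9) * tn m ≤ r * tn m := by nlinarith
    exact Nat.le_of_mul_le_mul_right h3 (tn_pos hm)
  have h3 : Emp m l 9 := emp_nine m s l hI.zero fun j => by have := hI.le j; omega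
  have h4 := (hC (fun _ => 0) 9 h3).mono (l' := fun j => N - j) (fun j => le_rfl)
    (show 9 + t ≤ r by omega)
  rw [← card_tri]
  exact good_of_empD (Finset.Subset.refl _) (h4 _ fun j => (rowc_tri N j).le)

end

end Pool.Agent.Lib.MP_d03834_ag.H19
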