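import Mathlib

set_option autoImplicit false

namespace Pool.Agent.Lib.MP_d03834_ag.H19

open Polynomial

noncomputable section

lemma signVar_lt (P : ℝ[X]) (h : P ≠ 0) : P.signVariations < P.support.card := by
  induction hn : P.support.card generalizing P with
  | zero => exact absurd (by simpa using hn) h
  | succ n ih =>
    by_cases h0 : P.eraseLead = 0
    · have : P = monomial P.natDegree P.leadingCoeff := by
        conv_lhs => rw [← P.eraseLead_add_monomial_natDegree_leadingCoeff, h0, zero_add]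
      rw [this, signVariations_monomial]; omega
    · have h1 := card_support_eraseLead_add_one h
      have h2 := ih P.eraseLead h0 (by omega)
      have h3 := signVariations_le_eraseLead_succ P
      omega

lemma signVar_pow (a : ℝ) (ha : 0 < a) (u : ℕ) (g : ℝ[X]) (hg : g ≠ 0) :
    g.signVariations + u ≤ ((X - C a) ^ u * g).signVariations := by
  induction u with
  | zero => simp
  | succ u ih =>
    have h1 : (X - C a) ^ u * g ≠ 0 := mul_ne_zero (pow_ne_zero _ (X_sub_C_ne_zero a)) hg
    have := succ_signVariations_le_X_sub_C_mul ha h1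
    rw [pow_succ', mul_assoc]
    omega

lemma signVar_prod (c u : ℕ) (g : ℝ[X]) (hg : g ≠ 0) :
    c * u ≤ ((∏ i ∈ Finset.range c, (X - C ((i : ℝ) + 1)) ^ u) * g).signVariations := by
  induction c with
  | zero => simp
  | succ c ih =>
    have h1 : (∏ i ∈ Finset.range c, (X - C ((i : ℝ) + 1)) ^ u) * g ≠ 0 :=
      mul_ne_zero (Finset.prod_ne_zero_iff.mpr fun i _ => pow_ne_zero _ (X_sub_C_ne_zero _)) hg
    have := signVar_pow ((c : ℝ) + 1) (by positivity) u _ h1
    rw [Finset.prod_range_succ, mul_comm (∏ i ∈ Finset.range c, _), mul_assoc]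
    nlinarith

/-- apply a real functional to the coefficients -/
def cf (l : ℂ →ₗ[ℝ] ℝ) (f : ℂ[X]) : ℝ[X] := ∑ i ∈ f.support, monomial i (l (f.coeff i))

lemma coeff_cf (l : ℂ →ₗ[ℝ] ℝ) (f : ℂ[X]) (i : ℕ) : (cf l f).coeff i = l (f.coeff i) := by
  rw [cf, finsetSum_coeff, Finset.sum_eq_single i]
  · simp
  · intro j _ hj; rw [coeff_monomial, if_neg hj]
  · intro hi; rw [notMem_support_iff.mp hi]; simp

lemma cf_mul (l : ℂ →ₗ[ℝ] ℝ) (P : ℝ[X]) (g : ℂ[X]) :
    cf l (P.map (algebraMap ℝ ℂ) * g) = P * cf l g := by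
  ext n
  rw [coeff_cf, coeff_mul, coeff_mul, map_sum]
  refine Finset.sum_congr rfl fun x _ => ?_
  rw [coeff_cf, coeff_map, ← Algebra.smul_def, map_smul, smul_eq_mul]

lemma descartes (c u : ℕ) (f : ℂ[X]) (hd : ∀ i < c, (X - C ((i : ℂ) + 1)) ^ u ∣ f)
    (hs : f.support.card ≤ c * u) : f = 0 := by
  have h1 : (∏ i ∈ Finset.range c, (X - C ((i : ℂ) + 1)) ^ u) ∣ f := by
    apply Finset.prod_dvd_of_coprime
    · intro i _ j _ hij
      apply IsCoprime.pow
      apply isCoprime_X_sub_C_of_isUnit_sub
      apply Ne.isUnit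
      intro h
      apply hij
      have : (i : ℂ) = j := by linear_combination h
      exact_mod_cast this
    · intro i hi; exact hd i (Finset.mem_range.mp hi)
  obtain ⟨g, hg⟩ := h1
  have h2 : (∏ i ∈ Finset.range c, (X - C ((i : ℂ) + 1)) ^ u) =
      (∏ i ∈ Finset.range c, (X - C ((i : ℝ) + 1)) ^ u).map (algebraMap ℝ ℂ) := by
    rw [Polynomial.map_prod]
    refine Finset.prod_congr rfl fun i _ => ?_
    simp
  have key : ∀ l : ℂ →ₗ[ℝ] ℝ, cf l f = 0 := by
    intro l
    by_contra hne
    have h3 : cf l f = (∏ i ∈ Finset.range c, (X - C ((i : ℝ) + 1)) ^ u) * cf l g := by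
      rw [hg, h2, cf_mul]
    have h4 : cf l g ≠ 0 := by
      intro h; rw [h, mul_zero] at h3; exact hne h3
    have h5 := signVar_prod c u _ h4
    rw [← h3] at h5
    have h6 := signVar_lt _ hne
    have h7 : (cf l f).support.card ≤ f.support.card := by
      apply Finset.card_le_card
      intro i hi
      rw [mem_support_iff] at *
      intro h; apply hi; rw [coeff_cf, h, map_zero]
    omega
  ext i
  apply Complex.ext
  · have := congrArg (fun p => coeff p i) (key Complex.reLm)
    simpa [coeff_cf] using this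
  · have := congrArg (fun p => coeff p i) (key Complex.imLm)
    simpa [coeff_cf] using this

end

end Pool.Agent.Lib.MP_d03834_ag.H19
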