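import Pool.Agent.Lib.MP_d03834_ag.H19Basic

set_option autoImplicit false

namespace Pool.Agent.Lib.MP_d03834_ag.H19

open MvPolynomial Module Topology

noncomputable section

/-- integer weight -/
def wt (α β : ℤ) (μ : Mon) : ℤ := α * μ 0 + β * μ 1

/-- initial monomials of a space -/
def IsLead (α β : ℤ) (U : Submodule ℂ R) (μ : Mon) : Prop :=
  ∃ F ∈ U, coeff μ F ≠ 0 ∧ ∀ ν ∈ F.support, ν ≠ μ → wt α β μ < wt α β ν

/-- at most `n` points kill the monomial space of the diagram -/
def EmpD (m : ℕ) (D : Finset Mon) (n : ℕ) : Prop :=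
  ∃ S : Finset Pt, S.card ≤ n ∧ ∀ F : R, F.support ⊆ D → F ∈ van m (S : Set Pt) → F = 0

/-- torus scaling -/
def sc (s : Pt) : R →ₐ[ℂ] R := aeval fun a => C (s a) * X a

lemma sc_monomial (s : Pt) (ν : Mon) (c : ℂ) :
    sc s (monomial ν c) = monomial ν (c * (s 0 ^ ν 0 * s 1 ^ ν 1)) := by
  rw [sc, aeval_monomial, monomial_eq, Finsupp.prod_fintype _ _ (by simp),
    Finsupp.prod_fintype _ _ (by simp)]
  simp only [Fin.prod_univ_two, algebraMap_eq, map_mul, map_pow, mul_pow]
  ring

lemma init {m n : ℕ} {α β : ℤ} {U : Submodule ℂ R} [FiniteDimensional ℂ U] {D : Finset Mon}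
    (hD : ∀ μ ∈ D, IsLead α β U μ) (h : EmpD m D n) : Good m U n D.card := by
  classical
  obtain ⟨S, hS, hE⟩ := h
  choose! F hFU hF0 hFw using hD
  let P : S → Pt := fun p => p.1
  have hP : Set.range P = (S : Set Pt) := by
    ext p; simp [P]
  let G : ℂ → D → R := fun t μ => ∑ ν ∈ (F μ).support,
    (coeff ν (F μ) * t ^ (wt α β ν - wt α β μ).toNat) • monomial ν (1 : ℂ)
  have hcont : Continuous fun t : ℂ => fun μ : D => jet m P (G t μ) := by
    refine continuous_pi fun μ => ?_
    simp only [G, map_sum, map_smul]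
    fun_prop
  have hG0 : ∀ μ : D, G 0 μ = monomial μ.1 (coeff μ.1 (F μ)) := by
    intro μ
    simp only [G]
    rw [Finset.sum_eq_single μ.1]
    · simp [smul_monomial]
    · intro ν hν hne
      have := hFw μ μ.2 ν hν hne
      rw [zero_pow (by omega)]; simp
    · intro hμ
      exact absurd (mem_support_iff.mpr (hF0 μ μ.2)) hμ
  have h0 : LinearIndependent ℂ fun μ : D => jet m P (G 0 μ) := by
    rw [← indep_iff, hP]
    intro c hc μ
    have hz := hE _ (by
      intro ν hν
      by_contra hn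
      apply mem_support_iff.mp hν
      rw [coeff_sum]
      refine Finset.sum_eq_zero fun μ _ => ?_
      rw [hG0, coeff_smul, coeff_monomial, if_neg, smul_zero]
      rintro rfl; exact hn μ.2) hc
    have := congrArg (coeff μ.1) hz
    rw [coeff_sum, Finset.sum_eq_single μ] at this
    · rw [hG0, coeff_smul, coeff_monomial, if_pos rfl, coeff_zero, smul_eq_mul] at this
      exact (mul_eq_zero.mp this).resolve_right (hF0 μ μ.2)
    · intro ν _ hne
      rw [hG0, coeff_smul, coeff_monomial, if_neg, smul_zero]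
      intro h; exact hne (Subtype.ext h)
    · simp
  have hev : ∀ᶠ t in 𝓝 (0 : ℂ), LinearIndependent ℂ fun μ : D => jet m P (G t μ) :=
    hcont.continuousAt.eventually (isOpen_setOfPred_linearIndependent.mem_nhds h0)
  obtain ⟨t, ht, ht0⟩ :=
    ((hev.filter_mono (nhdsWithin_le_nhds (s := {0}ᶜ))).and self_mem_nhdsWithin).exists
  have ht0' : t ≠ 0 := ht0
  rw [← indep_iff, hP] at ht
  let s : Pt := ![t ^ α, t ^ β]
  have hsc : ∀ μ : D, sc s (F μ) = t ^ wt α β μ • G t μ := by
    intro μ
    conv_lhs => rw [(F μ).as_sum, map_sum]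
    simp only [G, Finset.smul_sum]
    refine Finset.sum_congr rfl fun ν hν => ?_
    have hle : wt α β μ ≤ wt α β ν := by
      by_cases hne : ν = μ
      · rw [hne]
      · exact (hFw μ μ.2 ν hν hne).le
    rw [sc_monomial, smul_smul, smul_monomial, smul_eq_mul, mul_one]
    congr 1
    have e1 : t ^ (wt α β ν - wt α β μ).toNat = t ^ (wt α β ν - wt α β μ) := by
      rw [← zpow_natCast, Int.toNat_of_nonneg (by omega)]
    have e2 : s 0 ^ ν 0 * s 1 ^ ν 1 = t ^ wt α β ν := by
      simp only [s, Matrix.cons_val_zero, Matrix.cons_val_one, wt]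
      rw [zpow_add₀ ht0', zpow_mul, zpow_mul, zpow_natCast, zpow_natCast]
    rw [e1, e2, zpow_sub₀ ht0']
    field_simp
  refine ⟨S.image fun p a => s a * p a, Finset.card_image_le.trans hS, ?_⟩
  have hI : Indep m (fun μ : D => F μ) ((S.image fun p a => s a * p a : Finset Pt) : Set Pt) := by
    intro c hc μ
    have h1 : sc s (∑ μ : D, c μ • F μ) ∈ van m (S : Set Pt) := by
      intro p hp
      refine transport (sc s) p (fun a => s a * p a) (by intro a; simp [sc]) m (hc _ ?_)
      simp only [Finset.coe_image]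
      exact ⟨p, hp, rfl⟩
    rw [map_sum] at h1
    simp only [map_smul, hsc, smul_smul] at h1
    have := ht _ h1 μ
    exact (mul_eq_zero.mp this).resolve_right (zpow_ne_zero _ ht0')
  have := hI.finrank_le U fun μ => hFU μ μ.2
  simpa using this

lemma card_le_finrank {α β : ℤ} {U : Submodule ℂ R} [FiniteDimensional ℂ U] {D : Finset Mon}
    (hD : ∀ μ ∈ D, IsLead α β U μ) : D.card ≤ finrank ℂ U := by
  classical
  choose! F hFU hF0 hFw using hD
  have hli : LinearIndependent ℂ fun μ : D => (⟨F μ, hFU μ μ.2⟩ : U) := by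
    rw [Fintype.linearIndependent_iff]
    intro c hc
    by_contra hne
    push Not at hne
    obtain ⟨μ, hμ, hmin⟩ := (Finset.univ.filter fun μ : D => c μ ≠ 0).exists_min_image
      (fun μ => wt α β μ.1) (by obtain ⟨i, hi⟩ := hne; exact ⟨i, by simpa using hi⟩)
    have h1 : ∑ ν : D, c ν • F ν = 0 := by
      have := congrArg Subtype.val hc
      simpa using this
    have h2 := congrArg (coeff μ.1) h1
    rw [coeff_sum, Finset.sum_eq_single μ] at h2
    · rw [coeff_smul, coeff_zero, smul_eq_mul] at h2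
      exact mul_ne_zero (Finset.mem_filter.mp hμ).2 (hF0 μ μ.2) h2
    · intro ν _ hne
      rw [coeff_smul, smul_eq_mul]
      by_contra h3
      have h4 := hmin ν (by simpa using left_ne_zero_of_mul h3)
      have h5 := hFw ν ν.2 μ.1 (mem_support_iff.mpr (right_ne_zero_of_mul h3))
        (fun h => hne (Subtype.ext h.symm))
      omega
    · simp
  simpa using hli.fintype_card_le_finrank

lemma exists_lead {α β : ℤ} {T : Finset Mon} (hT : Set.InjOn (wt α β) T) {F : R} (hF : F ≠ 0)
    (hFT : F.support ⊆ T) :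
    ∃ μ ∈ F.support, ∀ ν ∈ F.support, ν ≠ μ → wt α β μ < wt α β ν := by
  obtain ⟨μ, hμ, hmin⟩ := F.support.exists_min_image (wt α β) (support_nonempty.mpr hF)
  refine ⟨μ, hμ, fun ν hν hne => lt_of_le_of_ne (hmin ν hν) fun h => hne ?_⟩
  exact (hT (hFT hμ) (hFT hν) h).symm

lemma finrank_le_card {α β : ℤ} {U : Submodule ℂ R} {T L : Finset Mon}
    (hT : Set.InjOn (wt α β) T) (hU : U ≤ sp T) (hL : ∀ μ ∈ T, IsLead α β U μ → μ ∈ L) :
    finrank ℂ U ≤ L.card := by
  let f : U →ₗ[ℂ] (L → ℂ) :=
    { toFun := fun F μ => coeff μ.1 F.1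
      map_add' := by intro F G; ext μ; simp
      map_smul' := by intro c F; ext μ; simp }
  have hf : Function.Injective f := by
    rw [injective_iff_map_eq_zero]
    intro F hF
    by_contra hne
    have hne' : F.1 ≠ 0 := fun h => hne (Subtype.ext h)
    have hs := (mem_sp T F.1).mp (hU F.2)
    obtain ⟨μ, hμ, hmin⟩ := exists_lead hT hne' hs
    have h1 := hL μ (hs hμ) ⟨F.1, F.2, mem_support_iff.mp hμ, hmin⟩
    exact mem_support_iff.mp hμ (congrFun hF ⟨μ, h1⟩)
  have := LinearMap.finrank_le_finrank_of_injective hf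
  simpa using this

end

end Pool.Agent.Lib.MP_d03834_ag.H19
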