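import Pool.Agent.Lib.MP_d03834_ag.H19Rows

set_option autoImplicit false

namespace Pool.Agent.Lib.MP_d03834_ag.H19

open MvPolynomial Module

noncomputable section

/-- the cyclic pattern -/
def pv (m j : ℕ) : ℕ := if j + 1 < m then j + 2 else if j + 1 = m then 1 else 0

lemma pv_facts (m : ℕ) : (∀ j, pv m j ≠ 0 ↔ 0 ≤ j ∧ j < 0 + m) ∧ (∀ j, pv m j ≤ m) ∧
    ∀ j j', pv m j ≠ 0 → pv m j = pv m j' → j = j' := by
  refine ⟨fun j => ?_, fun j => ?_, fun j j' h1 h2 => ?_⟩
  · unfold pv; split_ifs <;> omega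
  · unfold pv; split_ifs <;> omega
  · unfold pv at h1 h2; split_ifs at h1 h2 <;> omega

lemma pat_emp (m a b c : ℕ) (l : ℕ → ℕ)
    (hl : ∀ j < m, l j ≤ a * (m - j) + b * (j + 1) + c * pv m j) (h0 : ∀ j, m ≤ j → l j = 0) :
    Emp m l (0 + c + b + a) := by
  refine peel m a _ 1 (Or.inl rfl) l (fun j => m - j) (fun j => by omega)
    (fun j j' h1 h2 => by omega) (fun j j' h1 h2 h3 => by omega) ?_
  refine peel m b _ (-1) (Or.inr rfl) _ (fun j => if j < m then j + 1 else 0)
    (fun j => by split_ifs <;> omega) (fun j j' h1 h2 => by split_ifs at h1 h2 <;> omega)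
    (fun j j' h1 h2 h3 => by have := h0 j'; split_ifs at h1 ⊢ <;> omega) ?_
  have key : ∀ j, l j - a * (m - j) - b * (if j < m then j + 1 else 0) ≤ c * pv m j := by
    intro j
    by_cases hj : j < m
    · have := hl j hj
      rw [if_pos hj]; omega
    · have := h0 j (by omega); omega
  refine peel m c _ 1 (Or.inl rfl) _ (pv m) (pv_facts m).2.1 (pv_facts m).2.2
    (fun j j' h1 h2 h3 => ⟨?_, Or.inr (key j')⟩) (emp_zero m _ fun j => by have := key j; omega)
  have := ((pv_facts m).1 j).mp h1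
  exact ((pv_facts m).1 j').mpr (by omega)

lemma tn_diff (x k i : ℕ) :
    tn (x + (i + 1) * k + 1) + tn (x + 1) = tn (x + i * k + 1) + tn (x + k + 1) + i * k ^ 2 := by
  have h1 := two_tn (x + (i + 1) * k + 1)
  have h2 := two_tn (x + 1)
  have h3 := two_tn (x + i * k + 1)
  have h4 := two_tn (x + k + 1)
  nlinarith

lemma Good.mono {m n c c' : ℕ} {U : Submodule ℂ R} (h : Good m U n c) (hc : c' ≤ c) :
    Good m U n c' := by
  obtain ⟨S, h1, h2⟩ := h
  exact ⟨S, h1, by omega⟩

lemma main_step (m k x r b c : ℕ) (hm : 0 < m) (hk : 0 < k)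
    (h1 : Good m (sp (tri (x + 1))) r (tn (x + 1)))
    (h2 : Good m (sp (tri (x + k + 1))) r (r * tn m))
    (hB : tn (x + k + 1) = tn (x + 1) + (b + c) * (m + 1) + c + k ^ 2) :
    Good m (sp (tri (x + m * k + 1))) (r + k ^ 2 + 2 * (b + c))
      (min (tn (x + m * k + 1)) ((r + k ^ 2 + 2 * (b + c)) * tn m)) := by
  classical
  obtain ⟨P, ⟨g1, g2⟩, g3⟩ := ((h1.gen.and h2.gen).and (gen_off r k)).exists
  set S0 := Set.range P with hS0
  set U := (sp (tri (x + m * k + 1)) ⊓ van m S0).map (sh k).toLinearMap with hU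
  have : FiniteDimensional ℂ ↥(sp (tri (x + m * k + 1)) ⊓ van m S0) :=
    Submodule.finiteDimensional_of_le inf_le_left
  have hfil : ∀ i j, i + j = m → finrank ℂ ↥(U ⊓ rowGE j) =
      finrank ℂ ↥(sp (tri (x + i * k + 1)) ⊓ van m S0) := by
    intro i j hij
    rw [← finrank_filtr hk m (x + i * k) j S0 g3, hU,
      show x + m * k + 1 = x + i * k + j * k + 1 by rw [← hij]; ring]
  have hdim : ∀ i, 0 < i → finrank ℂ ↥(sp (tri (x + i * k + 1)) ⊓ van m S0) + r * tn m =
      tn (x + i * k + 1) := by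
    intro i hi
    have a1 := propagate (tri_mono (show x + k + 1 ≤ x + i * k + 1 by nlinarith)) g2
    have a2 := finrank_lower m r P (sp (tri (x + i * k + 1)))
    rw [finrank_sp, card_tri] at a1 a2
    exact le_antisymm a1 a2
  have hzero : finrank ℂ ↥(U ⊓ rowGE m) = 0 := by
    rw [hfil 0 m (by omega)]
    rw [finrank_sp, card_tri] at g1
    rw [show x + 0 * k + 1 = x + 1 by ring]
    omega
  obtain ⟨L, α, β, hL, hLc, hLr⟩ := rows U
  have hr0 : ∀ j, m ≤ j → rowc L j = 0 := by
    intro j hj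
    have a1 := hLr j
    have : FiniteDimensional ℂ ↥(U ⊓ rowGE m) := Submodule.finiteDimensional_of_le inf_le_left
    have a2 : finrank ℂ ↥(U ⊓ rowGE j) ≤ finrank ℂ ↥(U ⊓ rowGE m) :=
      Submodule.finrank_mono (inf_le_inf_left _ (rowGE_anti hj))
    omega
  have hr1 : ∀ j, j + 1 < m →
      rowc L j = (b + c + k ^ 2) * (m - j) + b * (j + 1) + c * pv m j := by
    intro j hj
    obtain ⟨i, rfl⟩ : ∃ i, m = i + 1 + j := ⟨m - 1 - j, by omega⟩
    have a1 := hLr j
    rw [hfil (i + 1) j rfl, hfil i (j + 1) (by omega)] at a1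
    have a2 := hdim (i + 1) (by omega)
    have a3 := hdim i (by omega)
    have a4 := tn_diff x k i
    rw [pv, if_pos hj, show i + 1 + j - j = i + 1 by omega]
    nlinarith
  have hU0 : finrank ℂ U + r * tn m = tn (x + m * k + 1) := by
    have a1 := hfil m 0 rfl
    rw [rowGE_zero, inf_top_eq] at a1
    rw [a1, hdim m hm]
  have hgood : ∃ c', Good m U (0 + c + b + (b + c + k ^ 2)) c' ∧
      min (tn (x + m * k + 1)) ((r + k ^ 2 + 2 * (b + c)) * tn m) ≤ c' + r * tn m := by
    rcases le_total (rowc L (m - 1))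
      ((b + c + k ^ 2) * (m - (m - 1)) + b * (m - 1 + 1) + c * pv m (m - 1)) with h | h
    · refine ⟨L.card, init hL (pat_emp m (b + c + k ^ 2) b c (rowc L) (fun j hj => ?_) hr0 L
        fun j => le_rfl), by omega⟩
      by_cases hj' : j + 1 < m
      · exact (hr1 j hj').le
      · rw [show j = m - 1 by omega]; exact h
    · obtain ⟨D, hD, hDr⟩ := exists_sub L (fun j => if j < m then
        (b + c + k ^ 2) * (m - j) + b * (j + 1) + c * pv m j else 0) (fun j => by
          split_ifs with hj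
          · by_cases hj' : j + 1 < m
            · exact (hr1 j hj').ge
            · rw [show j = m - 1 by omega]; exact h
          · exact Nat.zero_le _)
      refine ⟨D.card, init (fun μ hμ => hL μ (hD hμ)) (pat_emp m (b + c + k ^ 2) b c (rowc D)
        (fun j hj => by rw [hDr, if_pos hj]) (fun j hj => by rw [hDr, if_neg (by omega)]) D
        fun j => le_rfl), ?_⟩
      have hc : D.card = (b + c + k ^ 2) * tn m + b * tn m + c * tn m := by
        rw [card_eq_sum_rowc D m, Finset.sum_congr rfl fun j hj => by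
          rw [hDr, if_pos (Finset.mem_range.mp hj)]]
        · rw [Finset.sum_add_distrib, Finset.sum_add_distrib, ← Finset.mul_sum, ← Finset.mul_sum,
            ← Finset.mul_sum, sum_range_sub_eq_tn, sum_range_succ_eq_tn,
            sum_val m 0 m (pv m) (by omega) (pv_facts m).1 (pv_facts m).2.1 (pv_facts m).2.2]
        · intro μ hμ
          by_contra hge
          have := rowc_pos (hD hμ)
          have := hr0 (μ 1) (by omega)
          omega
      refine (min_le_right _ _).trans (le_of_eq ?_)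
      rw [hc]; ring
  obtain ⟨c', ⟨S, hS, hSc⟩, hc'⟩ := hgood
  let ψ : Pt → Pt := fun p => ![p 0, p 1 + p 0 ^ k]
  refine ⟨Finset.univ.image P ∪ S.image ψ, ?_, ?_⟩
  · refine (Finset.card_union_le _ _).trans ?_
    have a1 : (Finset.univ.image P).card ≤ r := Finset.card_image_le.trans (by simp)
    have a2 : (S.image ψ).card ≤ S.card := Finset.card_image_le
    omega
  · have : FiniteDimensional ℂ ↥(U ⊓ van m (S : Set Pt)) :=
      Submodule.finiteDimensional_of_le inf_le_left
    have a1 : (sp (tri (x + m * k + 1)) ⊓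
        van m ((Finset.univ.image P ∪ S.image ψ : Finset Pt) : Set Pt)).map (sh k).toLinearMap ≤
        U ⊓ van m (S : Set Pt) := by
      rintro _ ⟨F, ⟨f1, f2⟩, rfl⟩
      refine ⟨⟨F, ⟨f1, fun p hp => f2 p ?_⟩, rfl⟩, fun p hp => ?_⟩
      · obtain ⟨i, rfl⟩ := hp
        simp
      · refine transport (sh k) p (ψ p) (fun a => ?_) m (f2 _ ?_)
        · fin_cases a <;> simp [sh, ψ]
        · simp only [Finset.coe_union, Finset.coe_image, Set.mem_union]
          exact Or.inr ⟨p, hp, rfl⟩
    have a2 := Submodule.finrank_mono a1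
    rw [← LinearEquiv.finrank_eq (Submodule.equivMapOfInjective (sh k).toLinearMap (sh_inj k) _)]
      at a2
    rw [finrank_sp, card_tri]
    omega

end

end Pool.Agent.Lib.MP_d03834_ag.H19
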