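import Pool.Agent.Lib.MP_d03834_ag.H19Init
import Pool.Agent.Lib.MP_d03834_ag.H19Desc

set_option autoImplicit false

namespace Pool.Agent.Lib.MP_d03834_ag.H19

open MvPolynomial Module

noncomputable section

lemma pderiv_mem (I : Ideal R) (a : Fin 2) (m : ℕ) :
    ∀ F ∈ I ^ (m + 1), pderiv a F ∈ I ^ m := by
  induction m with
  | zero => simp
  | succ m ih =>
    intro F hF
    rw [pow_succ] at hF
    refine Submodule.mul_induction_on hF ?_ ?_
    · intro x hx y hy
      rw [Derivation.leibniz, smul_eq_mul, smul_eq_mul]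
      refine Ideal.add_mem _ (Ideal.mul_mem_right _ _ hx) ?_
      rw [pow_succ']
      exact Ideal.mul_mem_mul hy (ih x hx)
    · intro x y hx hy
      rw [map_add]; exact Ideal.add_mem _ hx hy

lemma coeff_euler (a : Fin 2) (F : R) (μ : Mon) :
    coeff μ (X a * pderiv a F) = (μ a : ℂ) * coeff μ F := by
  classical
  induction F using MvPolynomial.induction_on' with
  | monomial ν c =>
    rw [X_mul_pderiv_monomial, coeff_smul, coeff_monomial]
    split_ifs with h
    · subst h; simp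
    · simp
  | add p q hp hq => rw [map_add, mul_add, coeff_add, hp, hq, coeff_add, mul_add]

lemma kill (S : Set Pt) (A : Finset ℕ) : ∀ (u : ℕ) (F : R), F ∈ van (u + A.card) S →
    ∃ G ∈ van u S, ∀ μ : Mon, coeff μ G = (∏ j ∈ A, ((μ 1 : ℂ) - j)) * coeff μ F := by
  induction A using Finset.induction_on with
  | empty => intro u F hF; exact ⟨F, by simpa using hF, by simp⟩
  | insert j A hj ih =>
    intro u F hF
    rw [Finset.card_insert_of_notMem hj, ← add_assoc, add_right_comm] at hF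
    obtain ⟨G, hG, hc⟩ := ih (u + 1) F hF
    refine ⟨X 1 * pderiv 1 G - C (j : ℂ) * G, fun p hp => ?_, fun μ => ?_⟩
    · exact Ideal.sub_mem _ (Ideal.mul_mem_left _ _ (pderiv_mem _ _ _ _ (hG p hp)))
        (Ideal.mul_mem_left _ _ (Ideal.pow_le_pow_right (Nat.le_succ u) (hG p hp)))
    · rw [coeff_sub, coeff_euler, coeff_C_mul, hc, Finset.prod_insert hj]; ring

/-- points on a horizontal line with positive abscissae -/
def pts (c : ℕ) : Finset Pt := by
  classical exact (Finset.range c).image fun i : ℕ => ![(i : ℂ) + 1, 1]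

lemma card_pts (c : ℕ) : (pts c).card ≤ c := by
  classical
  unfold pts
  exact Finset.card_image_le.trans (by simp)

lemma mem_pts {c i : ℕ} (h : i < c) : (![(i : ℂ) + 1, 1] : Pt) ∈ pts c := by
  classical
  unfold pts
  exact Finset.mem_image.mpr ⟨i, Finset.mem_range.mpr h, rfl⟩

lemma row_zero (c u j : ℕ) (G : R) (hG : G ∈ van u (pts c : Set Pt))
    (hj : ∀ μ ∈ G.support, μ 1 = j) (hs : G.support.card ≤ c * u) : G = 0 := by
  classical
  let ρ : R →ₐ[ℂ] Polynomial ℂ := aeval ![Polynomial.X, 1]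
  have hρ : ∀ (μ : Mon) (a : ℂ), ρ (monomial μ a) = Polynomial.monomial (μ 0) a := by
    intro μ a
    simp only [ρ]
    rw [aeval_monomial, Finsupp.prod_fintype _ _ (by simp)]
    simp [Fin.prod_univ_two, Polynomial.C_mul_X_pow_eq_monomial]
  have hco : ∀ i, (ρ G).coeff i = coeff (mk i j) G := by
    intro i
    conv_lhs => rw [G.as_sum, map_sum, Polynomial.finsetSum_coeff]
    simp only [hρ, Polynomial.coeff_monomial]
    rw [Finset.sum_eq_single (mk i j)]
    · simp
    · intro μ hμ hne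
      rw [if_neg]
      intro h
      exact hne (mon_ext (by simpa using h) (by simpa using hj μ hμ))
    · intro h
      rw [notMem_support_iff.mp h]; simp
  have h0 : ρ G = 0 := by
    apply descartes c u
    · intro i hi
      have h1 : (pid ![(i : ℂ) + 1, 1]).map ρ ≤
          Ideal.span {Polynomial.X - Polynomial.C ((i : ℂ) + 1)} := by
        rw [pid, Ideal.map_span, Ideal.span_le]
        rintro _ ⟨_, ⟨a, rfl⟩, rfl⟩
        fin_cases a
        · apply Ideal.subset_span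
          simp [ρ]
        · simp [ρ]
      have h2 : (pid ![(i : ℂ) + 1, 1] ^ u).map ρ ≤
          Ideal.span {(Polynomial.X - Polynomial.C ((i : ℂ) + 1)) ^ u} := by
        rw [Ideal.map_pow, ← Ideal.span_singleton_pow]
        exact Ideal.pow_right_mono h1 u
      exact Ideal.mem_span_singleton.mp (h2 (Ideal.mem_map_of_mem ρ (hG _ (mem_pts hi))))
    · refine le_trans ?_ hs
      refine Finset.card_le_card_of_injOn (fun i => mk i j) ?_ ?_
      · intro i hi
        rw [Finset.mem_coe, Polynomial.mem_support_iff, hco] at hi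
        exact mem_support_iff.mpr hi
      · intro a _ b _ h
        simpa using congrArg (fun μ : Mon => μ 0) h
  ext μ
  by_contra hne
  have hμ : μ ∈ G.support := mem_support_iff.mpr (by simpa using hne)
  have := hco (μ 0)
  rw [h0, ← hj μ hμ, mk_eta] at this
  exact mem_support_iff.mp hμ (by simpa using this.symm)

lemma rowK (m c : ℕ) (val : ℕ → ℕ) (F : R) (hF : F ∈ van m (pts c : Set Pt))
    (h1 : ∀ μ ∈ F.support, val (μ 1) ≤ m)
    (hinj : ∀ μ ∈ F.support, ∀ ν ∈ F.support, val (μ 1) = val (ν 1) → μ 1 = ν 1)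
    (v : ℕ) (hs : ∀ μ ∈ F.support, val (μ 1) ≤ v → rowc F.support (μ 1) ≤ c * val (μ 1)) :
    ∀ μ ∈ F.support, v < val (μ 1) := by
  classical
  intro μ1 hμ1
  by_contra hv
  obtain ⟨μ0, hμ0, hmin⟩ := F.support.exists_min_image (fun μ => val (μ 1)) ⟨μ1, hμ1⟩
  have hu : val (μ0 1) ≤ v := (hmin μ1 hμ1).trans (not_lt.mp hv)
  set A := (F.support.image fun μ => μ 1).erase (μ0 1) with hA
  have hcard : A.card ≤ m - val (μ0 1) := by
    rw [← Nat.card_Ioc]
    refine Finset.card_le_card_of_injOn val ?_ ?_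
    · intro j hj
      obtain ⟨hne, hj⟩ := Finset.mem_erase.mp (Finset.mem_coe.mp hj)
      obtain ⟨ν, hν, rfl⟩ := Finset.mem_image.mp hj
      rw [Finset.mem_coe, Finset.mem_Ioc]
      refine ⟨lt_of_le_of_ne (hmin ν hν) fun h => hne (hinj _ hμ0 _ hν h).symm, h1 ν hν⟩
    · intro a ha b hb h
      obtain ⟨ν, hν, rfl⟩ := Finset.mem_image.mp (Finset.mem_erase.mp (Finset.mem_coe.mp ha)).2
      obtain ⟨ν', hν', rfl⟩ := Finset.mem_image.mp (Finset.mem_erase.mp (Finset.mem_coe.mp hb)).2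
      exact hinj _ hν _ hν' h
  have hF' : F ∈ van (val (μ0 1) + A.card) (pts c : Set Pt) := fun p hp =>
    Ideal.pow_le_pow_right (by have := h1 μ0 hμ0; omega) (hF p hp)
  obtain ⟨G, hG, hc⟩ := kill _ A _ F hF'
  have hsub : ∀ μ ∈ G.support, μ ∈ F.support ∧ μ 1 = μ0 1 := by
    intro μ hμ
    rw [MvPolynomial.mem_support_iff, hc] at hμ
    have h2 : μ ∈ F.support := mem_support_iff.mpr (right_ne_zero_of_mul hμ)
    refine ⟨h2, ?_⟩
    by_contra hne
    apply left_ne_zero_of_mul hμ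
    exact Finset.prod_eq_zero (i := μ 1)
      (Finset.mem_erase.mpr ⟨hne, Finset.mem_image.mpr ⟨μ, h2, rfl⟩⟩) (sub_self _)
  have hG0 : G = 0 := by
    refine row_zero c _ (μ0 1) G hG (fun μ hμ => (hsub μ hμ).2) (le_trans ?_ (hs μ0 hμ0 hu))
    apply Finset.card_le_card
    intro μ hμ
    exact Finset.mem_filter.mpr (hsub μ hμ)
  have := hc μ0
  rw [hG0, coeff_zero] at this
  refine mul_ne_zero (Finset.prod_ne_zero_iff.mpr fun j hj => ?_) (mem_support_iff.mp hμ0) this.symm
  rw [sub_ne_zero]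
  exact_mod_cast (Finset.mem_erase.mp hj).1.symm

/-- every diagram with the given bounds on its rows is killed by `n` points -/
def Emp (m : ℕ) (l : ℕ → ℕ) (n : ℕ) : Prop :=
  ∀ D : Finset Mon, (∀ j, rowc D j ≤ l j) → EmpD m D n

lemma Emp.mono {m n n' : ℕ} {l l' : ℕ → ℕ} (h : Emp m l n) (hl : ∀ j, l' j ≤ l j) (hn : n ≤ n') :
    Emp m l' n' := by
  intro D hD
  obtain ⟨S, hS, h⟩ := h D fun j => (hD j).trans (hl j)
  exact ⟨S, hS.trans hn, h⟩

lemma rowc_pos {D : Finset Mon} {μ : Mon} (h : μ ∈ D) : 0 < rowc D (μ 1) :=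
  Finset.card_pos.mpr ⟨μ, Finset.mem_filter.mpr ⟨h, rfl⟩⟩

lemma rowc_mono {D D' : Finset Mon} (h : D ⊆ D') (j : ℕ) : rowc D j ≤ rowc D' j :=
  Finset.card_le_card (Finset.filter_subset_filter _ h)

lemma emp_zero (m : ℕ) (l : ℕ → ℕ) (hl : ∀ j, l j = 0) : Emp m l 0 := by
  intro D hD
  refine ⟨∅, le_rfl, fun F hF _ => ?_⟩
  by_contra hne
  obtain ⟨μ, hμ⟩ := support_nonempty.mpr hne
  have := rowc_pos (hF hμ)
  have := hD (μ 1)
  have := hl (μ 1)
  omega

lemma peel (m c n : ℕ) (σ : ℤ) (hσ : σ = 1 ∨ σ = -1) (l val : ℕ → ℕ) (hm : ∀ j, val j ≤ m)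
    (hinj : ∀ j j', val j ≠ 0 → val j = val j' → j = j')
    (hord : ∀ j j' : ℕ, val j ≠ 0 → σ * j' < σ * j → l j' ≠ 0 →
      val j' ≠ 0 ∧ (val j < val j' ∨ l j' ≤ c * val j'))
    (h : Emp m (fun j => l j - c * val j) n) : Emp m l (n + c) := by
  classical
  intro D hD
  obtain ⟨N, hN⟩ : ∃ N : ℕ, ∀ μ ∈ D, μ 0 < N :=
    ⟨D.sup (fun μ => μ 0) + 1, fun μ hμ => Nat.lt_succ_of_le (Finset.le_sup (f := fun μ => μ 0) hμ)⟩
  have hw : ∀ μ ∈ D, ∀ ν ∈ D, wt (-1) (-σ * N) μ ≤ wt (-1) (-σ * N) ν →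
      σ * ν 1 < σ * μ 1 ∨ (ν 1 = μ 1 ∧ ν 0 ≤ μ 0) := by
    intro μ hμ ν hν hlt
    have a1 : (μ 0 : ℤ) < N := by exact_mod_cast hN μ hμ
    have a2 : (ν 0 : ℤ) < N := by exact_mod_cast hN ν hν
    have a3 : (0 : ℤ) ≤ μ 0 := by positivity
    have a4 : (0 : ℤ) ≤ ν 0 := by positivity
    simp only [wt] at hlt
    rcases lt_trichotomy (σ * (ν 1 : ℤ)) (σ * μ 1) with h1 | h1 | h1
    · exact Or.inl h1
    · right
      have h2 : ν 1 = μ 1 := by rcases hσ with rfl | rfl <;> omega
      rw [h2] at hlt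
      exact ⟨h2, by omega⟩
    · exfalso
      have : σ * μ 1 + 1 ≤ σ * (ν 1 : ℤ) := h1
      nlinarith
  have hwinj : Set.InjOn (wt (-1) (-σ * N)) D := by
    intro μ hμ ν hν he
    rcases hw μ hμ ν hν he.le with h1 | h1 <;> rcases hw ν hν μ hμ he.ge with h2 | h2
    · omega
    · rw [h2.1] at h1; omega
    · rw [h1.1] at h2; omega
    · exact mon_ext (by omega) h2.1
  set U := sp D ⊓ van m (pts c : Set Pt) with hU
  have : FiniteDimensional ℂ U := Submodule.finiteDimensional_of_le inf_le_left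
  set L := D.filter (IsLead (-1) (-σ * N) U) with hL
  have hkey : ∀ μ ∈ L, val (μ 1) ≠ 0 →
      c * val (μ 1) < (D.filter fun ν => ν 1 = μ 1 ∧ ν 0 ≤ μ 0).card := by
    intro μ hμ hv
    obtain ⟨hμD, F, ⟨hF1, hF2⟩, hF0, hFw⟩ := Finset.mem_filter.mp hμ
    have hFD : F.support ⊆ D := (mem_sp D F).mp hF1
    have hcase : ∀ ν ∈ F.support, σ * ν 1 < σ * μ 1 ∨ (ν 1 = μ 1 ∧ ν 0 ≤ μ 0) := by
      intro ν hν
      by_cases hne : ν = μ
      · right; rw [hne]; exact ⟨rfl, le_rfl⟩
      · exact hw μ hμD ν (hFD hν) (hFw ν hν hne).le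
    have hl : ∀ ν ∈ F.support, l (ν 1) ≠ 0 := by
      intro ν hν
      have := rowc_pos (hFD hν)
      have := hD (ν 1)
      omega
    by_contra hcon
    have := rowK m c val F hF2 (fun ν _ => hm _) (by
      intro ν hν ν' _ he
      refine hinj _ _ ?_ he
      rcases hcase ν hν with h1 | h1
      · exact (hord _ _ hv h1 (hl ν hν)).1
      · rw [h1.1]; exact hv) (val (μ 1)) (by
      intro ν hν hle
      rcases hcase ν hν with h1 | h1
      · rcases (hord _ _ hv h1 (hl ν hν)).2 with h2 | h2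
        · omega
        · exact ((rowc_mono hFD _).trans (hD _)).trans h2
      · rw [h1.1]
        refine le_trans (Finset.card_le_card ?_) (not_lt.mp hcon)
        intro ν' hν'
        obtain ⟨h3, h4⟩ := Finset.mem_filter.mp hν'
        refine Finset.mem_filter.mpr ⟨hFD h3, ?_⟩
        rcases hcase ν' h3 with h5 | h5
        · rw [h4] at h5; omega
        · exact h5) μ (mem_support_iff.mpr hF0)
    omega
  have hrow : ∀ j, rowc L j ≤ l j - c * val j := by
    intro j
    by_cases hv : val j = 0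
    · rw [hv, mul_zero, Nat.sub_zero]
      exact (rowc_mono (Finset.filter_subset _ _) j).trans (hD j)
    rcases (L.filter fun μ => μ 1 = j).eq_empty_or_nonempty with he | hne
    · rw [rowc, he]; simp
    obtain ⟨μ, hμ, hmin⟩ := Finset.exists_min_image _ (fun μ : Mon => μ 0) hne
    obtain ⟨hμL, hμj⟩ := Finset.mem_filter.mp hμ
    have h1 := hkey μ hμL (by rw [hμj]; exact hv)
    rw [hμj] at h1
    have h2 := Finset.card_union_add_card_inter (L.filter fun μ => μ 1 = j)
      (D.filter fun ν => ν 1 = j ∧ ν 0 ≤ μ 0)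
    have h3 : ((L.filter fun μ => μ 1 = j) ∪ (D.filter fun ν => ν 1 = j ∧ ν 0 ≤ μ 0)).card ≤
        rowc D j := by
      apply Finset.card_le_card
      intro ν hν
      rcases Finset.mem_union.mp hν with h4 | h4
      · obtain ⟨h5, h6⟩ := Finset.mem_filter.mp h4
        exact Finset.mem_filter.mpr ⟨(Finset.mem_filter.mp h5).1, h6⟩
      · obtain ⟨h5, h6⟩ := Finset.mem_filter.mp h4
        exact Finset.mem_filter.mpr ⟨h5, h6.1⟩
    have h4 : ((L.filter fun μ => μ 1 = j) ∩ (D.filter fun ν => ν 1 = j ∧ ν 0 ≤ μ 0)).card ≤ 1 := by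
      rw [Finset.card_le_one_iff_subset_singleton]
      refine ⟨μ, fun ν hν => ?_⟩
      obtain ⟨h5, h6⟩ := Finset.mem_inter.mp hν
      have h7 := hmin ν h5
      have h8 := (Finset.mem_filter.mp h6).2
      exact Finset.mem_singleton.mpr (mon_ext (by omega) (by omega))
    have h5 := hD j
    have h6 : rowc L j = (L.filter fun μ => μ 1 = j).card := rfl
    omega
  obtain ⟨S, hS, hgood⟩ := init (U := U) (D := L) (fun μ hμ => (Finset.mem_filter.mp hμ).2) (h L hrow)
  have hle : finrank ℂ U ≤ L.card :=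
    finrank_le_card hwinj inf_le_left fun μ hμ h => Finset.mem_filter.mpr ⟨hμ, h⟩
  have : FiniteDimensional ℂ ↥(U ⊓ van m (S : Set Pt)) :=
    Submodule.finiteDimensional_of_le inf_le_left
  have hbot : U ⊓ van m (S : Set Pt) = ⊥ := Submodule.finrank_eq_zero.mp (by omega)
  refine ⟨S ∪ pts c, (Finset.card_union_le _ _).trans (by have := card_pts c; omega), ?_⟩
  intro F hF hv
  rw [Finset.coe_union, van_union] at hv
  have : F ∈ U ⊓ van m (S : Set Pt) := ⟨⟨(mem_sp D F).mpr hF, hv.2⟩, hv.1⟩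
  rwa [hbot, Submodule.mem_bot] at this

end

end Pool.Agent.Lib.MP_d03834_ag.H19
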