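import Pool.Agent.Lib.MP_d03834_ag.H19Crude

set_option autoImplicit false

namespace Pool.Agent.Lib.MP_d03834_ag.H19

open MvPolynomial Module

noncomputable section

/-- polynomials supported in the rows from `j` on -/
def rowGE (j : ℕ) : Submodule ℂ R := restrictSupport ℂ {μ : Mon | j ≤ μ 1}

lemma mem_rowGE (j : ℕ) (F : R) : F ∈ rowGE j ↔ ∀ μ ∈ F.support, j ≤ μ 1 := by
  rw [rowGE, mem_restrictSupport_iff]; rfl

lemma rowGE_anti {j j' : ℕ} (h : j ≤ j') : rowGE j' ≤ rowGE j := by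
  intro F hF; rw [mem_rowGE] at *; exact fun μ hμ => h.trans (hF μ hμ)

lemma rowGE_zero : rowGE 0 = ⊤ := by
  rw [eq_top_iff]; intro F _; rw [mem_rowGE]; simp

lemma mem_rowGE_iff (j : ℕ) (F : R) : F ∈ rowGE j ↔ ∃ H, F = X 1 ^ j * H := by
  classical
  rw [mem_rowGE]
  constructor
  · intro h
    refine ⟨F.divMonomial (Finsupp.single 1 j), ?_⟩
    have h1 := divMonomial_add_modMonomial F (Finsupp.single 1 j)
    have h2 : F.modMonomial (Finsupp.single 1 j) = 0 := by
      ext μ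
      by_cases hle : Finsupp.single 1 j ≤ μ
      · rw [coeff_modMonomial_of_le _ hle]; simp
      · rw [coeff_modMonomial_of_not_le _ hle, coeff_zero]
        by_contra hne
        exact hle (Finsupp.single_le_iff.mpr (h μ (MvPolynomial.mem_support_iff.mpr hne)))
    rw [h2, add_zero] at h1
    rw [X_pow_eq_monomial, h1]
  · rintro ⟨H, rfl⟩ μ hμ
    rw [X_pow_eq_monomial, MvPolynomial.mem_support_iff, coeff_monomial_mul'] at hμ
    by_contra hlt
    apply hμ
    rw [if_neg]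
    intro h
    exact hlt (Finsupp.single_le_iff.mp h)

lemma exists_sp (U : Submodule ℂ R) [FiniteDimensional ℂ U] : ∃ T, U ≤ sp T := by
  classical
  obtain ⟨s, hs⟩ := (Submodule.fg_iff_finiteDimensional U).mpr inferInstance
  refine ⟨s.biUnion fun F => F.support, ?_⟩
  rw [← hs, Submodule.span_le]
  intro F hF
  rw [SetLike.mem_coe, mem_sp]
  exact Finset.subset_biUnion_of_mem (fun F : R => F.support) hF

lemma rows (U : Submodule ℂ R) [FiniteDimensional ℂ U] :
    ∃ (L : Finset Mon) (α β : ℤ), (∀ μ ∈ L, IsLead α β U μ) ∧ L.card = finrank ℂ U ∧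
      ∀ j, rowc L j + finrank ℂ ↥(U ⊓ rowGE (j + 1)) = finrank ℂ ↥(U ⊓ rowGE j) := by
  classical
  obtain ⟨T, hT⟩ := exists_sp U
  obtain ⟨N, hN⟩ : ∃ N : ℕ, ∀ μ ∈ T, μ 0 < N :=
    ⟨T.sup (fun μ => μ 0) + 1, fun μ hμ => Nat.lt_succ_of_le (Finset.le_sup (f := fun μ => μ 0) hμ)⟩
  have hw : ∀ μ ∈ T, ∀ ν ∈ T, wt 1 N μ ≤ wt 1 N ν → μ 1 ≤ ν 1 := by
    intro μ hμ ν hν hle
    have a2 : (ν 0 : ℤ) < N := by exact_mod_cast hN ν hν
    have a3 : (0 : ℤ) ≤ μ 0 := by positivity
    simp only [wt] at hle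
    by_contra hc
    have : (ν 1 : ℤ) + 1 ≤ μ 1 := by omega
    nlinarith
  have hwinj : Set.InjOn (wt 1 N) T := by
    intro μ hμ ν hν he
    have h1 : μ 1 = ν 1 := le_antisymm (hw μ hμ ν hν he.le) (hw ν hν μ hμ he.ge)
    simp only [wt, h1] at he
    exact mon_ext (by omega) h1
  set L := T.filter (IsLead 1 N U) with hL
  have key : ∀ j, (L.filter fun μ => j ≤ μ 1).card = finrank ℂ ↥(U ⊓ rowGE j) := by
    intro j
    have : FiniteDimensional ℂ ↥(U ⊓ rowGE j) := Submodule.finiteDimensional_of_le inf_le_left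
    apply le_antisymm
    · apply card_le_finrank (α := 1) (β := N)
      intro μ hμ
      obtain ⟨h1, h2⟩ := Finset.mem_filter.mp hμ
      obtain ⟨h3, F, hF, h4, h5⟩ := Finset.mem_filter.mp h1
      refine ⟨F, ⟨hF, (mem_rowGE j F).mpr fun ν hν => ?_⟩, h4, h5⟩
      by_cases hne : ν = μ
      · rw [hne]; exact h2
      · exact h2.trans (hw μ h3 ν ((mem_sp T F).mp (hT hF) hν) (h5 ν hν hne).le)
    · refine finrank_le_card hwinj (inf_le_left.trans hT) ?_
      rintro μ hμ ⟨F, hF, h4, h5⟩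
      exact Finset.mem_filter.mpr ⟨Finset.mem_filter.mpr ⟨hμ, F, hF.1, h4, h5⟩,
        (mem_rowGE j F).mp hF.2 μ (MvPolynomial.mem_support_iff.mpr h4)⟩
  refine ⟨L, 1, N, fun μ hμ => (Finset.mem_filter.mp hμ).2, ?_, fun j => ?_⟩
  · have := key 0
    rw [rowGE_zero, inf_top_eq] at this
    rw [← this]; simp
  · rw [← key, ← key, rowc, ← Finset.card_union_of_disjoint]
    · congr 1
      ext μ
      simp only [Finset.mem_union, Finset.mem_filter]
      constructor
      · rintro (⟨h1, h2⟩ | ⟨h1, h2⟩) <;> exact ⟨h1, by omega⟩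
      · rintro ⟨h1, h2⟩
        by_cases h : μ 1 = j
        · exact Or.inl ⟨h1, h⟩
        · exact Or.inr ⟨h1, by omega⟩
    · rw [Finset.disjoint_left]
      intro μ h1 h2
      have := (Finset.mem_filter.mp h1).2
      have := (Finset.mem_filter.mp h2).2
      omega

lemma mem_sp_tri (d : ℕ) (F : R) : F ∈ sp (tri (d + 1)) ↔ F.totalDegree ≤ d := by
  rw [mem_sp, totalDegree, Finset.sup_le_iff]
  refine forall_congr' fun μ => imp_congr_right fun _ => ?_
  rw [mem_tri, Finsupp.sum_fintype _ _ (by simp), Fin.sum_univ_two]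
  omega

/-- the curve -/
def cv (k : ℕ) : R := X 1 - X 0 ^ k

lemma totalDegree_cv {k : ℕ} (hk : 0 < k) : (cv k).totalDegree = k ∧ cv k ≠ 0 := by
  classical
  have h1 : coeff (Finsupp.single 0 k) (cv k) ≠ 0 := by
    rw [cv, coeff_sub, coeff_X, coeff_X_pow, if_neg, if_pos rfl]
    · simp
    · intro h
      have := congrArg (fun μ : Mon => μ 1) h
      simp at this
  refine ⟨le_antisymm ?_ ?_, fun h => h1 (by rw [h]; simp)⟩
  · refine (totalDegree_sub _ _).trans (max_le ?_ ?_)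
    · rw [totalDegree_X]; exact hk
    · rw [totalDegree_X_pow]
  · have := le_totalDegree (MvPolynomial.mem_support_iff.mpr h1)
    simpa using this

lemma totalDegree_cv_pow {k : ℕ} (hk : 0 < k) (j : ℕ) (G : R) (hG : G ≠ 0) :
    (cv k ^ j * G).totalDegree = j * k + G.totalDegree := by
  induction j with
  | zero => simp
  | succ j ih =>
    rw [pow_succ', mul_assoc, totalDegree_mul_of_isDomain (totalDegree_cv hk).2
      (mul_ne_zero (pow_ne_zero _ (totalDegree_cv hk).2) hG), ih, (totalDegree_cv hk).1]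
    ring

lemma cancel (p : Pt) (m j : ℕ) (c G : R) (hc : eval p c ≠ 0) (h : c ^ j * G ∈ pid p ^ m) :
    G ∈ pid p ^ m := by
  let π := Ideal.Quotient.mk (pid p ^ m)
  have h1 : IsNilpotent (π (c - C (eval p c))) :=
    ⟨m, by rw [← map_pow, Ideal.Quotient.eq_zero_iff_mem]
           exact Ideal.pow_mem_pow (sub_C_eval_mem p c) m⟩
  have h2 : IsUnit (π (C (eval p c))) := ((Ne.isUnit hc).map C).map π
  have h3 : IsUnit (π c) := by
    have := h1.isUnit_add_right_of_commute h2 (Commute.all _ _)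
    rwa [← map_add, sub_add_cancel] at this
  rw [← Ideal.Quotient.eq_zero_iff_mem] at h ⊢
  rw [map_mul, map_pow] at h
  exact (h3.pow j).mul_right_eq_zero.mp h

/-- straightening the curve -/
def sh (k : ℕ) : R →ₐ[ℂ] R := aeval ![X 0, X 1 + X 0 ^ k]

/-- inverse map -/
def sh' (k : ℕ) : R →ₐ[ℂ] R := aeval ![X 0, X 1 - X 0 ^ k]

lemma sh'_sh (k : ℕ) (F : R) : sh' k (sh k F) = F := by
  have : (sh' k).comp (sh k) = AlgHom.id ℂ R := by
    ext1 a
    fin_cases a <;> simp [sh, sh']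
  exact AlgHom.congr_fun this F

lemma sh_inj (k : ℕ) : Function.Injective (sh k) :=
  Function.LeftInverse.injective (sh'_sh k)

lemma sh_cv (k : ℕ) : sh k (cv k) = X 1 := by simp [sh, cv]

lemma sh'_X (k : ℕ) : sh' k (X 1) = cv k := by simp [sh', cv]

lemma finrank_filtr {k : ℕ} (hk : 0 < k) (m x j : ℕ) (S : Set Pt)
    (hS : ∀ p ∈ S, eval p (cv k) ≠ 0) :
    finrank ℂ ↥(((sp (tri (x + j * k + 1)) ⊓ van m S).map (sh k).toLinearMap) ⊓ rowGE j) =
      finrank ℂ ↥(sp (tri (x + 1)) ⊓ van m S) := by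
  let f : R →ₗ[ℂ] R := (sh k).toLinearMap ∘ₗ LinearMap.mulLeft ℂ (cv k ^ j)
  have hf : ∀ G, f G = sh k (cv k ^ j * G) := fun G => rfl
  have hinj : Function.Injective f := by
    intro G G' h
    rw [hf, hf] at h
    exact mul_left_cancel₀ (pow_ne_zero _ (totalDegree_cv hk).2) (sh_inj k h)
  have e : ((sp (tri (x + j * k + 1)) ⊓ van m S).map (sh k).toLinearMap) ⊓ rowGE j =
      (sp (tri (x + 1)) ⊓ van m S).map f := by
    ext F
    constructor
    · rintro ⟨⟨F0, ⟨h1, h2⟩, rfl⟩, h3⟩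
      obtain ⟨H, hH⟩ := (mem_rowGE_iff j _).mp h3
      have h4 : F0 = cv k ^ j * sh' k H := by
        have := congrArg (sh' k) hH
        rwa [AlgHom.toLinearMap_apply, sh'_sh, map_mul, map_pow, sh'_X] at this
      refine ⟨sh' k H, ⟨?_, fun p hp => ?_⟩, by rw [hf, ← h4]; rfl⟩
      · by_cases h0 : sh' k H = 0
        · rw [h0]; exact Submodule.zero_mem _
        · have h5 := (mem_sp_tri _ _).mp h1
          rw [h4, totalDegree_cv_pow hk j _ h0] at h5
          exact (mem_sp_tri _ _).mpr (by omega)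
      · exact cancel p m j _ _ (hS p hp) (h4 ▸ h2 p hp)
    · rintro ⟨G, ⟨h1, h2⟩, rfl⟩
      refine ⟨⟨cv k ^ j * G, ⟨?_, fun p hp => Ideal.mul_mem_left _ _ (h2 p hp)⟩, rfl⟩, ?_⟩
      · by_cases h0 : G = 0
        · rw [h0, mul_zero]; exact Submodule.zero_mem _
        · have h5 := (mem_sp_tri _ _).mp h1
          refine (mem_sp_tri _ _).mpr ?_
          rw [totalDegree_cv_pow hk j _ h0]; omega
      · exact (mem_rowGE_iff j _).mpr ⟨sh k G, by rw [hf, map_mul, map_pow, sh_cv]⟩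
  rw [e]
  exact (LinearEquiv.finrank_eq (Submodule.equivMapOfInjective f hinj _)).symm

lemma propagate {m c : ℕ} {S : Set Pt} {U U' : Submodule ℂ R} [FiniteDimensional ℂ U']
    (hU : U ≤ U') (h : finrank ℂ ↥(U ⊓ van m S) + c ≤ finrank ℂ U) :
    finrank ℂ ↥(U' ⊓ van m S) + c ≤ finrank ℂ U' := by
  have : FiniteDimensional ℂ U := Submodule.finiteDimensional_of_le hU
  obtain ⟨s, v, hv, hi, hs⟩ := exists_indep m S U
  have := hi.finrank_le U' fun i => hU (hv i)
  rw [Fintype.card_fin] at this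
  omega

lemma tri_mono {N N' : ℕ} (h : N ≤ N') : sp (tri N) ≤ sp (tri N') :=
  sp_mono fun μ hμ => by rw [mem_tri] at *; omega

lemma gen_off (r k : ℕ) : Gen r fun P => ∀ p ∈ Set.range P, eval p (cv k) ≠ 0 := by
  refine ⟨∏ i : Fin r, (X (i, 1) - X (i, 0) ^ k), ?_, fun P hP => ?_⟩
  · intro h
    have := congrArg (eval fun ij : Fin r × Fin 2 => if ij.2 = 0 then (0 : ℂ) else 2) h
    rw [map_prod, map_zero, Finset.prod_eq_zero_iff] at this
    obtain ⟨i, -, hi⟩ := this
    rcases k with _ | k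
    · norm_num at hi
    · simp at hi
  · rintro _ ⟨i, rfl⟩
    rw [map_prod, Finset.prod_ne_zero_iff] at hP
    simpa [cv] using hP i (Finset.mem_univ i)

end

end Pool.Agent.Lib.MP_d03834_ag.H19
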