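import Pool.Agent.Lib.MP_d03834_ag.Squares

set_option autoImplicit false

open MvPolynomial Module Filter

namespace Pool.Agent.Lib.MP_d03834_ag

lemma supp_map (φ : R →ₐ[ℂ] R) (Q : E → E → Prop) (h0 : Q 0 0)
    (hadd : ∀ ν μ ν' μ', Q ν μ → Q ν' μ' → Q (ν + ν') (μ + μ'))
    (hX : ∀ i μ, coeff μ (φ (X i)) ≠ 0 → Q (Finsupp.single i 1) μ) (f : R) (μ : E)
    (h : coeff μ (φ f) ≠ 0) : ∃ ν, coeff ν f ≠ 0 ∧ Q ν μ := by
  classical
  have hmul : ∀ (g g' : R) ν ν', (∀ μ, coeff μ g ≠ 0 → Q ν μ) → (∀ μ, coeff μ g' ≠ 0 → Q ν' μ) →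
      ∀ μ, coeff μ (g * g') ≠ 0 → Q (ν + ν') μ := by
    intro g g' ν ν' h1 h2 μ hμ
    obtain ⟨x, hx, y, hy, rfl⟩ := Finset.mem_add.1 (support_mul g g' (mem_support_iff.2 hμ))
    exact hadd _ _ _ _ (h1 x (mem_support_iff.1 hx)) (h2 y (mem_support_iff.1 hy))
  have hC : ∀ (c : ℂ) μ, coeff μ (C c : R) ≠ 0 → Q 0 μ := by
    intro c μ hμ
    rw [coeff_C] at hμ
    split_ifs at hμ with h
    · exact h ▸ h0
    · exact absurd rfl hμ
  have hpow : ∀ i (n : ℕ) μ, coeff μ (φ (X i) ^ n) ≠ 0 → Q (Finsupp.single i n) μ := by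
    intro i n
    induction n with
    | zero => simpa using hC 1
    | succ n ih =>
      rw [pow_succ, Finsupp.single_add]
      exact hmul _ _ _ _ ih (hX i)
  rw [f.as_sum, map_sum, coeff_sum] at h
  obtain ⟨ν, hν, h1⟩ := Finset.exists_ne_zero_of_sum_ne_zero h
  refine ⟨ν, mem_support_iff.1 hν, ?_⟩
  rw [monomial_eq, Finsupp.prod_fintype _ _ (by simp), Fin.prod_univ_two, map_mul, map_mul,
    map_pow, map_pow, show φ (C (coeff ν f)) = C (coeff ν f) from φ.commutes _] at h1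
  have := hmul _ _ _ _ (hC _) (hmul _ _ _ _ (hpow 0 (ν 0)) (hpow 1 (ν 1))) μ h1
  rwa [show 0 + (Finsupp.single 0 (ν 0) + Finsupp.single 1 (ν 1)) = ν from
    E_ext (by simp) (by simp)] at this

lemma supp_tr (p : Pt) (f : R) (μ : E) (h : coeff μ (tr p f) ≠ 0) :
    ∃ ν, coeff ν f ≠ 0 ∧ μ 0 ≤ ν 0 ∧ μ 1 ≤ ν 1 := by
  classical
  refine supp_map (tr p : R →ₐ[ℂ] R) (fun ν μ => μ 0 ≤ ν 0 ∧ μ 1 ≤ ν 1) (by simp)
    (fun ν μ ν' μ' h1 h2 => by simp only [Finsupp.add_apply]; omega) (fun i μ hμ => ?_) f μ h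
  replace hμ : coeff μ (tr p (X i)) ≠ 0 := hμ
  simp only [tr_X, coeff_add, coeff_X, coeff_C] at hμ
  by_cases h1 : Finsupp.single i 1 = μ
  · simp [h1]
  · by_cases h2 : 0 = μ
    · simp [← h2]
    · simp [h1, h2] at hμ

lemma card_tri (c : ℕ) : (tri c).card = T c := by
  classical
  induction c with
  | zero => simp [tri, T]
  | succ c ih =>
    have : tri (c + 1) = tri c ∪ layer c 0 (c + 1) := by
      ext ν; simp only [Finset.mem_union, mem_tri, mem_layer]; omega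
    rw [this, Finset.card_union_of_disjoint, ih, card_layer _ _ _ le_rfl, T_succ, Nat.sub_zero]
    rw [Finset.disjoint_left]
    intro ν h1 h2
    rw [mem_tri] at h1
    rw [mem_layer] at h2
    omega

lemma finrank_II_le {ι : Type*} [Fintype ι] (W : Submodule ℂ R) [FiniteDimensional ℂ W]
    (P : ι → Pt) {a b : ι → ℕ} (h : ∀ i, b i ≤ a i) :
    finrank ℂ ↥(W ⊓ II P b) + ∑ i, T (b i) ≤ finrank ℂ ↥(W ⊓ II P a) + ∑ i, T (a i) := by
  classical
  have h1 := finrank_le_add_card (W ⊓ II P b) (W ⊓ II P a)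
    (A := Σ i : ι, (tri (a i) \ tri (b i) : Finset E))
    (LinearMap.pi fun k => (lcoeff ℂ k.2.1).comp (tr (P k.1)).toLinearMap) (by
      intro f hf h0
      refine ⟨hf.1, mem_II.2 fun i => mem_fat.2 fun β hβ => ?_⟩
      by_cases hb : β 0 + β 1 < b i
      · exact mem_fat.1 (mem_II.1 hf.2 i) β hb
      · have := congrFun h0 ⟨i, ⟨β, by simp [mem_tri, hβ, hb]⟩⟩
        simpa using this)
  have h2 : finrank ℂ ↥((W ⊓ II P b) ⊓ (W ⊓ II P a)) ≤ finrank ℂ ↥(W ⊓ II P a) :=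
    Submodule.finrank_mono inf_le_right
  have h3 : Fintype.card (Σ i : ι, (tri (a i) \ tri (b i) : Finset E)) + ∑ i, T (b i) =
      ∑ i, T (a i) := by
    rw [Fintype.card_sigma, ← Finset.sum_add_distrib]
    refine Finset.sum_congr rfl fun i _ => ?_
    rw [Fintype.card_coe, ← card_tri, ← card_tri, Finset.card_sdiff_add_card_eq_card]
    intro ν hν
    rw [mem_tri] at hν ⊢
    exact hν.trans_le (h i)
  omega

lemma G.union {ι : Type*} {D D' : Finset E} (A : Finset E) {a : ι → ℕ} {k : ℕ}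
    (h : G (sp D') a k) (hD : D ⊆ D' ∪ A) : G (sp D) a (k + A.card) := by
  obtain ⟨P, hP⟩ := h
  exact ⟨P, (finrank_sp_inf_le D D' A _ hD).trans (by omega)⟩

/-- degree `d` monomials with multiplicities `a, b, c` at the three coordinate points -/
noncomputable def Hex (d a b c : ℤ) : Finset E :=
  (tri (d.toNat + 1)).filter fun ν =>
    a ≤ ν 0 + ν 1 ∧ (ν 0 + ν 1 : ℤ) ≤ d ∧ ν 0 + b ≤ d ∧ ν 1 + c ≤ d

lemma mem_Hex {d a b c : ℤ} {ν : E} : ν ∈ Hex d a b c ↔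
    a ≤ ν 0 + ν 1 ∧ (ν 0 + ν 1 : ℤ) ≤ d ∧ ν 0 + b ≤ d ∧ ν 1 + c ≤ d := by
  rw [Hex, Finset.mem_filter, mem_tri]
  omega

lemma G_origin {n k : ℕ} {d x b c : ℤ} {s : Fin n → ℤ} :
    G (sp (Hex d 0 b c)) (fun i => ((Fin.cons x s : Fin (n + 1) → ℤ) i).toNat) k ↔
      G (sp (Hex d x b c)) (fun i => (s i).toNat) k := by
  constructor
  · rintro ⟨P, hP⟩
    refine ⟨fun i => P i.succ + -P 0, le_trans ?_ hP⟩
    refine finrank_le_of_inj _ _ (tr (-P 0)).toLinearMap (fun f _ h => by simpa using h)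
      fun f hf => ⟨mem_sp.2 fun μ hμ => ?_, (map_mem_II_iff _ _ _).2 (mem_II.2 fun i => ?_)⟩
    · obtain ⟨ν, h1, h2⟩ := supp_tr _ _ _ hμ
      have := mem_Hex.1 (mem_sp.1 hf.1 ν h1)
      rw [mem_Hex]; omega
    · rw [pt_tr]
      refine Fin.cases ?_ (fun i => mem_II.1 hf.2 i) i
      rw [add_neg_cancel, mem_fat_origin]
      intro β hβ
      by_contra h
      have := mem_Hex.1 (mem_sp.1 hf.1 β h)
      simp only [Fin.cons_zero] at hβ
      omega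
  · rintro ⟨P, hP⟩
    refine ⟨Fin.cons 0 P, le_trans (Submodule.finrank_mono ?_) hP⟩
    rintro f ⟨h1, h2⟩
    refine ⟨mem_sp.2 fun ν hν => ?_, mem_II.2 fun i => mem_II.1 h2 i.succ⟩
    have h3 := mem_Hex.1 (mem_sp.1 h1 ν hν)
    have h4 := mt (mem_fat_origin.1 (mem_II.1 h2 0) ν) hν
    simp only [Fin.cons_zero] at h4
    rw [mem_Hex]; omega

section
variable {ι : Type*} [Fintype ι] {s : ι → ℕ} {k : ℕ} {d a b c : ℤ}

lemma G_s1 (h : G (sp (Hex d b a c)) s k) : G (sp (Hex d a b c)) s k := by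
  refine expo _ _ (-1) (-1) 0 1 d 0 (by norm_num) (fun ν hν => ?_) h
  rw [mem_Hex] at hν
  refine ⟨ex (d - ν 0 - ν 1).toNat (ν 1), ?_, ?_⟩
  · rw [mem_Hex, ex_zero, ex_one]; omega
  · rw [ex_zero, ex_one]; omega

lemma G_s2 (h : G (sp (Hex d c b a)) s k) : G (sp (Hex d a b c)) s k := by
  refine expo _ _ 1 0 (-1) (-1) 0 d (by norm_num) (fun ν hν => ?_) h
  rw [mem_Hex] at hν
  refine ⟨ex (ν 0) (d - ν 0 - ν 1).toNat, ?_, ?_⟩
  · rw [mem_Hex, ex_zero, ex_one]; omega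
  · rw [ex_zero, ex_one]; omega

lemma G_cr (h : G (sp (Hex (2 * d - a - b - c) (d - b - c) (d - a - c) (d - a - b))) s k) :
    G (sp (Hex d a b c)) s k := by
  refine expo _ _ (-1) 0 0 (-1) (d - b) (d - c) (by norm_num) (fun ν hν => ?_) h
  rw [mem_Hex] at hν
  refine ⟨ex (d - b - ν 0).toNat (d - c - ν 1).toNat, ?_, ?_⟩
  · rw [mem_Hex, ex_zero, ex_one]; omega
  · rw [ex_zero, ex_one]; omega

lemma G_line (ha : 0 ≤ a) (h : G (sp (Hex d a 0 0)) s k) :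
    G (sp (Hex (d + 1) (a + 1) 0 0)) s (k + (d + 1 - a).toNat) := by
  classical
  have h1 : G (sp ((Hex (d + 1) (a + 1) 0 0).filter fun ν => 1 ≤ ν 0)) s k := by
    refine expo _ _ 1 0 0 1 (-1) 0 (by norm_num) (fun ν hν => ?_) h
    rw [Finset.mem_filter, mem_Hex] at hν
    refine ⟨ex (ν 0 - 1) (ν 1), ?_, ?_⟩
    · rw [mem_Hex, ex_zero, ex_one]; omega
    · rw [ex_zero, ex_one]; omega
  refine (h1.union ((Finset.Ico (a + 1).toNat (d + 2).toNat).image (ex 0)) ?_).mono le_rfl ?_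
  · intro ν hν
    rw [Finset.mem_union, Finset.mem_filter, Finset.mem_image]
    by_cases h0 : 1 ≤ ν 0
    · exact Or.inl ⟨hν, h0⟩
    · rw [mem_Hex] at hν
      exact Or.inr ⟨ν 1, by rw [Finset.mem_Ico]; omega, E_ext (by simp; omega) (by simp)⟩
  · have := Finset.card_image_le (s := Finset.Ico (a + 1).toNat (d + 2).toNat) (f := ex 0)
    rw [Nat.card_Ico] at this
    omega

end

/-- points in the affine plane with integer multiplicities -/
def GA {n : ℕ} (d : ℤ) (a : Fin n → ℤ) (k : ℕ) : Prop :=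
  G (sp (Hex d 0 0 0)) (fun i => (a i).toNat) k

lemma GA_hex {n k : ℕ} {d x y z : ℤ} {s : Fin n → ℤ} :
    GA d (Fin.cons x (Fin.cons y (Fin.cons z s)) : Fin (n + 3) → ℤ) k ↔
      G (sp (Hex d z x y)) (fun i => (s i).toNat) k := by
  unfold GA
  rw [G_origin]
  constructor
  · intro h
    exact G_origin.1 (G_s2 (G_origin.1 (G_s1 h)))
  · intro h
    exact G_s1 (G_origin.2 (G_s2 (G_origin.2 h)))

lemma GA_cremona {n k : ℕ} {d x y z : ℤ} {s : Fin n → ℤ}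
    (h : GA (2 * d - z - x - y)
      (Fin.cons (d - z - y) (Fin.cons (d - z - x) (Fin.cons (d - x - y) s)) : Fin (n + 3) → ℤ) k) :
    GA d (Fin.cons x (Fin.cons y (Fin.cons z s)) : Fin (n + 3) → ℤ) k :=
  GA_hex.2 (G_cr (GA_hex.1 h))

lemma GA_perm {n k : ℕ} {d : ℤ} {a : Fin n → ℤ} (σ : Equiv.Perm (Fin n)) (h : GA d (a ∘ σ) k) :
    GA d a k :=
  G.inj h σ σ.injective fun _ => le_rfl

end Pool.Agent.Lib.MP_d03834_ag
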