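import Pool.Agent.Lib.MP_d03834_ag.Nine

set_option autoImplicit false

open MvPolynomial Module Filter

namespace Pool.Agent.Lib.MP_d03834_ag

lemma mem_fat_of_le {p : Pt} {i : Fin 2} (hp : p i = 0) {j : ℕ} {g : R}
    (h : ∀ ν, coeff ν g ≠ 0 → j ≤ ν i) : g ∈ fat p j := by
  rw [g.as_sum]
  refine Submodule.sum_mem _ fun ν hν => ?_
  have h1 := h ν (mem_support_iff.1 hν)
  have : monomial ν (coeff ν g) = monomial (ν - Finsupp.single i j) (coeff ν g) * X i ^ j := by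
    rw [X_pow_eq_monomial, monomial_mul, mul_one]
    congr 2
    apply E_ext <;> fin_cases i <;> simp at h1 ⊢ <;> omega
  rw [this]
  exact fat_mul _ (Ideal.pow_mem_pow (by simp [RingHom.mem_ker, hp]) j)

lemma vandermonde (S : Finset E) {α : ℕ} (hS : ∀ ν ∈ S, ν 0 + ν 1 = α) (j : ℕ) :
    finrank ℂ ↥(sp S ⊓ fat 1 j) ≤ S.card - j := by
  classical
  obtain ⟨A, hA1, hA2⟩ := Finset.exists_subset_card_eq (s := S) (n := S.card - j) (by omega)
  have := finrank_le_coeffs (sp S ⊓ fat 1 j) ⊥ LinearMap.id A (fun f hf h0 => by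
    rw [Submodule.mem_bot]
    ext ν
    by_contra h
    have hν : coeff ν f ≠ 0 := by simpa using h
    have hνS : ν ∈ S \ A := Finset.mem_sdiff.2 ⟨mem_sp.1 hf.1 ν hν, fun h => hν (h0 ν h)⟩
    have h1 := euler_of_mem (PF.prod ((S \ A).erase ν) (fun β μ => (μ 1 : ℂ) - β 1)
      fun β _ => ⟨-β 1, 0, 1, fun μ => by ring⟩) (by
        have := Finset.card_pos.2 ⟨ν, hνS⟩
        rw [Finset.card_erase_of_mem hνS]
        rw [Finset.card_sdiff_of_subset hA1] at this ⊢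
        omega) hf.2
    rw [eval_act _ _ hf.1, Finset.sum_eq_single ν] at h1
    · simp only [mono, Pi.one_apply, one_pow, mul_one, mul_eq_zero, hν, false_or,
        Finset.prod_eq_zero_iff, sub_eq_zero, Nat.cast_inj] at h1
      obtain ⟨β, hβ, h2⟩ := h1
      rw [Finset.mem_erase, Finset.mem_sdiff] at hβ
      have := hS β hβ.2.1
      have := hS ν (Finset.mem_sdiff.1 hνS).1
      exact hβ.1 (E_ext (by omega) h2.symm)
    · intro μ hμ hne
      by_cases h2 : μ ∈ A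
      · simp [show coeff μ f = 0 from h0 μ h2]
      · rw [Finset.prod_eq_zero (i := μ) (by simp [hne, hμ, h2]) (by simp)]
        simp
    · intro h; exact absurd (Finset.mem_sdiff.1 hνS).1 h)
  rwa [inf_bot_eq, finrank_bot, zero_add, hA2] at this

lemma layerL (d : ℕ) {σ : ℤ} (hσ : σ = 1 ∨ σ = -1) (α j : ℕ) (W I K' : Submodule ℂ R)
    (hWd : W ≤ sp (tri (d + 1)))
    (hW : ∀ f ∈ W, ∀ ν, coeff ν f ≠ 0 → σ * α ≤ σ * (ν 0 + ν 1 : ℕ))
    (hI : ∀ f ∈ I, (∀ ν, coeff ν f ≠ 0 → ν 0 + ν 1 = α) → f ∈ fat 1 j)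
    (hK : ∀ f ∈ W, (∀ ν, coeff ν f ≠ 0 → σ * α < σ * (ν 0 + ν 1 : ℕ)) → f ∈ K') :
    ∀ᶠ t in cofinite,
      finrank ℂ ↥(W ⊓ I.comap (tw ![(d + 1) * σ, (d + 1) * σ + 1] t).toLinearMap) ≤
        max (finrank ℂ ↥(W ⊓ K')) (finrank ℂ W - j) := by
  classical
  have : FiniteDimensional ℂ W := Submodule.finiteDimensional_of_le hWd
  set w : Fin 2 → ℤ := ![(d + 1) * σ, (d + 1) * σ + 1] with hwdef
  have hw : ∀ ν : E, wt w ν = (d + 1) * (σ * (ν 0 + ν 1 : ℕ)) + ν 1 := by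
    intro ν; simp [wt, w]; ring
  obtain ⟨S, hSD, hS, h⟩ := formA w (tri (d + 1)) (by
    intro ν hν μ hμ h
    rw [hw, hw] at h
    have h1 := mem_tri.1 hν
    have h2 := mem_tri.1 hμ
    have := lex_eq (by omega) (by omega) h (by omega) (by omega)
    apply E_ext <;> rcases hσ with rfl | rfl <;> omega) W hWd
  filter_upwards [h I] with t ht
  let S1 := S.filter fun ν => ν 0 + ν 1 = α
  let S2 := S.filter fun ν => ¬ (ν 0 + ν 1 = α)
  have h1 : S1.card + S2.card = S.card := Finset.card_filter_add_card_filter_not _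
  have h2 := finrank_sp_inf_le S S1 S2 I (by
    rw [Finset.filter_union_filter_not_eq])
  have h3 : finrank ℂ ↥(sp S1 ⊓ I) ≤ S1.card - j := by
    refine le_trans (Submodule.finrank_mono ?_)
      (vandermonde S1 (fun ν hν => (Finset.mem_filter.1 hν).2) j)
    rintro f ⟨hf1, hf2⟩
    exact ⟨hf1, hI f hf2 fun ν hν => (Finset.mem_filter.1 (mem_sp.1 hf1 ν hν)).2⟩
  have h4 := card_ini_le w W S hS
  have h5 := card_ini_le w (W ⊓ K') S2 (by
    intro ν hν
    rw [Finset.mem_filter] at hν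
    obtain ⟨f, hf, hf1, hf2⟩ := hS ν hν.1
    refine ⟨f, ⟨hf, hK f hf fun μ hμ => ?_⟩, hf1, hf2⟩
    have e1 := hW f hf ν (by rw [hf1]; exact one_ne_zero)
    rcases hf2 μ hμ with rfl | e2
    · rcases hσ with rfl | rfl <;> omega
    · rw [hw, hw] at e2
      have e3 := mem_tri.1 (mem_sp.1 (hWd hf) μ hμ)
      have := lex_lt (by omega) (by omega) e2 (by omega)
      rcases hσ with rfl | rfl <;> omega)
  omega

/-- linear substitution -/
noncomputable def lin (a b : ℂ) : R →ₐ[ℂ] R := aeval ![X 0 + C a * X 1, X 1 + C b * X 0]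

/-- shear -/
noncomputable def sh (a b : ℂ) (h : a * b = 0) : R ≃ₐ[ℂ] R :=
  AlgEquiv.ofAlgHom (lin a b) (lin (-a) (-b))
    (by
      have h1 : (C a * C b : R) = 0 := by rw [← C_mul, h, C_0]
      ext i : 1
      fin_cases i
      · simp [lin]; linear_combination (-X 0) * h1
      · simp [lin]; linear_combination (-X 1) * h1)
    (by
      have h1 : (C a * C b : R) = 0 := by rw [← C_mul, h, C_0]
      ext i : 1
      fin_cases i
      · simp [lin]; linear_combination (-X 0) * h1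
      · simp [lin]; linear_combination (-X 1) * h1)

lemma supp_lin (a b : ℂ) (f : R) (μ : E) (h : coeff μ (lin a b f) ≠ 0) :
    ∃ ν, coeff ν f ≠ 0 ∧ μ 0 + μ 1 = ν 0 + ν 1 := by
  classical
  refine supp_map (lin a b) (fun ν μ => μ 0 + μ 1 = ν 0 + ν 1) (by simp)
    (fun ν μ ν' μ' h1 h2 => by simp only [Finsupp.add_apply]; omega) (fun i μ hμ => ?_) f μ h
  by_cases h1 : Finsupp.single 0 1 = μ
  · fin_cases i <;> simp [← h1]
  · by_cases h2 : Finsupp.single 1 1 = μ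
    · fin_cases i <;> simp [← h2]
    · fin_cases i <;> simp [lin, coeff_X, h1, h2] at hμ

lemma supp_sh (a b : ℂ) (hab : a * b = 0) (f : R) (μ : E) (h : coeff μ (sh a b hab f) ≠ 0) :
    ∃ ν, coeff ν f ≠ 0 ∧ μ 0 + μ 1 = ν 0 + ν 1 := supp_lin a b f μ h

lemma supp_sh' (a b : ℂ) (hab : a * b = 0) (f : R) (μ : E) (h : coeff μ f ≠ 0) :
    ∃ ν, coeff ν (sh a b hab f) ≠ 0 ∧ μ 0 + μ 1 = ν 0 + ν 1 := by
  refine supp_lin (-a) (-b) _ μ ?_
  have : lin (-a) (-b) (sh a b hab f) = f := (sh a b hab).symm_apply_apply f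
  rwa [this]

lemma pt_sh (a b : ℂ) (hab : a * b = 0) (p : Pt) :
    pt (sh a b hab : R →ₐ[ℂ] R) p = ![p 0 + a * p 1, p 1 + b * p 0] := by
  funext i
  fin_cases i <;> simp [pt, sh, lin]

/-- chart placing a partial fat point -/
noncomputable def chart (d : ℕ) (p : Pt) (t : ℂ) : R ≃ₐ[ℂ] R :=
  ((tr p).trans (tw ![(d + 1) * 1, (d + 1) * 1 + 1] t)).trans (sh 0 1 (zero_mul 1))

lemma mem_comap_equiv {φ : R ≃ₐ[ℂ] R} {I : Submodule ℂ R} {f : R} :
    f ∈ I.comap φ.toLinearMap ↔ φ f ∈ I := Iff.rfl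

lemma child_layer (d : ℕ) (p : Pt) {α j : ℕ} (hj : j ≤ α + 1) (W : Submodule ℂ R)
    (hW : W ≤ sp (tri (d + 1))) :
    ∀ᶠ t in cofinite, finrank ℂ ↥(W ⊓ (J (DN (T α + j))).comap (chart d p t).toLinearMap) ≤
      max (finrank ℂ ↥(W ⊓ fat p (α + 1))) (finrank ℂ ↥(W ⊓ fat p α) - j) := by
  have : FiniteDimensional ℂ W := Submodule.finiteDimensional_of_le hW
  have h := layerL d (Or.inl rfl) α j ((W ⊓ fat p α).map (tr p).toLinearMap)
    ((J (DN (T α + j))).comap (sh 0 1 (zero_mul 1)).toLinearMap) (fat 0 (α + 1)) (by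
      rintro _ ⟨f, hf, rfl⟩
      refine mem_sp.2 fun μ hμ => ?_
      obtain ⟨ν, h1, h2⟩ := supp_tr _ _ _ hμ
      have := mem_tri.1 (mem_sp.1 (hW hf.1) ν h1)
      rw [mem_tri]; omega) (by
      rintro _ ⟨f, hf, rfl⟩ ν hν
      have := mt (mem_fat.1 hf.2 ν) hν
      omega) (by
      intro f hf h0
      have h1 : sh 0 1 (zero_mul 1) f ∈ fat ![1, 0] j := mem_fat_of_le (i := 1) rfl fun μ hμ => by
        obtain ⟨ν, h1, h2⟩ := supp_sh _ _ _ _ _ hμ
        have h3 := h0 ν h1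
        have h4 := mt (mem_J.1 (mem_comap_equiv.1 hf) μ) hμ
        rw [mem_DN' hj] at h4
        omega
      rw [map_mem_fat_iff, pt_sh] at h1
      have e : (![![1, 0] 0 + 0 * ![1, 0] 1, ![1, 0] 1 + 1 * ![1, 0] 0] : Pt) = 1 := by
        funext i; fin_cases i <;> simp
      rwa [e] at h1) (by
      intro f _ h0
      refine mem_fat_origin.2 fun β hβ => ?_
      by_contra h
      have := h0 β h
      omega)
  filter_upwards [h] with t ht
  refine le_trans ?_ (ht.trans (max_le_max ?_ ?_))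
  · refine finrank_le_of_inj _ _ (tr p).toLinearMap (fun f _ h => by simpa using h)
      fun f hf => ?_
    have h0 := mem_comap_equiv.1 hf.2
    rw [chart, AlgEquiv.trans_apply, AlgEquiv.trans_apply] at h0
    refine ⟨⟨f, ⟨hf.1, mem_fat.2 fun β hβ => ?_⟩, rfl⟩,
      mem_comap_equiv.2 (mem_comap_equiv.2 h0)⟩
    by_contra h
    obtain ⟨ν, h1, h2⟩ := supp_sh' 0 1 (zero_mul 1) _ β
      (mt (coeff_tw_eq_zero ![(d + 1) * 1, (d + 1) * 1 + 1] t _ β).1 h)
    exact h1 (mem_J.1 h0 ν ((mem_DN' hj).2 (by omega)))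
  · refine finrank_le_of_inj _ _ (tr p).symm.toLinearMap (fun f _ h => by simpa using h) ?_
    rintro _ ⟨⟨f, hf, rfl⟩, h2⟩
    have h3 : tr p f ∈ fat 0 (α + 1) := h2
    rw [mem_fat_origin, ← mem_fat] at h3
    simpa using ⟨hf.1, h3⟩
  · gcongr
    exact Submodule.finrank_map_le _ _

/-- chart at infinity -/
noncomputable def chartInf (d : ℕ) (t : ℂ) : R ≃ₐ[ℂ] R :=
  (tw ![(d + 1) * (-1), (d + 1) * (-1) + 1] t).trans (sh 1 0 (mul_zero 1))

lemma parent_layer (d : ℕ) {j : ℕ} (hj : j ≤ d + 1) (W : Submodule ℂ R)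
    (hW : W ≤ sp (tri (d + 1))) :
    ∀ᶠ t in cofinite, finrank ℂ ↥(W ⊓ (sp (DN (T d + j))).comap (chartInf d t).toLinearMap) ≤
      max (finrank ℂ ↥(W ⊓ sp (tri d))) (finrank ℂ ↥(W ⊓ sp (tri (d + 1))) - (d + 1 - j)) := by
  have : FiniteDimensional ℂ W := Submodule.finiteDimensional_of_le hW
  have h := layerL d (Or.inr rfl) d (d + 1 - j) W
    ((sp (DN (T d + j))).comap (sh 1 0 (mul_zero 1)).toLinearMap) (sp (tri d)) hW (by
      intro f hf ν hν
      have := mem_tri.1 (mem_sp.1 (hW hf) ν hν)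
      omega) (by
      intro f hf h0
      have h1 : sh 1 0 (mul_zero 1) f ∈ fat ![0, 1] (d + 1 - j) :=
        mem_fat_of_le (i := 0) rfl fun μ hμ => by
          obtain ⟨ν, h1, h2⟩ := supp_sh _ _ _ _ _ hμ
          have h3 := h0 ν h1
          have h4 := mem_sp.1 (mem_comap_equiv.1 hf) μ hμ
          rw [mem_DN' hj] at h4
          omega
      rw [map_mem_fat_iff, pt_sh] at h1
      have e : (![![0, 1] 0 + 1 * ![0, 1] 1, ![0, 1] 1 + 0 * ![0, 1] 0] : Pt) = 1 := by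
        funext i; fin_cases i <;> simp
      rwa [e] at h1) (by
      intro f _ h0
      refine mem_sp.2 fun β hβ => mem_tri.2 ?_
      have := h0 β hβ
      omega)
  rw [inf_eq_left.2 hW]
  filter_upwards [h] with t ht
  refine le_trans (Submodule.finrank_mono ?_) ht
  rintro f ⟨h1, h2⟩
  have h0 := mem_comap_equiv.1 h2
  rw [chartInf, AlgEquiv.trans_apply] at h0
  exact ⟨h1, mem_comap_equiv.2 (mem_comap_equiv.2 h0)⟩

lemma parent_le (d : ℕ) {j : ℕ} (hj : j ≤ d + 1) (t : ℂ) :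
    (sp (DN (T d + j))).comap (chartInf d t).toLinearMap ≤ sp (tri (d + 1)) := by
  intro f hf
  refine mem_sp.2 fun β h => ?_
  obtain ⟨ν, h1, h2⟩ := supp_sh' 1 0 (mul_zero 1) _ β
    (mt (coeff_tw_eq_zero ![(d + 1) * (-1), (d + 1) * (-1) + 1] t _ β).1 h)
  have h0 := mem_comap_equiv.1 hf
  rw [chartInf, AlgEquiv.trans_apply] at h0
  have := (mem_DN' hj).1 (mem_sp.1 h0 ν h1)
  rw [mem_tri]; omega

/-- dimension -/
noncomputable def dm (W : Submodule ℂ R) : ℕ := finrank ℂ W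

lemma dm_def (W : Submodule ℂ R) : finrank ℂ W = dm W := rfl

lemma iInf_succ {n : ℕ} (X : Fin (n + 1) → Submodule ℂ R) :
    ⨅ i, X i = X 0 ⊓ ⨅ i : Fin n, X i.succ := by
  ext f
  simp [Fin.forall_fin_succ]

lemma interp (V : Submodule ℂ R) [FiniteDimensional ℂ V] (k0 : ℤ) (n : ℕ) :
    ∀ (A B : Fin n → Submodule ℂ R) (Tt : Fin n → ℂ → Submodule ℂ R) (g j : Fin n → ℕ),
      (∀ i, j i ≤ g i) →
      (∀ i, ∀ W ≤ V, ∀ᶠ t in cofinite, finrank ℂ ↥(W ⊓ Tt i t) ≤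
        max (finrank ℂ ↥(W ⊓ B i)) (finrank ℂ ↥(W ⊓ A i) - j i)) →
      ∀ (c : ℤ), ∀ W ≤ V, 0 ≤ k0 → (∀ ε : Fin n → Bool,
        (finrank ℂ ↥(W ⊓ ⨅ i, if ε i then B i else A i) : ℤ) ≤
          max k0 (c - (∑ i, if ε i then g i else 0 : ℕ))) →
      ∃ t : Fin n → ℂ, (finrank ℂ ↥(W ⊓ ⨅ i, Tt i (t i)) : ℤ) ≤ max k0 (c - (∑ i, j i : ℕ)) := by
  induction n with
  | zero =>
    intro A B Tt g j _ _ c W _ _ h
    have h1 := h default
    rw [dm_def] at h1
    exact ⟨0, by rw [dm_def]; simpa using h1⟩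
  | succ n ih =>
    intro A B Tt g j hjg hT c W hW hk h
    have h1 : ∀ᶠ t in cofinite, ∀ ε : Fin n → Bool, _ := eventually_all.2 fun ε =>
      hT 0 (W ⊓ ⨅ i : Fin n, if ε i then B i.succ else A i.succ) (inf_le_left.trans hW)
    obtain ⟨t0, ht0⟩ := h1.exists
    obtain ⟨t, ht⟩ := ih (fun i => A i.succ) (fun i => B i.succ) (fun i => Tt i.succ)
      (fun i => g i.succ) (fun i => j i.succ) (fun i => hjg _) (fun i => hT _) (c - j 0)
      (W ⊓ Tt 0 t0) (inf_le_left.trans hW) hk (fun ε => by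
        have h2 := ht0 ε
        have h3 := h (Fin.cons true ε)
        have h4 := h (Fin.cons false ε)
        rw [iInf_succ, Fin.sum_univ_succ] at h3 h4
        simp only [dm_def] at h2 h3 h4 ⊢
        simp only [Fin.cons_zero, Fin.cons_succ, if_true, Bool.false_eq_true, if_false] at h3 h4
        rw [inf_comm (B 0), ← inf_assoc] at h3
        rw [inf_comm (A 0), ← inf_assoc] at h4
        rw [inf_right_comm]
        have := hjg 0
        omega)
    refine ⟨Fin.cons t0 t, ?_⟩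
    rw [iInf_succ, Fin.sum_univ_succ, ← inf_assoc]
    simp only [dm_def, Fin.cons_zero, Fin.cons_succ] at ht ⊢
    omega

lemma glue_DN (V : Submodule ℂ R) [FiniteDimensional ℂ V] (φ : R ≃ₐ[ℂ] R) {m n N k : ℕ}
    (h : K m n (DN N) k) : ∃ Q' : Fin n → Pt, finrank ℂ ↥(V ⊓ II Q' fun _ => m) ≤
      finrank ℂ ↥(V ⊓ (J (DN N)).comap φ.toLinearMap) + k := by
  obtain ⟨Q, hQ⟩ := h
  obtain ⟨B, hB⟩ := exists_bound (DN N)
  obtain ⟨c, p, rfl, hp⟩ := exists_layer N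
  have hw : ∀ ν : E, wt ![B, B + 1] ν = B * ((ν 0 + ν 1 : ℕ) : ℤ) + ν 1 := by
    intro ν; simp [wt]; ring
  obtain ⟨Q', hQ'⟩ := glue_pts V φ (DN (T c + p)) ![B, B + 1] (by
    intro f _ μ _ hμ ν hν
    have h1 := hB ν hν
    rw [mem_DN' (by omega)] at hμ hν
    rw [hw, hw]
    have h2 := mul_cases (B := B) (by omega) (((μ 0 + μ 1 : ℕ) : ℤ) - (ν 0 + ν 1 : ℕ))
    rw [mul_sub] at h2
    omega) (fun _ => m) Q
  exact ⟨Q', hQ'.trans (by omega)⟩

lemma glue_all (m l : ℕ) : ∀ (W : Submodule ℂ R) [FiniteDimensional ℂ W]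
    (φ : Fin l → R ≃ₐ[ℂ] R) (n N k : Fin l → ℕ), (∀ i, K m (n i) (DN (N i)) (k i)) →
    ∃ Q : ∀ i, Fin (n i) → Pt, finrank ℂ ↥(W ⊓ ⨅ i, II (Q i) fun _ => m) ≤
      finrank ℂ ↥(W ⊓ ⨅ i, (J (DN (N i))).comap (φ i).toLinearMap) + ∑ i, k i := by
  induction l with
  | zero =>
    intro W _ φ n N k _
    exact ⟨fun i => i.elim0, by simp [dm_def]⟩
  | succ l ih =>
    intro W _ φ n N k h
    obtain ⟨Q, hQ⟩ := ih (W ⊓ (J (DN (N 0))).comap (φ 0).toLinearMap) (fun i => φ i.succ)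
      (fun i => n i.succ) (fun i => N i.succ) (fun i => k i.succ) fun i => h _
    obtain ⟨Q0, hQ0⟩ := glue_DN (W ⊓ ⨅ i, II (Q i) fun _ => m) (φ 0) (h 0)
    refine ⟨Fin.cons Q0 Q, ?_⟩
    rw [iInf_succ, iInf_succ, Fin.sum_univ_succ]
    simp only [dm_def, Fin.cons_zero, Fin.cons_succ] at hQ hQ0 ⊢
    rw [inf_comm (II Q0 _), ← inf_assoc, ← inf_assoc]
    rw [inf_right_comm] at hQ
    omega

end Pool.Agent.Lib.MP_d03834_ag
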