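import Pool.Agent.Lib.MP_d03834_ag.Euler

set_option autoImplicit false

open MvPolynomial Module Filter

namespace Pool.Agent.Lib.MP_d03834_ag

lemma G.mono {ι : Type*} {V V' : Submodule ℂ R} [FiniteDimensional ℂ V'] {a : ι → ℕ} {k k' : ℕ}
    (h : G V' a k') (hV : V ≤ V') (hk : k' ≤ k) : G V a k := by
  obtain ⟨P, hP⟩ := h
  exact ⟨P, (Submodule.finrank_mono (inf_le_inf_right _ hV)).trans (hP.trans hk)⟩

lemma G.inj {ι κ : Type*} {V : Submodule ℂ R} [FiniteDimensional ℂ V] {a : ι → ℕ} {b : κ → ℕ}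
    {k : ℕ} (h : G V a k) (f : ι → κ) (hf : Function.Injective f) (hab : ∀ i, a i ≤ b (f i)) :
    G V b k := by
  obtain ⟨P, hP⟩ := h
  refine ⟨Function.extend f P 0, le_trans (Submodule.finrank_mono (inf_le_inf_left _ ?_)) hP⟩
  intro g hg
  refine mem_II.2 fun i => ?_
  have := mem_II.1 hg (f i)
  rw [hf.extend_apply] at this
  exact fat_anti _ (hab i) this

lemma II_sum {ι κ : Type*} (P : ι → Pt) (Q : κ → Pt) (a : ι → ℕ) (b : κ → ℕ) :
    II (Sum.elim P Q) (Sum.elim a b) = II P a ⊓ II Q b := by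
  ext f
  simp [mem_II]

lemma glue_pts (V : Submodule ℂ R) [FiniteDimensional ℂ V] (φ : R ≃ₐ[ℂ] R) (S : Finset E)
    (w : Fin 2 → ℤ)
    (hV : ∀ f ∈ V, ∀ μ, coeff μ (φ f) ≠ 0 → μ ∉ S → ∀ ν ∈ S, wt w ν < wt w μ)
    {κ : Type*} (b : κ → ℕ) (Q : κ → Pt) :
    ∃ Q' : κ → Pt, finrank ℂ ↥(V ⊓ II Q' b) ≤
      finrank ℂ ↥(V ⊓ (J S).comap φ.toLinearMap) + finrank ℂ ↥(sp S ⊓ II Q b) := by
  obtain ⟨t, ht⟩ := (glue S w (V.map φ.toLinearMap) (by
    rintro _ ⟨f, hf, rfl⟩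
    exact hV f hf) (II Q b)).exists
  refine ⟨fun i => pt (φ.trans (tw w t)) (Q i), le_trans ?_ (ht.trans ?_)⟩
  · refine finrank_le_of_inj _ _ φ.toLinearMap (fun f _ h => by simpa using h) fun f hf =>
      ⟨⟨f, hf.1, rfl⟩, ?_⟩
    exact (map_mem_II_iff (φ.trans (tw w t)) Q b).2 hf.2
  · gcongr
    refine finrank_le_of_inj _ _ φ.symm.toLinearMap (fun f _ h => by simpa using h) ?_
    rintro _ ⟨⟨f, hf, rfl⟩, h2⟩
    simpa using ⟨hf, h2⟩

lemma G_cut {ι κ : Type*} (D D1 D2 : Finset E) (w : Fin 2 → ℤ) (θ : ℤ)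
    (h1 : ∀ ν ∈ D, wt w ν ≤ θ → ν ∈ D1) (h2 : ∀ ν ∈ D, θ < wt w ν → ν ∈ D2)
    {a : ι → ℕ} {b : κ → ℕ} {k1 k2 : ℕ} (g1 : G (sp D1) a k1) (g2 : G (sp D2) b k2) :
    G (sp D) (Sum.elim a b) (k1 + k2) := by
  classical
  obtain ⟨Q, hQ⟩ := g1
  obtain ⟨P, hP⟩ := g2
  obtain ⟨Q', hQ'⟩ := glue_pts (sp D ⊓ II P b) AlgEquiv.refl (D.filter (wt w · ≤ θ)) w (by
    intro f hf μ hμ hS ν hν
    have hD := mem_sp.1 hf.1 μ hμ
    simp only [Finset.mem_filter, hD, true_and, not_le] at hS hν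
    omega) a Q
  refine ⟨Sum.elim Q' P, ?_⟩
  rw [II_sum, inf_comm (II Q' a), ← inf_assoc, add_comm]
  refine hQ'.trans (add_le_add (le_trans (Submodule.finrank_mono ?_) hP)
    (le_trans (Submodule.finrank_mono (inf_le_inf_right _ (sp_mono ?_))) hQ))
  · rintro f ⟨⟨hf1, hf2⟩, hf3⟩
    refine ⟨mem_sp.2 fun ν hν => ?_, hf2⟩
    have hD := mem_sp.1 hf1 ν hν
    refine h2 ν hD ?_
    by_contra h
    exact hν (hf3 ν (Finset.mem_filter.2 ⟨hD, by omega⟩))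
  · intro ν hν
    exact h1 ν (Finset.mem_filter.1 hν).1 (Finset.mem_filter.1 hν).2

/-- `n` points of multiplicity `m` leave at most `k` sections -/
def K (m n : ℕ) (D : Finset E) (k : ℕ) : Prop := G (sp D) (fun _ : Fin n => m) k

lemma K_cut {m n1 n2 k1 k2 : ℕ} (D D1 D2 : Finset E) (w : Fin 2 → ℤ) (θ : ℤ)
    (h1 : ∀ ν ∈ D, wt w ν ≤ θ → ν ∈ D1) (h2 : ∀ ν ∈ D, θ < wt w ν → ν ∈ D2)
    (g1 : K m n1 D1 k1) (g2 : K m n2 D2 k2) : K m (n1 + n2) D (k1 + k2) :=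
  (G_cut D D1 D2 w θ h1 h2 g1 g2).inj finSumFinEquiv finSumFinEquiv.injective (by
    rintro (i | i) <;> simp)

lemma lex_lt {B x y u v : ℤ} (hu : 0 ≤ u) (hv : v < B) (h : B * x + u < B * y + v) (hv0 : 0 ≤ v) :
    x < y ∨ (x = y ∧ u < v) := by
  rcases lt_trichotomy x y with h1 | h1 | h1
  · exact Or.inl h1
  · subst h1; exact Or.inr ⟨rfl, by omega⟩
  · exfalso
    have : B * (y + 1) ≤ B * x := mul_le_mul_of_nonneg_left (by omega) (by omega)
    linarith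

lemma lex_eq {B x y u v : ℤ} (hu : 0 ≤ u) (hv : v < B) (h : B * x + u = B * y + v) (hv0 : 0 ≤ v)
    (hu1 : u < B) : x = y ∧ u = v := by
  rcases lt_trichotomy x y with h1 | h1 | h1
  · exfalso
    have : B * (x + 1) ≤ B * y := mul_le_mul_of_nonneg_left (by omega) (by omega)
    linarith
  · subst h1; exact ⟨rfl, by omega⟩
  · exfalso
    have : B * (y + 1) ≤ B * x := mul_le_mul_of_nonneg_left (by omega) (by omega)
    linarith

/-- number of exponents of degree `c` -/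
noncomputable def cnt (D : Finset E) (c : ℕ) : ℕ := (D.filter fun ν => ν 0 + ν 1 = c).card

lemma cnt_le {D : Finset E} {c u v : ℕ} (h : ∀ ν ∈ D, ν 0 + ν 1 = c → u ≤ ν 1 ∧ ν 1 < v) :
    cnt D c ≤ v - u := by
  refine le_trans (Finset.card_le_card fun ν hν => ?_) (card_layer_le c u v)
  rw [Finset.mem_filter] at hν
  exact mem_layer.2 ⟨hν.2, h ν hν.1 hν.2⟩

lemma cnt_pos {D : Finset E} {ν : E} (h : ν ∈ D) : cnt D (ν 0 + ν 1) ≠ 0 :=
  Finset.card_ne_zero.2 ⟨ν, Finset.mem_filter.2 ⟨h, rfl⟩⟩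

lemma exists_bound (D : Finset E) : ∃ B : ℕ, ∀ ν ∈ D, ν 1 < B :=
  ⟨D.sup (· 1) + 1, fun _ hν => Nat.lt_succ_of_le (Finset.le_sup (f := (· 1)) hν)⟩

/-- the removal pattern of one move -/
def pat (m π t : ℕ) : ℕ := if t = 0 then π else (m - t) + if t + π ≤ m then 1 else 0

lemma move_key {m π c0 : ℕ} {σ : ℤ} (hσ : σ = 1 ∨ σ = -1) (D : Finset E)
    (hD : ∀ ν ∈ D, 0 ≤ σ * ((c0 : ℤ) - (ν 0 + ν 1 : ℕ))) (hπ : π = m ∨ cnt D c0 ≤ π)
    (hπm : π ≤ m) {ν : E} (hν : ν ∈ D)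
    (hk : (D.filter fun μ => μ 0 + μ 1 = ν 0 + ν 1 ∧ ν 1 < μ 1).card <
      pat m π (σ * ((c0 : ℤ) - (ν 0 + ν 1 : ℕ))).toNat) :
    ∃ k q, PF k q ∧ k < m ∧ q ν ≠ 0 ∧ ∀ μ ∈ D,
      (σ * (ν 0 + ν 1 : ℕ) < σ * (μ 0 + μ 1 : ℕ) ∨ (μ 0 + μ 1 = ν 0 + ν 1 ∧ ν 1 < μ 1)) →
        q μ = 0 := by
  classical
  set A := D.filter fun μ => μ 0 + μ 1 = ν 0 + ν 1 ∧ ν 1 < μ 1 with hA
  obtain ⟨t, ht⟩ := Int.eq_ofNat_of_zero_le (hD ν hν)
  rw [ht, Int.toNat_natCast] at hk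
  let τ : E → ℂ := fun μ => ((σ * ((c0 : ℤ) - (μ 0 + μ 1 : ℕ)) : ℤ) : ℂ)
  have hτν : τ ν = t := by simp only [τ, ht]; simp
  have hvert : ∀ s : ℕ, Aff fun μ => τ μ - s := fun s =>
    ⟨σ * c0 - s, -σ, -σ, fun μ => by simp only [τ]; push_cast; ring⟩
  have hτ : ∀ μ ∈ D, σ * (ν 0 + ν 1 : ℕ) < σ * (μ 0 + μ 1 : ℕ) → ∃ s : ℕ, s < t ∧ τ μ = s ∧
      (s = 0 → μ 0 + μ 1 = c0) := by
    intro μ hμ h
    obtain ⟨s, hs⟩ := Int.eq_ofNat_of_zero_le (hD μ hμ)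
    refine ⟨s, ?_, by simp only [τ, hs]; simp, ?_⟩
    · rcases hσ with rfl | rfl <;> omega
    · rcases hσ with rfl | rfl <;> omega
  by_cases hc : t + A.card < m
  · refine ⟨_, _, (PF.prod (Finset.range t) (fun s μ => τ μ - s) fun s _ => hvert s).mul'
      (PF.prod A (fun β μ => (μ 1 : ℂ) - β 1) fun β _ => ⟨-β 1, 0, 1, fun μ => by ring⟩),
      by simpa using hc, ?_, ?_⟩
    · refine mul_ne_zero (Finset.prod_ne_zero_iff.2 fun s hs => ?_)
        (Finset.prod_ne_zero_iff.2 fun β hβ => ?_)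
      · rw [hτν, sub_ne_zero, Ne, Nat.cast_inj]
        simp at hs; omega
      · rw [sub_ne_zero, Ne, Nat.cast_inj]
        simp [hA] at hβ; omega
    · rintro μ hμ (h | h)
      · obtain ⟨s, hs1, hs2, _⟩ := hτ μ hμ h
        exact mul_eq_zero_of_left (Finset.prod_eq_zero (Finset.mem_range.2 hs1) (by simp [hs2])) _
      · exact mul_eq_zero_of_right _ (Finset.prod_eq_zero (i := μ) (by simp [hA, hμ, h]) (by simp))
  · have ht0 : t ≠ 0 := by
      rintro rfl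
      simp [pat] at hk; omega
    have htπ : t + π ≤ m ∧ t + A.card = m := by
      simp only [pat, if_neg ht0] at hk
      split_ifs at hk <;> omega
    have hbase : Fintype.card (D.filter fun ν => ν 0 + ν 1 = c0) ≤ A.card := by
      rw [Fintype.card_coe]
      have : cnt D c0 ≤ π := hπ.resolve_left (by omega)
      unfold cnt at this
      omega
    obtain ⟨e, he⟩ := Function.Embedding.exists_of_card_le_finset hbase
    let g : E → ℕ := Function.extend e (fun β => β.1 1) 0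
    have ht' : (t : ℂ) ≠ 0 := by exact_mod_cast ht0
    refine ⟨_, _, (PF.prod (Finset.Ico 1 t) (fun s μ => τ μ - s) fun s _ => hvert s).mul'
      (PF.prod A (fun β μ => ((μ 1 : ℂ) - β 1) * t - ((g β : ℂ) - β 1) * (t - τ μ)) fun β _ =>
        ⟨-β 1 * t - ((g β : ℂ) - β 1) * (t - σ * c0), -σ * ((g β : ℂ) - β 1),
          t - σ * ((g β : ℂ) - β 1), fun μ => by simp only [τ]; push_cast; ring⟩),
      by simp; omega, ?_, ?_⟩
    · refine mul_ne_zero (Finset.prod_ne_zero_iff.2 fun s hs => ?_)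
        (Finset.prod_ne_zero_iff.2 fun β hβ => ?_)
      · rw [hτν, sub_ne_zero, Ne, Nat.cast_inj]
        simp at hs; omega
      · rw [hτν, sub_self, mul_zero, sub_zero]
        refine mul_ne_zero ?_ ht'
        rw [sub_ne_zero, Ne, Nat.cast_inj]
        simp [hA] at hβ; omega
    · rintro μ hμ (h | h)
      · obtain ⟨s, hs1, hs2, hs3⟩ := hτ μ hμ h
        by_cases hs0 : s = 0
        · let β : (D.filter fun ν => ν 0 + ν 1 = c0) := ⟨μ, Finset.mem_filter.2 ⟨hμ, hs3 hs0⟩⟩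
          refine mul_eq_zero_of_right _ (Finset.prod_eq_zero (i := e β) (he ⟨β, rfl⟩) ?_)
          have : g (e β) = μ 1 := e.injective.extend_apply _ _ _
          rw [this, hs2, hs0]
          simp
        · exact mul_eq_zero_of_left
            (Finset.prod_eq_zero (Finset.mem_Ico.2 ⟨by omega, hs1⟩) (by simp [hs2])) _
      · refine mul_eq_zero_of_right _ (Finset.prod_eq_zero (i := μ) (by simp [hA, hμ, h]) ?_)
        have : τ μ = t := by rw [← hτν]; simp only [τ, h.1]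
        simp [this]

lemma move {m n π c0 k : ℕ} {σ : ℤ} (hσ : σ = 1 ∨ σ = -1) (D : Finset E)
    (hD : ∀ ν ∈ D, 0 ≤ σ * ((c0 : ℤ) - (ν 0 + ν 1 : ℕ))) (hπ : π = m ∨ cnt D c0 ≤ π)
    (hπm : π ≤ m)
    (h : ∀ D' ⊆ D, (∀ c, cnt D' c ≤ cnt D c - pat m π (σ * ((c0 : ℤ) - c)).toNat) → K m n D' k) :
    K m (n + 1) D k := by
  classical
  obtain ⟨B, hB⟩ := exists_bound D
  let w : Fin 2 → ℤ := ![B * σ, B * σ + 1]
  have hw : ∀ ν : E, wt w ν = B * (σ * (ν 0 + ν 1 : ℕ)) + ν 1 := by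
    intro ν; simp [wt, w]; ring
  obtain ⟨S, hSD, hS, hI⟩ := formA w D (by
    intro ν hν μ hμ h
    rw [hw, hw] at h
    have := lex_eq (by omega) (by exact_mod_cast hB μ hμ) h (by omega) (by exact_mod_cast hB ν hν)
    apply E_ext <;> rcases hσ with rfl | rfl <;> omega) (sp D ⊓ fat 1 m) inf_le_left
  have key : ∀ ν ∈ S, pat m π (σ * ((c0 : ℤ) - (ν 0 + ν 1 : ℕ))).toNat ≤
      (D.filter fun μ => μ 0 + μ 1 = ν 0 + ν 1 ∧ ν 1 < μ 1).card := by
    intro ν hν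
    by_contra hlt
    obtain ⟨k, q, hq, hk, hq0, hq1⟩ := move_key hσ D hD hπ hπm (hSD hν) (not_le.1 hlt)
    obtain ⟨f, hf, hf1, hf2⟩ := hS ν hν
    have h1 := euler_of_mem hq hk hf.2
    rw [eval_act _ _ hf.1, Finset.sum_eq_single ν] at h1
    · simp [hf1, mono, hq0] at h1
    · intro μ hμ hne
      by_cases h0 : coeff μ f = 0
      · simp [h0]
      · have h2 := (hf2 μ h0).resolve_left hne
        rw [hw, hw] at h2
        have := lex_lt (by omega) (by exact_mod_cast hB μ hμ) h2 (by omega)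
        rw [hq1 μ hμ (by rcases hσ with rfl | rfl <;> omega)]
        simp
    · intro h; exact absurd (hSD hν) h
  obtain ⟨Q, hQ⟩ := h S hSD (by
    intro c
    by_cases hne : (S.filter fun ν => ν 0 + ν 1 = c).Nonempty
    · obtain ⟨ν, hν, hmax⟩ := Finset.exists_max_image _ (· 1) hne
      rw [Finset.mem_filter] at hν
      have h1 := key ν hν.1
      rw [hν.2] at h1
      have h2 : (S.filter fun ν => ν 0 + ν 1 = c).card +
          (D.filter fun μ => μ 0 + μ 1 = c ∧ ν 1 < μ 1).card ≤ cnt D c := by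
        rw [← Finset.card_union_of_disjoint]
        · refine Finset.card_le_card fun μ hμ => ?_
          simp only [Finset.mem_union, Finset.mem_filter] at hμ ⊢
          rcases hμ with hμ | hμ
          · exact ⟨hSD hμ.1, hμ.2⟩
          · exact ⟨hμ.1, hμ.2.1⟩
        · rw [Finset.disjoint_left]
          intro μ hμ hμ'
          have := hmax μ hμ
          simp only [Finset.mem_filter] at hμ'
          omega
      unfold cnt at h2 ⊢
      omega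
    · rw [Finset.not_nonempty_iff_eq_empty] at hne
      simp [cnt, hne])
  obtain ⟨t, ht⟩ := (hI (II Q fun _ => m)).exists
  refine ⟨Fin.cons 1 fun i => pt (tw w t) (Q i), le_trans (Submodule.finrank_mono ?_) (ht.trans hQ)⟩
  rintro f ⟨hf1, hf2⟩
  refine ⟨⟨hf1, mem_II.1 hf2 0⟩, (map_mem_II_iff (tw w t) Q _).2 (mem_II.2 fun i => ?_)⟩
  exact mem_II.1 hf2 i.succ

end Pool.Agent.Lib.MP_d03834_ag
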