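import Pool.Agent.Lib.MP_d03834_ag.Hex

set_option autoImplicit false

open MvPolynomial Module Filter

namespace Pool.Agent.Lib.MP_d03834_ag

/-- twice the virtual dimension -/
def chi2 {n : ℕ} (d : ℤ) (a : Fin n → ℤ) : ℤ := (d + 1) * (d + 2) - ∑ i, a i * (a i + 1)

/-- anticanonical degree -/
def eta {n : ℕ} (d : ℤ) (a : Fin n → ℤ) : ℤ := 3 * d - ∑ i, a i

/-- regular classes -/
def RG {n : ℕ} (d : ℤ) (a : Fin n → ℤ) : Prop := ∃ k : ℕ, GA d a k ∧ 2 * (k : ℤ) ≤ chi2 d a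

lemma RG_up {n : ℕ} {d d' : ℤ} {a : Fin n → ℤ} (h : RG d a) (hd : 0 ≤ d) (hd' : d ≤ d') :
    RG d' a := by
  induction d', hd' using Int.leInduction with
  | base => exact h
  | succ e he ih =>
    obtain ⟨k, h1, h2⟩ := ih
    refine ⟨_, G.union (layer (e + 1).toNat 0 (e + 2).toNat) h1 ?_, ?_⟩
    · intro ν hν
      rw [Finset.mem_union, mem_layer, mem_Hex]
      rw [mem_Hex] at hν
      omega
    · have h3 := card_layer_le (e + 1).toNat 0 (e + 2).toNat
      have h4 : chi2 (e + 1) a = chi2 e a + 2 * (e + 2) := by unfold chi2; ring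
      omega

lemma two_T_toNat {x : ℤ} (hx : 0 ≤ x) : 2 * (T x.toNat : ℤ) = x * (x + 1) := by
  obtain ⟨y, rfl⟩ := Int.eq_ofNat_of_zero_le hx
  rw [Int.toNat_natCast]
  exact_mod_cast two_T y

lemma RG_down {n : ℕ} {d : ℤ} {a b : Fin n → ℤ} (h : RG d a) (h0 : ∀ i, 0 ≤ b i)
    (hb : ∀ i, b i ≤ a i) : RG d b := by
  obtain ⟨k, ⟨P, h1⟩, h2⟩ := h
  refine ⟨_, ⟨P, le_rfl⟩, ?_⟩
  have h3 := finrank_II_le (sp (Hex d 0 0 0)) P (a := fun i => (a i).toNat)
    (b := fun i => (b i).toNat) fun i => Int.toNat_le_toNat (hb i)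
  have h4 : 2 * ((∑ i, T (a i).toNat : ℕ) : ℤ) = ∑ i, a i * (a i + 1) := by
    push_cast
    rw [Finset.mul_sum]
    exact Finset.sum_congr rfl fun i _ => two_T_toNat ((h0 i).trans (hb i))
  have h5 : 2 * ((∑ i, T (b i).toNat : ℕ) : ℤ) = ∑ i, b i * (b i + 1) := by
    push_cast
    rw [Finset.mul_sum]
    exact Finset.sum_congr rfl fun i _ => two_T_toNat (h0 i)
  unfold chi2 at h2 ⊢
  omega

lemma RG_line {n : ℕ} {d x : ℤ} {s : Fin n → ℤ} (h : RG d (Fin.cons x s : Fin (n + 1) → ℤ))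
    (hx : 0 ≤ x) (hd : x ≤ d + 1) (u : ℕ) :
    RG (d + u) (Fin.cons (x + u) s : Fin (n + 1) → ℤ) := by
  induction u with
  | zero => simpa using h
  | succ u ih =>
    obtain ⟨k, h1, h2⟩ := ih
    have h3 := G_origin.2 (G_line (by omega) (G_origin.1 h1))
    push_cast
    rw [← add_assoc, ← add_assoc]
    refine ⟨_, h3, ?_⟩
    have : chi2 (d + u + 1) (Fin.cons (x + u + 1) s : Fin (n + 1) → ℤ) =
        chi2 (d + u) (Fin.cons (x + u) s : Fin (n + 1) → ℤ) + 2 * (d + u + 1 - (x + u)) := by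
      simp only [chi2, Fin.sum_univ_succ, Fin.cons_zero, Fin.cons_succ]
      ring
    omega

lemma chi2_perm {n : ℕ} (d : ℤ) (a : Fin n → ℤ) (σ : Equiv.Perm (Fin n)) :
    chi2 d (a ∘ σ) = chi2 d a := by
  unfold chi2
  rw [← Equiv.sum_comp σ (fun i => a i * (a i + 1))]
  rfl

lemma eta_perm {n : ℕ} (d : ℤ) (a : Fin n → ℤ) (σ : Equiv.Perm (Fin n)) :
    eta d (a ∘ σ) = eta d a := by
  unfold eta
  rw [← Equiv.sum_comp σ a]
  rfl

lemma RG_swap {n : ℕ} {d x y : ℤ} {s : Fin n → ℤ}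
    (h : RG d (Fin.cons x (Fin.cons y s) : Fin (n + 2) → ℤ)) :
    RG d (Fin.cons y (Fin.cons x s) : Fin (n + 2) → ℤ) := by
  have e : (Fin.cons x (Fin.cons y s) : Fin (n + 2) → ℤ) =
      (Fin.cons y (Fin.cons x s) : Fin (n + 2) → ℤ) ∘ Equiv.swap 0 1 := by
    funext i
    refine Fin.cases (by simp) (fun i => Fin.cases (by simp) (fun i => ?_) i) i
    rw [Function.comp_apply, Equiv.swap_apply_of_ne_of_ne (Fin.succ_ne_zero _)
      (by intro h; exact Fin.succ_ne_zero _ (Fin.succ_injective _ h))]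
    simp
  obtain ⟨k, h1, h2⟩ := h
  rw [e] at h1 h2
  exact ⟨k, GA_perm _ h1, by rwa [chi2_perm] at h2⟩

lemma squares' (m k : ℕ) : K m (k ^ 2) (DN (k ^ 2 * T m)) 0 := by
  rcases Nat.eq_zero_or_pos m with rfl | hm
  · have : DN (k ^ 2 * T 0) = ∅ := by
      rw [Finset.eq_empty_iff_forall_notMem]
      intro ν hν
      simpa [T] using mem_DN.1 hν
    rw [this]
    exact ⟨0, by simp [sp_empty]⟩
  · exact squares hm k

lemma RG_base (c : ℕ) : RG (3 * c) (fun _ : Fin 9 => (c : ℤ)) := by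
  have h := squares' c 3
  have e : 3 ^ 2 * T c = T (3 * c) + 3 * c := by
    have h1 := two_T c
    have h2 := two_T (3 * c)
    nlinarith
  rw [e] at h
  refine ⟨_, G.union (layer (3 * c) (3 * c) (3 * c + 1)) h ?_, ?_⟩
  · intro ν hν
    rw [Finset.mem_union, mem_layer, mem_DN' (by omega)]
    rw [mem_Hex] at hν
    omega
  · have h3 := card_layer_le (3 * c) (3 * c) (3 * c + 1)
    have h4 : chi2 (3 * c) (fun _ : Fin 9 => (c : ℤ)) = 2 := by
      simp [chi2]; ring
    omega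

lemma RG_standard {d x y z : ℤ} {s : Fin 6 → ℤ} (h0 : ∀ i, 0 ≤ s i) (h1 : ∀ i, s i ≤ z)
    (hz : 0 ≤ z) (hx : z ≤ x) (hy : z ≤ y) (hd : x + y + z ≤ d) :
    RG d (Fin.cons x (Fin.cons y (Fin.cons z s)) : Fin 9 → ℤ) := by
  obtain ⟨c, rfl⟩ := Int.eq_ofNat_of_zero_le hz
  obtain ⟨u, hu⟩ := Int.eq_ofNat_of_zero_le (sub_nonneg.2 hx)
  obtain ⟨v, hv⟩ := Int.eq_ofNat_of_zero_le (sub_nonneg.2 hy)
  have h := RG_base c
  have e : (fun _ : Fin 9 => (c : ℤ)) = Fin.cons (c : ℤ) (Fin.cons (c : ℤ) fun _ => (c : ℤ)) := by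
    funext i
    exact Fin.cases rfl (fun i => Fin.cases rfl (fun _ => rfl) i) i
  rw [e] at h
  have h2 := RG_line (RG_swap (RG_line h hz (by omega) v)) hz (by omega) u
  refine RG_down (RG_up h2 (by omega) (by omega)) ?_ ?_
  · intro i
    refine Fin.cases ?_ (fun i => Fin.cases ?_ (fun i => Fin.cases ?_ (fun i => ?_) i) i) i <;>
      simp only [Fin.cons_zero, Fin.cons_succ]
    · omega
    · omega
    · omega
    · exact h0 i
  · intro i
    refine Fin.cases ?_ (fun i => Fin.cases ?_ (fun i => Fin.cases ?_ (fun i => ?_) i) i) i <;>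
      simp only [Fin.cons_zero, Fin.cons_succ]
    · omega
    · omega
    · omega
    · exact h1 i

/-- the bounds on nine general points -/
def SB (d : ℤ) (a : Fin 9 → ℤ) : Prop :=
  ∃ k : ℕ, GA d a k ∧ (eta d a < 0 → k = 0) ∧
    2 * (k : ℤ) ≤ max 0 (chi2 d a + eta d a * (eta d a - 1)) ∧
    2 * (k : ℤ) ≤ max (2 * eta d a ^ 2) (chi2 d a)

lemma hodge (d : ℤ) (a : Fin 9 → ℤ) (i : Fin 9) :
    chi2 d a ≤ (eta d a + a i) ^ 2 + eta d a + 2 := by
  have h1 := sq_sum_le_card_mul_sum_sq (s := Finset.univ.erase i) (f := a)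
  have h2 := Finset.add_sum_erase Finset.univ a (Finset.mem_univ i)
  have h3 := Finset.add_sum_erase Finset.univ (fun j => a j ^ 2) (Finset.mem_univ i)
  have h4 : ∑ j, a j * (a j + 1) = ∑ j, a j ^ 2 + ∑ j, a j := by
    rw [← Finset.sum_add_distrib]
    exact Finset.sum_congr rfl fun j _ => by ring
  rw [Finset.card_erase_of_mem (Finset.mem_univ i)] at h1
  simp only [Finset.card_univ, Fintype.card_fin] at h1
  unfold chi2 eta
  rw [h4, ← h2, ← h3]
  generalize ∑ j ∈ Finset.univ.erase i, a j = S at *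
  generalize ∑ j ∈ Finset.univ.erase i, a j ^ 2 = Q at *
  push_cast at h1
  nlinarith [sq_nonneg (8 * d - 3 * S), sq_nonneg (a i)]

lemma SB_neg {d : ℤ} {a : Fin 9 → ℤ} (h : SB d (fun i => max (a i) 0)) : SB d a := by
  by_cases hn : ∀ i, 0 ≤ a i
  · simpa [hn] using h
  push Not at hn
  obtain ⟨i, hi⟩ := hn
  obtain ⟨k, h1, h2, h3, -⟩ := h
  let x : Fin 9 → ℤ := fun i => max (-a i) 0
  have hx : ∀ i, 0 ≤ x i := fun i => le_max_right _ _
  have e1 : eta d (fun i => max (a i) 0) = eta d a - ∑ i, x i := by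
    unfold eta
    rw [sub_sub, ← Finset.sum_add_distrib]
    congr 1
    exact Finset.sum_congr rfl fun i _ => by simp only [x]; omega
  have e2 : chi2 d (fun i => max (a i) 0) = chi2 d a + (∑ i, x i ^ 2 - ∑ i, x i) := by
    unfold chi2
    rw [← Finset.sum_sub_distrib, sub_add, ← Finset.sum_sub_distrib]
    congr 1
    refine Finset.sum_congr rfl fun i _ => ?_
    rcases le_total (a i) 0 with h | h
    · simp only [x, max_eq_right h, max_eq_left (neg_nonneg.2 h)]; ring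
    · simp only [x, max_eq_left h, max_eq_right (neg_nonpos.2 h)]; ring
  have e3 := Finset.sum_sq_le_sq_sum_of_nonneg (s := Finset.univ) (f := x) fun i _ => hx i
  have e4 : -a i ≤ ∑ i, x i :=
    (le_max_left _ _).trans (Finset.single_le_sum (f := x) (fun i _ => hx i) (Finset.mem_univ i))
  have e5 := hodge d a i
  rw [e1] at h2
  rw [e1, e2] at h3
  generalize ∑ i, x i = X at *
  generalize ∑ i, x i ^ 2 = Q at *
  have h1' : GA d a k := G.inj h1 id Function.injective_id fun i => by simp only [id]; omega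
  by_cases h4 : eta d a - X < 0
  · rw [h2 h4] at h1'
    exact ⟨0, h1', fun _ => rfl, by simp, by simp [sq_nonneg]⟩
  · unfold SB
    generalize eta d a = η at *
    generalize chi2 d a = χ at *
    have h5 : 2 * (k : ℤ) ≤ max 0 (χ + η * (η - 1)) :=
      h3.trans (max_le_max le_rfl (by nlinarith))
    refine ⟨k, h1', fun _ => by omega, h5, le_max_of_le_left ?_⟩
    have h6 : (η + a i) ^ 2 ≤ (η - 1) ^ 2 := by nlinarith
    have h7 : χ + η * (η - 1) ≤ 2 * η ^ 2 + 1 := by nlinarith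
    have h8 := sq_nonneg η
    omega

theorem nine_points (d : ℤ) (a : Fin 9 → ℤ) : SB d a := by
  obtain ⟨n, hn⟩ : ∃ n : ℕ, d < n := ⟨d.toNat + 1, by omega⟩
  induction n generalizing d a with
  | zero =>
    have : Hex d 0 0 0 = ∅ := by
      rw [Finset.eq_empty_iff_forall_notMem]
      intro ν hν
      rw [mem_Hex] at hν
      omega
    exact ⟨0, ⟨0, by simp [this, sp_empty]⟩, fun _ => rfl, by simp, by simp [sq_nonneg]⟩
  | succ n ih =>
    apply SB_neg
    have h0 : ∀ i, 0 ≤ (fun i => max (a i) 0) i := fun i => le_max_right _ _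
    generalize (fun i => max (a i) 0) = b at h0
    let σ := Tuple.sort (fun i => -b i)
    have hσ : Antitone (b ∘ σ) := fun i j h => neg_le_neg_iff.1 (Tuple.monotone_sort (fun i => -b i) h)
    suffices SB d (b ∘ σ) by
      obtain ⟨k, h1, h2⟩ := this
      rw [eta_perm, chi2_perm] at h2
      exact ⟨k, GA_perm σ h1, h2⟩
    have h1 : ∀ i, 0 ≤ (b ∘ σ) i := fun i => h0 _
    generalize b ∘ σ = c at hσ h1
    obtain ⟨x, y, z, s, rfl⟩ : ∃ (x y z : ℤ) (s : Fin 6 → ℤ),
        c = Fin.cons x (Fin.cons y (Fin.cons z s)) :=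
      ⟨c 0, c 1, c 2, fun i => c i.succ.succ.succ, by
        funext i
        exact Fin.cases rfl (fun i => Fin.cases rfl (fun i => Fin.cases rfl (fun _ => rfl) i) i) i⟩
    have hs0 : ∀ i, 0 ≤ s i := fun i => h1 i.succ.succ.succ
    have hs1 : ∀ i, s i ≤ z := fun i => hσ (show (2 : Fin 9) ≤ i.succ.succ.succ by
      rw [Fin.le_def]; simp)
    have hz : 0 ≤ z := h1 2
    have hx : z ≤ x := hσ (show (0 : Fin 9) ≤ 2 by decide)
    have hy : z ≤ y := hσ (show (1 : Fin 9) ≤ 2 by decide)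
    by_cases hd : x + y + z ≤ d
    · obtain ⟨k, h2, h3⟩ := RG_standard hs0 hs1 hz hx hy hd
      have h4 : 0 ≤ eta d (Fin.cons x (Fin.cons y (Fin.cons z s)) : Fin 9 → ℤ) := by
        have : ∑ i, s i ≤ _ := Finset.sum_le_card_nsmul Finset.univ s z fun i _ => hs1 i
        simp only [Finset.card_univ, Fintype.card_fin, nsmul_eq_mul] at this
        unfold eta
        rw [Fin.sum_univ_succ, Fin.sum_univ_succ, Fin.sum_univ_succ]
        simp only [Fin.cons_zero, Fin.cons_succ]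
        omega
      refine ⟨k, h2, fun _ => by omega, le_max_of_le_right ?_, le_max_of_le_right h3⟩
      generalize eta d (Fin.cons x (Fin.cons y (Fin.cons z s)) : Fin 9 → ℤ) = η at *
      rcases h4.eq_or_lt with h5 | h5
      · subst h5; omega
      · nlinarith
    · obtain ⟨k, h2, h3⟩ := ih (2 * d - z - x - y)
        (Fin.cons (d - z - y) (Fin.cons (d - z - x) (Fin.cons (d - x - y) s))) (by omega)
      have e1 : eta (2 * d - z - x - y) (Fin.cons (d - z - y) (Fin.cons (d - z - x)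
          (Fin.cons (d - x - y) s)) : Fin 9 → ℤ) =
          eta d (Fin.cons x (Fin.cons y (Fin.cons z s)) : Fin 9 → ℤ) := by
        unfold eta
        rw [Fin.sum_univ_succ, Fin.sum_univ_succ, Fin.sum_univ_succ,
          Fin.sum_univ_succ (n := 8), Fin.sum_univ_succ (n := 7), Fin.sum_univ_succ (n := 6)]
        simp only [Fin.cons_zero, Fin.cons_succ]
        ring
      have e2 : chi2 (2 * d - z - x - y) (Fin.cons (d - z - y) (Fin.cons (d - z - x)
          (Fin.cons (d - x - y) s)) : Fin 9 → ℤ) =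
          chi2 d (Fin.cons x (Fin.cons y (Fin.cons z s)) : Fin 9 → ℤ) := by
        unfold chi2
        rw [Fin.sum_univ_succ, Fin.sum_univ_succ, Fin.sum_univ_succ,
          Fin.sum_univ_succ (n := 8), Fin.sum_univ_succ (n := 7), Fin.sum_univ_succ (n := 6)]
        simp only [Fin.cons_zero, Fin.cons_succ]
        ring
      rw [e1, e2] at h3
      exact ⟨k, GA_cremona h2, h3⟩

end Pool.Agent.Lib.MP_d03834_ag
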