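import Pool.Agent.Lib.MP_d03834_ag.Layers

set_option autoImplicit false

open MvPolynomial Module Filter

namespace Pool.Agent.Lib.MP_d03834_ag

lemma Hex_eq_tri (d : ℕ) : Hex ((d : ℤ) - 1) 0 0 0 = tri d := by
  ext ν
  rw [mem_Hex, mem_tri]; omega

lemma node_core (m d j0 : ℕ) (hj0 : j0 ≤ d + 1) (α j n k : Fin 9 → ℕ) (hj : ∀ i, j i ≤ α i + 1)
    (hK : ∀ i, K m (n i) (DN (T (α i) + j i)) (k i)) (k0 c : ℤ) (hk0 : 0 ≤ k0)
    (h : ∀ (ε0 : Bool) (ε : Fin 9 → Bool), ∃ k' : ℕ,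
      G (sp (tri (if ε0 then d else d + 1))) (fun i => if ε i then α i + 1 else α i) k' ∧
      (k' : ℤ) ≤ max k0 (c - ((if ε0 then d + 1 else 0 : ℕ) +
        (∑ i, if ε i then α i + 1 else 0 : ℕ)))) :
    ∃ k' : ℕ, K m (∑ i, n i) (DN (T d + j0)) (k' + ∑ i, k i) ∧
      (k' : ℤ) ≤ max k0 (c - ((d + 1 - j0 : ℕ) + (∑ i, j i : ℕ))) := by
  choose k' hG hk' using h
  choose P0 hP0 using hG
  have h1 : ∀ᶠ P in gen (Fin 9), ∀ (ε0 : Bool) (ε : Fin 9 → Bool), _ :=
    eventually_all.2 fun ε0 => eventually_all.2 fun ε =>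
      gen_II (sp (tri (if ε0 then d else d + 1))) (fun i => if ε i then α i + 1 else α i) (P0 ε0 ε)
  obtain ⟨P, hP⟩ := h1.exists
  have h2 : ∀ᶠ t in cofinite, ∀ ε : Fin 9 → Bool, _ := eventually_all.2 fun ε =>
    parent_layer d hj0 (sp (tri (d + 1)) ⊓ II P fun i => if ε i then α i + 1 else α i) inf_le_left
  obtain ⟨t0, ht0⟩ := h2.exists
  set W := (sp (DN (T d + j0))).comap (chartInf d t0).toLinearMap with hWdef
  have hW : W ≤ sp (tri (d + 1)) := parent_le d hj0 t0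
  have : FiniteDimensional ℂ W := Submodule.finiteDimensional_of_le hW
  obtain ⟨t, ht⟩ := interp (sp (tri (d + 1))) k0 9 (fun i => fat (P i) (α i))
    (fun i => fat (P i) (α i + 1))
    (fun i t => (J (DN (T (α i) + j i))).comap (chart d (P i) t).toLinearMap)
    (fun i => α i + 1) j hj (fun i W hW => child_layer d (P i) (hj i) W hW)
    (c - (d + 1 - j0 : ℕ)) W hW hk0 (fun ε => by
      have e : (⨅ i, if ε i then fat (P i) (α i + 1) else fat (P i) (α i)) =
          II P fun i => if ε i then α i + 1 else α i := by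
        unfold II
        refine iInf_congr fun i => ?_
        beta_reduce
        split_ifs <;> rfl
      have a1 := ht0 ε
      have a2 := (hP true ε).trans (hP0 true ε)
      have a3 := (hP false ε).trans (hP0 false ε)
      have a4 := hk' true ε
      have a5 := hk' false ε
      simp only [dm_def, if_true, Bool.false_eq_true, if_false] at a1 a2 a3 a4 a5 ⊢
      rw [e]
      generalize (II P fun i => if ε i then α i + 1 else α i) = I at *
      have b1 : sp (tri (d + 1)) ⊓ I ⊓ W = W ⊓ I := by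
        rw [inf_right_comm, inf_eq_right.2 hW]
      have b2 : sp (tri (d + 1)) ⊓ I ⊓ sp (tri d) = sp (tri d) ⊓ I := by
        rw [inf_right_comm, inf_eq_right.2 (sp_mono fun ν hν => by
          rw [mem_tri] at hν ⊢; omega)]
      have b3 : sp (tri (d + 1)) ⊓ I ⊓ sp (tri (d + 1)) = sp (tri (d + 1)) ⊓ I := by
        rw [inf_right_comm, inf_idem]
      rw [b1, b2, b3] at a1
      omega)
  obtain ⟨Q, hQ⟩ := glue_all m 9 W (fun i => chart d (P i) (t i)) n (fun i => T (α i) + j i) k hK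
  refine ⟨finrank ℂ ↥(W ⊓ ⨅ i, (J (DN (T (α i) + j i))).comap (chart d (P i) (t i)).toLinearMap),
    ?_, by omega⟩
  have h3 : G (sp (DN (T d + j0))) (fun _ : (Σ i, Fin (n i)) => m)
      (finrank ℂ ↥(W ⊓ ⨅ i, (J (DN (T (α i) + j i))).comap (chart d (P i) (t i)).toLinearMap) +
        ∑ i, k i) := by
    refine ⟨fun x => pt (chartInf d t0).symm (Q x.1 x.2), le_trans ?_ hQ⟩
    refine finrank_le_of_inj _ _ (chartInf d t0).symm.toLinearMap
      (fun f _ h => by simpa using h) fun f hf => ⟨mem_comap_equiv.2 ?_, ?_⟩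
    · have : (chartInf d t0) ((chartInf d t0).symm.toLinearMap f) = f :=
        (chartInf d t0).apply_symm_apply f
      rw [this]
      exact hf.1
    · refine (Submodule.mem_iInf _).2 fun i => mem_II.2 fun x => ?_
      exact (map_mem_fat_iff (chartInf d t0).symm _ _).2 (mem_II.1 hf.2 ⟨i, x⟩)
  exact h3.inj finSigmaFinEquiv finSigmaFinEquiv.injective fun _ => le_rfl

lemma nine_nat (d : ℕ) (a : Fin 9 → ℕ) (e : ℕ) (he : 3 * d ≤ ∑ i, a i + e + 3) :
    ∃ k : ℕ, G (sp (tri d)) a k ∧ (k : ℤ) ≤ max 0 ((T d : ℤ) - (∑ i, T (a i) : ℕ) + e ^ 2) ∧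
      (k : ℤ) ≤ max ((e : ℤ) ^ 2) ((T d : ℤ) - (∑ i, T (a i) : ℕ)) := by
  obtain ⟨k, h1, h2, h3, h4⟩ := nine_points ((d : ℤ) - 1) (fun i => a i)
  have e1 : chi2 ((d : ℤ) - 1) (fun i => (a i : ℤ)) = 2 * ((T d : ℤ) - (∑ i, T (a i) : ℕ)) := by
    unfold chi2
    push_cast
    rw [mul_sub, Finset.mul_sum]
    congr 1
    · have : (2 * T d : ℤ) = d * (d + 1) := by exact_mod_cast two_T d
      rw [this]; ring
    · exact Finset.sum_congr rfl fun i _ => by exact_mod_cast (two_T (a i)).symm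
  have e2 : eta ((d : ℤ) - 1) (fun i => (a i : ℤ)) ≤ e := by
    unfold eta
    have : ((∑ i, a i : ℕ) : ℤ) = ∑ i, (a i : ℤ) := by push_cast; rfl
    rw [← this]
    omega
  rw [e1] at h3 h4
  unfold GA at h1
  rw [Hex_eq_tri] at h1
  generalize eta ((d : ℤ) - 1) (fun i => (a i : ℤ)) = η at *
  refine ⟨k, h1, ?_⟩
  by_cases h5 : η < 0
  · rw [h2 h5]
    exact ⟨le_max_left _ _, le_max_of_le_left (sq_nonneg _)⟩
  · have h6 : η ^ 2 ≤ (e : ℤ) ^ 2 := by nlinarith
    have h7 : η * (η - 1) ≤ 2 * (e : ℤ) ^ 2 := by nlinarith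
    omega

/-- the node lemma -/
theorem node (m d j0 e : ℕ) (hj0 : j0 ≤ d) (α j n k : Fin 9 → ℕ) (hj : ∀ i, j i ≤ α i)
    (hK : ∀ i, K m (n i) (DN (T (α i) + j i)) (k i)) (he : 3 * d ≤ ∑ i, α i + e) :
    K m (∑ i, n i) (DN (T d + j0)) ((T d + j0 + e ^ 2 - ∑ i, (T (α i) + j i)) + ∑ i, k i) ∧
    K m (∑ i, n i) (DN (T d + j0))
      (max (e ^ 2) (T d + j0 - ∑ i, (T (α i) + j i)) + ∑ i, k i) := by
  have hs : ∀ ε : Fin 9 → Bool, ∑ i, T (if ε i then α i + 1 else α i) =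
      ∑ i, T (α i) + ∑ i, if ε i then α i + 1 else 0 := by
    intro ε
    rw [← Finset.sum_add_distrib]
    refine Finset.sum_congr rfl fun i _ => ?_
    split_ifs
    · rfl
    · rfl
  have hs' : ∀ ε : Fin 9 → Bool, ∑ i, α i ≤ ∑ i, if ε i then α i + 1 else α i :=
    fun ε => Finset.sum_le_sum fun i _ => by split_ifs <;> omega
  have hT := T_succ d
  have he2 : ((e ^ 2 : ℕ) : ℤ) = (e : ℤ) ^ 2 := by push_cast; rfl
  rw [Finset.sum_add_distrib]
  constructor
  · obtain ⟨k', h1, h2⟩ := node_core m d j0 (by omega) α j n k (fun i => (hj i).trans (by omega))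
      hK 0 ((T (d + 1) : ℤ) - (∑ i, T (α i) : ℕ) + e ^ 2) le_rfl (fun ε0 ε => by
        obtain ⟨k', h1, h2, -⟩ := nine_nat (if ε0 then d else d + 1)
          (fun i => if ε i then α i + 1 else α i) e (by have := hs' ε; split_ifs <;> omega)
        refine ⟨k', h1, ?_⟩
        rw [hs] at h2
        cases ε0 <;> simp only [if_true, Bool.false_eq_true, if_false] at h2 ⊢ <;> omega)
    exact G.mono h1 le_rfl (by omega)
  · obtain ⟨k', h1, h2⟩ := node_core m d j0 (by omega) α j n k (fun i => (hj i).trans (by omega))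
      hK (e ^ 2) ((T (d + 1) : ℤ) - (∑ i, T (α i) : ℕ)) (sq_nonneg _) (fun ε0 ε => by
        obtain ⟨k', h1, -, h2⟩ := nine_nat (if ε0 then d else d + 1)
          (fun i => if ε i then α i + 1 else α i) e (by have := hs' ε; split_ifs <;> omega)
        refine ⟨k', h1, ?_⟩
        rw [hs] at h2
        cases ε0 <;> simp only [if_true, Bool.false_eq_true, if_false] at h2 ⊢ <;> omega)
    exact G.mono h1 le_rfl (by omega)

end Pool.Agent.Lib.MP_d03834_ag
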