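import Pool.Agent.Lib.MP_d03834_ag.Basic

set_option autoImplicit false

open MvPolynomial Module Filter

namespace Pool.Agent.Lib.MP_d03834_ag

lemma semicont {T V W : Type*} [AddCommGroup V] [Module ℂ V] [FiniteDimensional ℂ V]
    [AddCommGroup W] [Module ℂ W] (A : Subalgebra ℂ (T → ℂ)) (M : T → V →ₗ[ℂ] W)
    (hM : ∀ (v : V) (l : W →ₗ[ℂ] ℂ), (fun t => l (M t v)) ∈ A) (t0 : T) :
    ∃ g ∈ A, g t0 = 1 ∧ ∀ t, g t ≠ 0 →
      finrank ℂ (LinearMap.ker (M t)) ≤ finrank ℂ (LinearMap.ker (M t0)) := by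
  classical
  obtain ⟨U, hU⟩ := (LinearMap.ker (M t0)).exists_isCompl
  have hker : LinearMap.ker ((M t0).comp U.subtype) = ⊥ := by
    rw [LinearMap.ker_eq_bot']
    intro u hu
    have h1 : (u : V) ∈ LinearMap.ker (M t0) ⊓ U := ⟨by simpa using hu, u.2⟩
    rw [hU.inf_eq_bot] at h1
    exact Subtype.ext (by simpa using h1)
  obtain ⟨L, hL⟩ := ((M t0).comp U.subtype).exists_leftInverse_of_injective hker
  let b := Module.finBasis ℂ U
  let N : T → U →ₗ[ℂ] U := fun t => L.comp ((M t).comp U.subtype)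
  refine ⟨fun t => (LinearMap.toMatrix b b (N t)).det, ?_, ?_, ?_⟩
  · have : (fun t => (LinearMap.toMatrix b b (N t)).det) =
        ∑ σ : Equiv.Perm (Fin (finrank ℂ U)), ((Equiv.Perm.sign σ : ℤ) : ℂ) •
          ∏ i, (fun t => ((b.coord (σ i)).comp L) (M t (b i))) := by
      funext t
      rw [Matrix.det_apply']
      simp [LinearMap.toMatrix_apply, N]
    rw [this]
    exact A.sum_mem fun σ _ => A.smul_mem (A.prod_mem fun i _ => hM _ _) _
  · simp [N, hL]
  · intro t ht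
    have h1 : LinearMap.ker (N t) = ⊥ := by
      rw [← LinearMap.isUnit_iff_ker_eq_bot, LinearMap.isUnit_iff_isUnit_det,
        ← LinearMap.det_toMatrix b]
      exact isUnit_iff_ne_zero.2 ht
    have h2 : Disjoint (LinearMap.ker (M t)) U := by
      rw [Submodule.disjoint_def]
      intro x hx hxU
      have : (⟨x, hxU⟩ : U) ∈ LinearMap.ker (N t) := by
        have hx' : M t x = 0 := hx
        simp [N, hx']
      rw [h1] at this
      simpa using this
    have h3 := Submodule.finrank_add_finrank_le_of_disjoint h2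
    have h4 := Submodule.finrank_add_eq_of_isCompl hU
    omega

lemma semicont_pi {T V K : Type*} [AddCommGroup V] [Module ℂ V] [FiniteDimensional ℂ V]
    [Fintype K] (A : Subalgebra ℂ (T → ℂ)) (M : T → V →ₗ[ℂ] (K → ℂ))
    (hM : ∀ (v : V) (k : K), (fun t => M t v k) ∈ A) (t0 : T) :
    ∃ g ∈ A, g t0 = 1 ∧ ∀ t, g t ≠ 0 →
      finrank ℂ (LinearMap.ker (M t)) ≤ finrank ℂ (LinearMap.ker (M t0)) := by
  classical
  refine semicont A M (fun v l => ?_) t0
  have : (fun t => l (M t v)) = ∑ k, (l (fun j => if k = j then 1 else 0)) • (fun t => M t v k) := by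
    funext t
    rw [LinearMap.pi_apply_eq_sum_univ]
    simp [mul_comm]
  rw [this]
  exact A.sum_mem fun k _ => A.smul_mem (hM v k) _

/-- the filter of Zariski dense open sets of configurations -/
def gen (ι : Type*) : Filter (ι → Pt) where
  sets := {s | ∃ F : MvPolynomial (ι × Fin 2) ℂ, F ≠ 0 ∧
    ∀ P : ι → Pt, eval (fun ij : ι × Fin 2 => P ij.1 ij.2) F ≠ 0 → P ∈ s}
  univ_sets := ⟨1, one_ne_zero, fun _ _ => trivial⟩
  sets_of_superset := by
    rintro s t ⟨F, hF, h⟩ hst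
    exact ⟨F, hF, fun P hP => hst (h P hP)⟩
  inter_sets := by
    rintro s t ⟨F, hF, h⟩ ⟨G, hG, h'⟩
    refine ⟨F * G, mul_ne_zero hF hG, fun P hP => ?_⟩
    rw [map_mul] at hP
    exact ⟨h P (left_ne_zero_of_mul hP), h' P (right_ne_zero_of_mul hP)⟩

lemma eventually_gen {ι : Type*} {p : (ι → Pt) → Prop} : (∀ᶠ P in gen ι, p P) ↔
    ∃ F : MvPolynomial (ι × Fin 2) ℂ, F ≠ 0 ∧
      ∀ P : ι → Pt, eval (fun ij : ι × Fin 2 => P ij.1 ij.2) F ≠ 0 → p P := Iff.rfl

instance gen_neBot (ι : Type*) : (gen ι).NeBot := by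
  refine ⟨fun h => ?_⟩
  have : ∀ᶠ P in gen ι, False := by rw [h]; simp
  obtain ⟨F, hF, h1⟩ := eventually_gen.1 this
  apply hF
  apply MvPolynomial.funext
  intro x
  by_contra h2
  exact h1 (fun i j => x (i, j)) (by simpa using h2)

lemma gen_torus (ι : Type*) [Finite ι] : ∀ᶠ P in gen ι, ∀ i j, P i j ≠ 0 := by
  simp only [eventually_all]
  intro i j
  exact eventually_gen.2 ⟨X (i, j), X_ne_zero _, fun P hP => by simpa using hP⟩

/-- polynomial functions of a configuration -/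
noncomputable def polyA (ι : Type*) : Subalgebra ℂ ((ι → Pt) → ℂ) :=
  (aeval (fun ij : ι × Fin 2 => fun P : ι → Pt => P ij.1 ij.2) :
    MvPolynomial (ι × Fin 2) ℂ →ₐ[ℂ] ((ι → Pt) → ℂ)).range

lemma aeval_apply_eq {ι : Type*} (F : MvPolynomial (ι × Fin 2) ℂ) (P : ι → Pt) :
    (aeval (fun ij : ι × Fin 2 => fun P : ι → Pt => P ij.1 ij.2) F) P =
      eval (fun ij : ι × Fin 2 => P ij.1 ij.2) F := by
  induction F using MvPolynomial.induction_on with
  | C a => simp
  | add p q hp hq => simp [hp, hq]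
  | mul_X q i hq => simp [hq]

lemma gen_of_polyA {ι : Type*} {g : (ι → Pt) → ℂ} (hg : g ∈ polyA ι) {P0 : ι → Pt}
    (h0 : g P0 = 1) : ∀ᶠ P in gen ι, g P ≠ 0 := by
  obtain ⟨F, rfl⟩ := hg
  refine eventually_gen.2 ⟨F, ?_, fun P hP => ?_⟩
  · rintro rfl
    simp at h0
  · simpa [aeval_apply_eq] using hP

lemma coeff_tr_poly {ι : Type*} (i : ι) (f : R) (β : E) :
    (fun P : ι → Pt => coeff β (tr (P i) f)) ∈ polyA ι := by
  classical
  induction f using MvPolynomial.induction_on generalizing β with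
  | C a =>
    simp only [tr_C]
    exact (polyA ι).algebraMap_mem _
  | add p q hp hq =>
    simp only [map_add, coeff_add]
    exact (polyA ι).add_mem (hp β) (hq β)
  | mul_X q j hq =>
    simp only [map_mul, tr_X, mul_add, coeff_add, coeff_mul_X', mul_comm _ (C _), coeff_C_mul]
    refine (polyA ι).add_mem ?_ ((polyA ι).mul_mem ⟨X (i, j), by funext P; simp⟩ (hq β))
    split_ifs
    · exact hq _
    · exact (polyA ι).zero_mem

/-- monomials of degree less than `c` -/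
noncomputable def tri (c : ℕ) : Finset E := (Finset.range c).biUnion fun a => layer a 0 (a + 1)

lemma mem_tri {c : ℕ} {ν : E} : ν ∈ tri c ↔ ν 0 + ν 1 < c := by
  simp only [tri, Finset.mem_biUnion, Finset.mem_range, mem_layer]
  constructor
  · rintro ⟨a, h1, h2, _, _⟩; omega
  · intro h; exact ⟨_, h, rfl, by omega, by omega⟩

lemma gen_II {ι : Type*} [Fintype ι] (V : Submodule ℂ R) [FiniteDimensional ℂ V] (a : ι → ℕ)
    (P0 : ι → Pt) :
    ∀ᶠ P in gen ι, finrank ℂ ↥(V ⊓ II P a) ≤ finrank ℂ ↥(V ⊓ II P0 a) := by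
  let M : (ι → Pt) → V →ₗ[ℂ] ((Σ i : ι, tri (a i)) → ℂ) := fun P =>
    LinearMap.pi fun k => (lcoeff ℂ k.2.1).comp ((tr (P k.1)).toLinearMap.comp V.subtype)
  have hker : ∀ P, finrank ℂ (LinearMap.ker (M P)) = finrank ℂ ↥(V ⊓ II P a) := by
    intro P
    rw [← Submodule.finrank_map_subtype_eq]
    have : Submodule.map V.subtype (LinearMap.ker (M P)) = V ⊓ II P a := by
      ext f
      simp only [Submodule.mem_map, LinearMap.mem_ker, Submodule.mem_inf, mem_II, mem_fat]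
      constructor
      · rintro ⟨g, hg, rfl⟩
        refine ⟨g.2, fun i β hβ => ?_⟩
        have := congrFun hg ⟨i, ⟨β, mem_tri.2 hβ⟩⟩
        simpa [M] using this
      · rintro ⟨h1, h2⟩
        refine ⟨⟨f, h1⟩, ?_, rfl⟩
        funext k
        simpa [M] using h2 k.1 k.2.1 (mem_tri.1 k.2.2)
    rw [this]
  obtain ⟨g, hg, h0, h⟩ := semicont_pi (polyA ι) M
    (fun v k => by simpa [M] using coeff_tr_poly k.1 (v : R) k.2.1) P0
  filter_upwards [gen_of_polyA hg h0] with P hP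
  rw [← hker, ← hker]
  exact h P hP

lemma exists_torus {ι : Type*} [Fintype ι] (V : Submodule ℂ R) [FiniteDimensional ℂ V]
    (a : ι → ℕ) (P0 : ι → Pt) :
    ∃ P : ι → Pt, (∀ i j, P i j ≠ 0) ∧ finrank ℂ ↥(V ⊓ II P a) ≤ finrank ℂ ↥(V ⊓ II P0 a) :=
  ((gen_torus ι).and (gen_II V a P0)).exists

end Pool.Agent.Lib.MP_d03834_ag
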