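import Pool.Agent.Lib.MP_d03834_ag.Sweep

set_option autoImplicit false

open MvPolynomial Module Filter

namespace Pool.Agent.Lib.MP_d03834_ag

/-- triangular numbers -/
def T : ℕ → ℕ
  | 0 => 0
  | c + 1 => T c + (c + 1)

lemma T_succ (c : ℕ) : T (c + 1) = T c + (c + 1) := rfl

lemma two_T (c : ℕ) : 2 * T c = c * (c + 1) := by
  induction c with
  | zero => rfl
  | succ c ih => rw [T_succ, mul_add, ih]; ring

lemma T_add (b w : ℕ) : T (b + w) = T b + b * w + T w := by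
  have h1 := two_T (b + w)
  have h2 := two_T b
  have h3 := two_T w
  nlinarith

lemma T_mono {a b : ℕ} (h : a ≤ b) : T a ≤ T b := by
  obtain ⟨w, rfl⟩ := Nat.exists_eq_add_of_le h
  rw [T_add]; omega

lemma le_T (c : ℕ) : c ≤ T c := by
  cases c with
  | zero => simp
  | succ c => rw [T_succ]; omega

lemma choose_eq_T (c : ℕ) : (c + 1).choose 2 = T c := by
  have := two_T c
  rw [Nat.choose_two_right]
  simp only [Nat.add_sub_cancel]
  rw [mul_comm, ← this]; simp

lemma exists_layer (N : ℕ) : ∃ c p, T c + p = N ∧ p ≤ c := by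
  induction N with
  | zero => exact ⟨0, 0, rfl, le_rfl⟩
  | succ N ih =>
    obtain ⟨c, p, h1, h2⟩ := ih
    rcases h2.lt_or_eq with h | h
    · exact ⟨c, p + 1, by omega, h⟩
    · exact ⟨c + 1, 0, by rw [T_succ]; omega, by omega⟩

lemma le_of_T_le {a c p : ℕ} (hp : p ≤ c) (h : T a ≤ T c + p) : a ≤ c := by
  by_contra h1
  have := T_mono (show c + 1 ≤ a by omega)
  rw [T_succ] at this
  omega

/-- position of a monomial in the graded order -/
def idx (ν : E) : ℕ := T (ν 0 + ν 1) + ν 1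

lemma idx_lt_iff {c p : ℕ} (hp : p ≤ c + 1) (ν : E) :
    idx ν < T c + p ↔ ν 0 + ν 1 < c ∨ (ν 0 + ν 1 = c ∧ ν 1 < p) := by
  unfold idx
  rcases lt_trichotomy (ν 0 + ν 1) c with h | h | h
  · have := T_mono (show ν 0 + ν 1 + 1 ≤ c from h)
    rw [T_succ] at this
    omega
  · rw [h]; omega
  · have := T_mono (show c + 1 ≤ ν 0 + ν 1 from h)
    rw [T_succ] at this
    omega

lemma idx_inj : Function.Injective idx := by
  intro ν μ h
  have h1 := (idx_lt_iff (c := μ 0 + μ 1) (p := μ 1) (by omega) ν).not.1 (by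
    rw [h]; simp [idx])
  have h2 := (idx_lt_iff (c := ν 0 + ν 1) (p := ν 1) (by omega) μ).not.1 (by
    rw [← h]; simp [idx])
  exact E_ext (by omega) (by omega)

/-- the first `N` monomials -/
noncomputable def DN (N : ℕ) : Finset E := (tri (N + 1)).filter fun ν => idx ν < N

lemma mem_DN {N : ℕ} {ν : E} : ν ∈ DN N ↔ idx ν < N := by
  rw [DN, Finset.mem_filter, mem_tri, and_iff_right_iff_imp]
  intro h
  have := le_T (ν 0 + ν 1)
  unfold idx at h
  omega

lemma mem_DN' {c p : ℕ} (hp : p ≤ c + 1) {ν : E} :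
    ν ∈ DN (T c + p) ↔ ν 0 + ν 1 < c ∨ (ν 0 + ν 1 = c ∧ ν 1 < p) := by
  rw [mem_DN, idx_lt_iff hp]

lemma DN_T (c : ℕ) : DN (T c) = tri c := by
  ext ν
  have := mem_DN' (c := c) (p := 0) (by omega) (ν := ν)
  rw [add_zero] at this
  rw [this, mem_tri]; omega

lemma cnt_ne {D : Finset E} {c : ℕ} (h : cnt D c ≠ 0) : ∃ ν ∈ D, ν 0 + ν 1 = c := by
  obtain ⟨ν, hν⟩ := Finset.card_ne_zero.1 h
  exact ⟨ν, Finset.mem_filter.1 hν⟩

lemma stripA {m k b y0 p q κ : ℕ} (hm : 0 < m) (hκ : κ + b + 1 = k * (m + 1)) (hq : y0 + q = b + 1)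
    (hpq : p + q = m * κ) (hκk : κ ≤ k) (D : Finset E)
    (H : ∀ ν ∈ D, (b < ν 0 + ν 1 ∨ (ν 0 + ν 1 = b ∧ y0 ≤ ν 1)) ∧
      (ν 0 + ν 1 < b + m + 1 ∨ (ν 0 + ν 1 = b + m + 1 ∧ ν 1 < p))) : K m (k + (k + 1)) D 0 := by
  have hk : m * κ ≤ k * m := by nlinarith
  refine twoSweep (σ := 1) (c0 := b + m + 1) (c1 := b) (W := m + 1) (p := p) (q := q)
    (Or.inl rfl) (by push_cast; ring) (by omega) (cnt D) (by omega)
    ⟨k, Or.inr le_rfl, by rw [add_mul]; omega⟩ (fun c hc => ?_) D fun _ => le_rfl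
  obtain ⟨ν, hν, hνc⟩ := cnt_ne hc
  have h1 := H ν hν
  refine ⟨b + m + 1 - c, by omega, ?_⟩
  by_cases h2 : c = b + m + 1
  · refine Or.inl ⟨by omega, ?_⟩
    exact cnt_le (u := 0) (v := p) fun μ hμ h => by have := H μ hμ; omega
  by_cases h3 : c = b
  · refine Or.inr (Or.inl ⟨by omega, k + 1, Or.inr le_rfl, ?_⟩)
    have := cnt_le (D := D) (c := c) (u := y0) (v := b + 1) fun μ hμ h => by
      have := H μ hμ; omega
    omega
  · obtain ⟨t, ht⟩ : ∃ t, b + m + 1 - c = t + 1 := ⟨b + m - c, by omega⟩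
    obtain ⟨z, hz⟩ : ∃ z, m = t + 1 + z := ⟨m - t - 1, by omega⟩
    have h4 := Nat.div_add_mod (p + t) m
    have h5 := Nat.mod_lt (p + t) hm
    set g := (p + t) / m
    have hg : g ≤ κ := by
      by_contra h
      have : m * (κ + 1) ≤ m * g := Nat.mul_le_mul_left _ (by omega)
      rw [mul_add] at this
      omega
    obtain ⟨g', rfl⟩ := Nat.exists_eq_add_of_le hg
    rw [mul_add] at hpq
    refine Or.inr (Or.inr ⟨by omega, by omega, g, g', Or.inl ⟨?_, by omega⟩,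
      Or.inl ⟨?_, by omega⟩, ?_⟩)
    · rw [add_mul, mul_comm g]; omega
    · rw [add_mul, mul_comm g']; omega
    · have h6 := cnt_le (D := D) (c := c) (u := 0) (v := c + 1) fun μ hμ h => by omega
      rw [ht, show m - (t + 1) = z by omega, show m - (m + 1 - (t + 1)) = t by omega]
      have : k * (m + 1) = k * z + k * t + 2 * k := by rw [hz]; ring
      rw [add_mul]
      omega

lemma stripLow {m b y0 β u : ℕ} (hm : 0 < m) (hβ : β * (m + 1) = y0 + u) (hu : u ≤ m)
    (D : Finset E)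
    (H : ∀ ν ∈ D, (b < ν 0 + ν 1 ∨ (ν 0 + ν 1 = b ∧ y0 ≤ ν 1)) ∧ ν 0 + ν 1 ≤ b + m ∧
      ν 1 < β * (m + 1) ∧ (b + m < ν 0 + ν 1 + u → ν 1 + 1 < β * (m + 1))) :
    K m (β + β) D 0 := by
  have hβ0 : u ≠ 0 → 1 ≤ β := by
    intro h
    by_contra h1
    have : β = 0 := by omega
    subst this
    omega
  have hβ1 : u ≤ β * m := by
    by_cases h : u = 0
    · omega
    · exact hu.trans (Nat.le_mul_of_pos_left _ (hβ0 h))
  rw [mul_add, mul_one] at hβ H
  refine twoSweep (σ := 1) (c0 := b + m) (c1 := b) (W := m)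
    (p := β * m + β - if u = 0 then 0 else 1) (q := u)
    (Or.inl rfl) (by push_cast; ring) hm (cnt D) hβ1
    ⟨if u = 0 then 0 else 1, Or.inl ⟨by split_ifs <;> omega, le_rfl⟩, by split_ifs <;> omega⟩
    (fun c hc => ?_) D fun _ => le_rfl
  obtain ⟨ν, hν, hνc⟩ := cnt_ne hc
  have h1 := H ν hν
  refine ⟨b + m - c, by omega, ?_⟩
  by_cases h2 : c = b + m
  · refine Or.inl ⟨by omega, ?_⟩
    exact cnt_le (u := 0) (v := β * m + β - if u = 0 then 0 else 1) fun μ hμ h => by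
      have := H μ hμ; split_ifs <;> omega
  by_cases h3 : c = b
  · refine Or.inr (Or.inl ⟨by omega, β, Or.inr le_rfl, ?_⟩)
    have := cnt_le (D := D) (c := c) (u := y0) (v := β * m + β) fun μ hμ h => by
      have := H μ hμ; omega
    omega
  · obtain ⟨t, ht⟩ : ∃ t, b + m - c = t := ⟨_, rfl⟩
    obtain ⟨z, hz⟩ : ∃ z, m = t + z := ⟨m - t, by omega⟩
    rw [ht]
    refine Or.inr (Or.inr ⟨by omega, by omega, β, if u ≤ t then 0 else 1, Or.inr le_rfl,
      Or.inl ⟨by split_ifs <;> omega, by omega⟩, ?_⟩)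
    have h6 := cnt_le (D := D) (c := c) (u := 0) (v := β * m + β - if u ≤ t then 0 else 1)
      fun μ hμ h => by have := H μ hμ; split_ifs <;> omega
    rw [show m - t = z by omega, show m - z = t by omega]
    have : β * m = β * z + β * t := by rw [hz]; ring
    split_ifs at h6 ⊢ <;> omega

lemma stripUp {m b y0 β u z p κ : ℕ} (hm : 0 < m) (hβ : β * (m + 1) = y0 + u) (hu : u ≤ m)
    (hκ : κ + b = (β + z) * (m + 1)) (hp : p = y0 + m * κ) (hκz : κ ≤ z + 1)
    (hκ0 : u ≠ 0 → κ ≠ 0) (D : Finset E)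
    (H : ∀ ν ∈ D, b ≤ ν 0 + ν 1 ∧ (ν 0 + ν 1 < b + m ∨ (ν 0 + ν 1 = b + m ∧ ν 1 < p)) ∧
      (β * (m + 1) ≤ ν 1 ∨ (b + m < ν 0 + ν 1 + u ∧ β * (m + 1) ≤ ν 1 + 1))) :
    K m (z + 1 + z) D 0 := by
  have e1 : (β + z) * (m + 1) = β * (m + 1) + z * m + z := by ring
  have e2 : m * κ ≤ (z + 1) * m := by nlinarith
  rw [e1] at hκ
  generalize β * (m + 1) = h at *
  refine twoSweep (σ := -1) (c0 := b) (c1 := b + m) (W := m)
    (p := b + 1 - h) (q := p - (h - if u = 0 then 0 else 1))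
    (Or.inr rfl) (by push_cast; ring) hm (cnt D) (by split_ifs <;> omega)
    ⟨κ, Or.inl ⟨by rw [add_mul, mul_comm κ]; split_ifs <;> omega, le_rfl⟩, by omega⟩
    (fun c hc => ?_) D fun _ => le_rfl
  obtain ⟨ν, hν, hνc⟩ := cnt_ne hc
  have h1 := H ν hν
  refine ⟨c - b, by omega, ?_⟩
  by_cases h2 : c = b
  · refine Or.inl ⟨by omega, ?_⟩
    exact cnt_le fun μ hμ h => by have := H μ hμ; omega
  by_cases h3 : c = b + m
  · refine Or.inr (Or.inl ⟨by omega, z, Or.inr le_rfl, ?_⟩)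
    have := cnt_le (D := D) (c := c) (u := h - if u = 0 then 0 else 1) (v := p) fun μ hμ h => by
      have := H μ hμ; split_ifs <;> omega
    omega
  · obtain ⟨t, ht⟩ : ∃ t, c - b = t := ⟨_, rfl⟩
    obtain ⟨j, hj⟩ : ∃ j, m = t + j := ⟨m - t, by omega⟩
    rw [ht, show m - t = j by omega, show m - j = t by omega]
    have e3 : z * m = z * j + z * t := by rw [hj]; ring
    by_cases h4 : j < u
    · obtain ⟨κ', rfl⟩ : ∃ κ', κ = κ' + 1 := ⟨κ - 1, by have := hκ0 (by omega); omega⟩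
      have : m ≤ m * (κ' + 1) := Nat.le_mul_of_pos_right _ (by omega)
      refine Or.inr (Or.inr ⟨by omega, by omega, z, κ', Or.inr le_rfl,
        Or.inl ⟨by rw [mul_comm (κ' + 1), if_neg (by omega)]; omega, by omega⟩, ?_⟩)
      have h6 := cnt_le (D := D) (c := c) (u := h - 1) (v := c + 1)
        fun μ hμ h => by have := H μ hμ; omega
      rw [add_mul]
      omega
    · refine Or.inr (Or.inr ⟨by omega, by omega, z, κ, Or.inr le_rfl,
        Or.inl ⟨by rw [add_mul, mul_comm κ]; split_ifs <;> omega, by omega⟩, ?_⟩)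
      have h6 := cnt_le (D := D) (c := c) (u := h) (v := c + 1)
        fun μ hμ h => by have := H μ hμ; omega
      rw [add_mul]
      omega

lemma sq_lower {m k b y : ℕ} (h : T b + y = k ^ 2 * T m) (hy : y ≤ b) : k * m ≤ b := by
  refine le_of_T_le hy ?_
  have h1 := two_T (k * m)
  have h2 := two_T m
  rcases Nat.eq_zero_or_pos k with rfl | hk
  · simp [T]
  · have : k * m * (k * m + 1) ≤ k * m * (k * m + k) := Nat.mul_le_mul_left _ (by omega)
    nlinarith

lemma sq_upper {m k b y : ℕ} (h : T b + y = k ^ 2 * T m) (hk : 2 ≤ k) : b + 2 ≤ k * (m + 1) := by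
  by_contra h0
  obtain ⟨x, hx⟩ : ∃ x, k * (m + 1) = x + 1 := ⟨k * (m + 1) - 1, by
    have : 0 < k * (m + 1) := by positivity
    omega⟩
  have h1 := T_mono (show x ≤ b by omega)
  have h2 := two_T x
  have h3 := two_T m
  have h4 : k * m + 1 ≤ x := by rw [mul_add] at hx; omega
  have h5 : 2 * (k ^ 2 * T m) = (k * m) * (x + 1) := by
    rw [← hx, mul_left_comm, h3]; ring
  have h6 : (k * m + 1) * (x + 1) ≤ x * (x + 1) := Nat.mul_le_mul_right _ h4
  nlinarith

lemma sq_upper' {m k b y : ℕ} (h : T b + y = k ^ 2 * T m) : b + 1 ≤ k * (m + 1) ∨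
    (k = 0 ∧ b = 0 ∧ y = 0) := by
  rcases k with _ | _ | k
  · have := le_T b
    right; simp at h; omega
  · left
    have := le_of_T_le (a := b) (c := m) (p := 0) (by omega) (by simp at h; omega)
    omega
  · have := sq_upper h (by omega)
    omega

lemma mul_cases {B : ℤ} (hB : 0 ≤ B) (x : ℤ) :
    (1 ≤ x ∧ B ≤ B * x) ∨ (x = 0 ∧ B * x = 0) ∨ (x ≤ -1 ∧ B * x ≤ -B) := by
  rcases lt_trichotomy x 0 with h | h | h
  · exact Or.inr (Or.inr ⟨by omega, by nlinarith⟩)
  · exact Or.inr (Or.inl ⟨h, by simp [h]⟩)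
  · exact Or.inl ⟨by omega, by nlinarith⟩

lemma strip {m k b y0 e p : ℕ} (hm : 0 < m) (hb : T b + y0 = k ^ 2 * T m) (hy : y0 ≤ b)
    (he : T e + p = (k + 1) ^ 2 * T m) (hp : p ≤ e) (D : Finset E)
    (H : ∀ ν ∈ D, (b < ν 0 + ν 1 ∨ (ν 0 + ν 1 = b ∧ y0 ≤ ν 1)) ∧
      (ν 0 + ν 1 < e ∨ (ν 0 + ν 1 = e ∧ ν 1 < p))) : K m (2 * k + 1) D 0 := by
  classical
  have b1 := sq_lower hb hy
  have b2 := sq_upper' hb
  have b3 := sq_lower he hp
  have b4 := sq_upper' he
  have hT := two_T m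
  have e0 : (k + 1) ^ 2 * T m = k ^ 2 * T m + k * m * (m + 1) + T m := by
    rw [mul_assoc k m, ← hT]; ring
  have b2' : b ≤ k * (m + 1) := by omega
  have w1 : b + m ≤ e := by
    refine le_of_T_le hp ?_
    have : b * m ≤ k * (m + 1) * m := Nat.mul_le_mul_right _ b2'
    rw [T_add]
    nlinarith
  have w2 : e ≤ b + m + 1 := by
    by_contra h
    have h1 := T_mono (show b + (m + 1 + 1) ≤ e by omega)
    rw [T_add, T_succ, T_succ] at h1
    have : k * m * (m + 1) ≤ b * (m + 1) := Nat.mul_le_mul_right _ b1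
    nlinarith
  rcases (show e = b + m + 1 ∨ e = b + m by omega) with rfl | rfl
  · have h1 : b + 1 ≤ k * (m + 1) := by rw [add_mul] at b4; omega
    obtain ⟨κ, hκ⟩ := Nat.exists_eq_add_of_le h1
    rw [show 2 * k + 1 = k + (k + 1) by ring]
    refine stripA (κ := κ) (q := b + 1 - y0) (y0 := y0) (p := p) (b := b) hm (by omega) (by omega)
      ?_ (by rw [mul_add] at hκ; omega) D H
    rw [add_assoc b m, T_add, T_succ] at he
    have : k * m * (m + 1) = m * (b + 1) + m * κ := by rw [← mul_add, ← hκ]; ring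
    have : b * (m + 1) + (m + 1) = m * (b + 1) + (b + 1) := by ring
    omega
  · obtain ⟨κ, hκ⟩ := Nat.exists_eq_add_of_le b2'
    have hpy : p = y0 + m * κ := by
      rw [T_add] at he
      have : k * m * (m + 1) = b * m + m * κ := by rw [mul_comm b, ← mul_add, ← hκ]; ring
      omega
    obtain ⟨β, u, hβ, hu⟩ : ∃ β u, β * (m + 1) = y0 + u ∧ u ≤ m := by
      have d1 := Nat.div_add_mod (y0 + m) (m + 1)
      have d2 := Nat.mod_lt (y0 + m) (Nat.succ_pos m)
      generalize (y0 + m) / (m + 1) = β at *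
      generalize (y0 + m) % (m + 1) = ρ at *
      exact ⟨β, m - ρ, by rw [mul_comm β]; omega, by omega⟩
    have hκ1 : k ≠ 0 → κ ≠ 0 := by
      intro hk
      have := sq_upper he (by omega)
      rw [add_mul] at this
      omega
    have hβκ : β + κ ≤ k + 1 := by
      by_contra h
      have : (k + 2) * (m + 1) ≤ (β + κ) * (m + 1) := Nat.mul_le_mul_right _ (by omega)
      rw [add_mul, add_mul, mul_add κ, mul_comm κ] at this
      omega
    have hβ0 : k = 0 → β = 0 := by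
      intro hk
      by_contra h
      have : m + 1 ≤ β * (m + 1) := Nat.le_mul_of_pos_left _ (by omega)
      subst hk
      omega
    have hβk : β ≤ k := by omega
    obtain ⟨z, rfl⟩ := Nat.exists_eq_add_of_le hβk
    have hu0 : u ≠ 0 → κ ≠ 0 := by
      intro h
      refine hκ1 fun h1 => ?_
      rw [hβ0 h1] at hβ
      omega
    let B : ℕ := m + 1
    let w : Fin 2 → ℤ := ![1, B + 1]
    have hw : ∀ ν : E, wt w ν = B * (ν 1 : ℤ) + (ν 0 + ν 1 : ℕ) := by
      intro ν; simp [wt, w]; ring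
    have := K_cut (m := m) D _ _ w (B * ((β * (m + 1) : ℕ) - 1) + (b + m - u : ℕ))
      (fun ν hν h => Finset.mem_filter.2 ⟨hν, h⟩) (fun ν hν h => Finset.mem_filter.2 ⟨hν, h⟩)
      (stripLow hm hβ hu (b := b) _ fun ν hν => ?_)
      (stripUp hm hβ hu (b := b) (z := z) (by omega) hpy (by omega) hu0 _ fun ν hν => ?_)
    · rw [show 2 * (β + z) + 1 = β + β + (z + 1 + z) by ring]
      exact this
    · rw [Finset.mem_filter, hw] at hν
      have h1 := H ν hν.1
      have h2 := mul_cases (B := B) (by omega) ((ν 1 : ℤ) - ((β * (m + 1) : ℕ) - 1))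
      rw [mul_sub] at h2
      omega
    · rw [Finset.mem_filter, hw] at hν
      have h1 := H ν hν.1
      have h2 := mul_cases (B := B) (by omega) ((ν 1 : ℤ) - ((β * (m + 1) : ℕ) - 1))
      rw [mul_sub] at h2
      omega

theorem squares {m : ℕ} (hm : 0 < m) (k : ℕ) : K m (k ^ 2) (DN (k ^ 2 * T m)) 0 := by
  classical
  induction k with
  | zero =>
    have : DN (0 ^ 2 * T m) = ∅ := by
      rw [Finset.eq_empty_iff_forall_notMem]
      intro ν hν
      simpa using mem_DN.1 hν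
    rw [this]
    exact ⟨0, by simp [sp_empty]⟩
  | succ k ih =>
    obtain ⟨b, y0, hb, hy⟩ := exists_layer (k ^ 2 * T m)
    obtain ⟨e, p, he, hp⟩ := exists_layer ((k + 1) ^ 2 * T m)
    let B : ℕ := e + y0 + 1
    let w : Fin 2 → ℤ := ![B, B + 1]
    have hw : ∀ ν : E, wt w ν = B * ((ν 0 + ν 1 : ℕ) : ℤ) + ν 1 := by
      intro ν; simp [wt, w]; ring
    have := K_cut (m := m) (DN ((k + 1) ^ 2 * T m)) _ _ w (B * b + y0 - 1)
      (fun ν hν h => ?_) (fun ν hν h => Finset.mem_filter.2 ⟨hν, h⟩) ih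
      (strip hm hb hy he hp _ fun ν hν => ?_)
    · rw [show (k + 1) ^ 2 = k ^ 2 + (2 * k + 1) by ring] at *
      exact this
    · rw [← he, mem_DN' (by omega)] at hν
      rw [← hb, mem_DN' (by omega)]
      rw [hw] at h
      have h2 := mul_cases (B := B) (by omega) (((ν 0 + ν 1 : ℕ) : ℤ) - b)
      rw [mul_sub] at h2
      omega
    · rw [Finset.mem_filter, ← he, mem_DN' (by omega), hw] at hν
      have h2 := mul_cases (B := B) (by omega) (((ν 0 + ν 1 : ℕ) : ℤ) - b)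
      rw [mul_sub] at h2
      omega

end Pool.Agent.Lib.MP_d03834_ag
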