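import Pool.Agent.Lib.MP_d03834_ag.Node

set_option autoImplicit false

open MvPolynomial Module Filter

namespace Pool.Agent.Lib.MP_d03834_ag

lemma DN_mono {N N' : ℕ} (h : N ≤ N') : DN N ⊆ DN N' :=
  fun _ hν => mem_DN.2 ((mem_DN.1 hν).trans_le h)

lemma finrank_DN_add (N b : ℕ) (I : Submodule ℂ R) :
    finrank ℂ ↥(sp (DN (N + b)) ⊓ I) ≤ finrank ℂ ↥(sp (DN N) ⊓ I) + b := by
  classical
  refine (finrank_sp_inf_le _ (DN N) ((DN (N + b)).filter fun ν => N ≤ idx ν) I ?_).trans ?_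
  · intro ν hν
    rw [Finset.mem_union, Finset.mem_filter, mem_DN]
    by_cases h : idx ν < N
    · exact Or.inl h
    · exact Or.inr ⟨hν, by omega⟩
  · have := Finset.card_le_card_of_injOn (s := (DN (N + b)).filter fun ν => N ≤ idx ν)
      (t := Finset.Ico N (N + b)) idx (fun ν hν => by
        simp only [Finset.coe_filter, Set.mem_ofPred_eq, mem_DN] at hν
        simp only [Finset.coe_Ico, Set.mem_Ico]
        omega) idx_inj.injOn
    rw [Nat.card_Ico] at this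
    omega

lemma K_DN_zero (m n : ℕ) : K m n (DN 0) 0 := by
  have : DN 0 = ∅ := by
    rw [Finset.eq_empty_iff_forall_notMem]
    intro ν hν
    simpa using mem_DN.1 hν
  rw [this]
  exact ⟨0, by simp [sp_empty]⟩

/-- emptiness below and independence above a window of half width `B` -/
def Win (m n B : ℕ) : Prop := K m n (DN (n * T m - B)) 0 ∧ K m n (DN (n * T m + B)) B

lemma Win.mono {m n B B' : ℕ} (h : Win m n B) (hB : B ≤ B') : Win m n B' := by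
  obtain ⟨b, rfl⟩ := Nat.exists_eq_add_of_le hB
  refine ⟨G.mono h.1 (sp_mono (DN_mono (by omega))) le_rfl, ?_⟩
  obtain ⟨P, hP⟩ := h.2
  refine ⟨P, ?_⟩
  rw [← add_assoc]
  exact (finrank_DN_add _ _ _).trans (by omega)

lemma Win_sq (m k : ℕ) : Win m (k ^ 2) 0 := ⟨squares' m k, squares' m k⟩

lemma layer_sqrt {c p : ℕ} (hp : p ≤ c) :
    (c : ℝ) + 1 / 2 ≤ √(2 * ((T c + p : ℕ) : ℝ) + 1 / 4) ∧
      √(2 * ((T c + p : ℕ) : ℝ) + 1 / 4) ≤ c + 3 / 2 := by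
  have h : (2 * T c : ℝ) = c * (c + 1) := by exact_mod_cast two_T c
  have h1 : (p : ℝ) ≤ c := by exact_mod_cast hp
  have h2 : (0 : ℝ) ≤ p := by positivity
  push_cast
  constructor
  · exact Real.le_sqrt_of_sq_le (by nlinarith)
  · exact Real.sqrt_le_iff.2 ⟨by positivity, by nlinarith⟩

lemma eta_bound {d j0 e : ℕ} {α j : Fin 9 → ℕ} (hj0 : j0 ≤ d) (hj : ∀ i, j i ≤ α i)
    {x z u S V : ℝ} (hx : ((T d + j0 : ℕ) : ℝ) ≤ (∑ i, (T (α i) + j i) : ℕ) + x)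
    (hS : S ≤ ∑ i, √(2 * ((T (α i) + j i : ℕ) : ℝ) + 1 / 4))
    (hV : ∑ i, (√(2 * ((T (α i) + j i : ℕ) : ℝ) + 1 / 4) - z) ^ 2 ≤ V)
    (hu0 : 0 ≤ u) (hu : 9 * V + 18 * x ≤ 2 * S * u) (he : u + 12 ≤ e) :
    3 * d ≤ ∑ i, α i + e := by
  set s : Fin 9 → ℝ := fun i => √(2 * ((T (α i) + j i : ℕ) : ℝ) + 1 / 4) with hs
  have h1 : ∑ i, s i ≤ ∑ i, ((α i : ℝ) + 3 / 2) :=
    Finset.sum_le_sum fun i _ => (layer_sqrt (hj i)).2
  rw [Finset.sum_add_distrib] at h1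
  simp only [Finset.sum_const, Finset.card_univ, Fintype.card_fin, nsmul_eq_mul] at h1
  have h2 := (layer_sqrt hj0).1
  have h3 : ∑ i, s i ^ 2 = 2 * (∑ i, (T (α i) + j i) : ℕ) + 9 / 4 := by
    have : ∀ i, s i ^ 2 = 2 * ((T (α i) + j i : ℕ) : ℝ) + 1 / 4 := fun i =>
      Real.sq_sqrt (by positivity)
    simp only [this, Finset.sum_add_distrib, ← Finset.mul_sum]
    simp only [Finset.sum_const, Finset.card_univ, Fintype.card_fin, nsmul_eq_mul]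
    push_cast
    simp only [Finset.sum_add_distrib]
    ring
  have h4 : ∑ i, (s i - z) ^ 2 = ∑ i, s i ^ 2 - 2 * z * ∑ i, s i + 9 * z ^ 2 := by
    have : ∀ i, (s i - z) ^ 2 = s i ^ 2 - 2 * z * s i + z ^ 2 := fun i => by ring
    simp only [this, Finset.sum_add_distrib, Finset.sum_sub_distrib, ← Finset.mul_sum]
    simp
  have h5 : 0 ≤ ∑ i, s i := Finset.sum_nonneg fun i _ => Real.sqrt_nonneg _
  have h6 : √(2 * ((T d + j0 : ℕ) : ℝ) + 1 / 4) ≤ (∑ i, s i + u) / 3 := by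
    refine Real.sqrt_le_iff.2 ⟨by positivity, ?_⟩
    have : S * u ≤ (∑ i, s i) * u := mul_le_mul_of_nonneg_right hS hu0
    nlinarith [sq_nonneg (∑ i, s i - 9 * z), sq_nonneg u]
  have h7 : (3 * d : ℝ) ≤ ∑ i, (α i : ℝ) + e := by
    norm_num at h1
    linarith
  exact_mod_cast h7

lemma sq_sqrt_bound {k a y : ℕ} {M r : ℝ} (hM : M ^ 2 = 2 * r) (hM0 : 0 ≤ M) (hM2 : 2 ≤ M ^ 2)
    (hy : ((k : ℝ) - a) ^ 2 = (y : ℝ) ^ 2) :
    k * M ≤ √(2 * ((k : ℝ) ^ 2 * r) + 1 / 4) ∧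
      (√(2 * ((k : ℝ) ^ 2 * r) + 1 / 4) - a * M) ^ 2 ≤ (2 * (y : ℝ) ^ 2 + 1 / 4) * M ^ 2 := by
  have h0 : (0 : ℝ) ≤ k * M := by positivity
  have h1 : k * M ≤ √(2 * ((k : ℝ) ^ 2 * r) + 1 / 4) := Real.le_sqrt_of_sq_le (by nlinarith)
  have h2 : √(2 * ((k : ℝ) ^ 2 * r) + 1 / 4) ≤ k * M + 1 / 2 :=
    Real.sqrt_le_iff.2 ⟨by positivity, by nlinarith⟩
  refine ⟨h1, ?_⟩
  generalize √(2 * ((k : ℝ) ^ 2 * r) + 1 / 4) = s at *
  have h3 : (s - k * M) ^ 2 ≤ 1 / 4 := by nlinarith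
  have h4 : (s - a * M) ^ 2 ≤ 2 * (s - k * M) ^ 2 + 2 * ((k - a) ^ 2 * M ^ 2) := by
    nlinarith [sq_nonneg (s - k * M - (k - a) * M)]
  rw [hy] at h4
  nlinarith

lemma step_eta {m a E N' N0 e : ℕ} {M : ℝ} (hM : M ^ 2 = 2 * T m) (hM0 : 0 ≤ M) (hm : a ≤ m)
    (hE : 3 * (2 * E + 20) ≤ a) (y : Fin 4 → ℕ) (hy : ∑ i, y i ^ 2 = E)
    (h1 : ((a : ℝ) - 6) ^ 2 * M ^ 2 ≤ 2 * N') (h2 : 2 * (N' : ℝ) + 1 / 4 ≤ (a + 6) ^ 2 * M ^ 2)
    (h0 : (N0 : ℝ) ≤ N' + (8 * a ^ 2 + 2 * E) * T m + M ^ 2)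
    (he : 13 + 2 * (2 * E + 20) * M / a ≤ e) {n' k' : ℕ} (hK : K m n' (DN N') k') :
    K m (n' + (8 * a ^ 2 + 2 * E)) (DN N0) (N0 + e ^ 2 - (N' + (8 * a ^ 2 + 2 * E) * T m) + k') ∧
    K m (n' + (8 * a ^ 2 + 2 * E)) (DN N0)
      (max (e ^ 2) (N0 - (N' + (8 * a ^ 2 + 2 * E) * T m)) + k') := by
  have hya : ∀ i, y i ≤ a := by
    intro i
    have h3 : y i ^ 2 ≤ E := hy ▸ Finset.single_le_sum (f := fun i => y i ^ 2)
      (fun _ _ => Nat.zero_le _) (Finset.mem_univ i)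
    nlinarith
  let κ : Fin 8 → ℕ := ![a + y 0, a - y 0, a + y 1, a - y 1, a + y 2, a - y 2, a + y 3, a - y 3]
  let υ : Fin 8 → ℕ := ![y 0, y 0, y 1, y 1, y 2, y 2, y 3, y 3]
  have hκ : ∀ i, ((κ i : ℝ) - a) ^ 2 = (υ i : ℝ) ^ 2 := by
    intro i
    fin_cases i <;> simp [κ, υ, Nat.cast_sub (hya _)]
  have hκ1 : ∑ i, (κ i : ℝ) = 8 * a := by
    simp [κ, Fin.sum_univ_eight, Nat.cast_sub (hya _)]; ring
  have hκ2 : ∑ i, κ i ^ 2 = 8 * a ^ 2 + 2 * E := by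
    rw [← hy]
    zify
    simp [κ, Fin.sum_univ_eight, Fin.sum_univ_four, Nat.cast_sub (hya _)]; ring
  have hυ : ∑ i, (υ i : ℝ) ^ 2 = 2 * E := by
    rw [← hy]
    simp [υ, Fin.sum_univ_eight, Fin.sum_univ_four]; ring
  let N : Fin 9 → ℕ := Fin.cons N' fun i => κ i ^ 2 * T m
  choose α j hN hj using fun i => exists_layer (N i)
  obtain ⟨d, j0, rfl, hj0⟩ := exists_layer N0
  have hsum : ∑ i, (T (α i) + j i) = N' + (8 * a ^ 2 + 2 * E) * T m := by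
    simp only [hN, N, Fin.sum_univ_succ (n := 8), Fin.cons_zero, Fin.cons_succ]
    rw [← Finset.sum_mul, hκ2]
  have ha : (60 : ℝ) ≤ a := by exact_mod_cast (show 60 ≤ a by omega)
  have hmM : (a : ℝ) ≤ M := by
    have h3 : (2 * T m : ℝ) = m * (m + 1) := by exact_mod_cast two_T m
    have h4 : (a : ℝ) ≤ m := by exact_mod_cast hm
    exact abs_le_of_sq_le_sq' (by nlinarith) hM0 |>.2
  have hM2 : 2 ≤ M ^ 2 := by nlinarith
  have c1 : ((a : ℝ) - 6) * M ≤ √(2 * (N' : ℝ) + 1 / 4) := Real.le_sqrt_of_sq_le (by nlinarith)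
  have c2 : √(2 * (N' : ℝ) + 1 / 4) ≤ ((a : ℝ) + 6) * M :=
    Real.sqrt_le_iff.2 ⟨by positivity, by nlinarith⟩
  have key := node m d j0 e hj0 α j (Fin.cons n' fun i => κ i ^ 2) (Fin.cons k' fun _ => 0) hj
    (fun i => by
      rw [hN]
      exact Fin.cases hK (fun i => squares' m (κ i)) i)
    (eta_bound hj0 hj (x := M ^ 2) (z := a * M) (u := 2 * (2 * E + 20) * M / a) (S := 8 * a * M)
      (V := (4 * E + 38) * M ^ 2) (by rw [hsum]; push_cast at h0 ⊢; linarith) (by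
        simp only [hN, N, Fin.sum_univ_succ (n := 8), Fin.cons_zero, Fin.cons_succ]
        have : ∑ i, κ i * M ≤ ∑ i : Fin 8, √(2 * ((κ i ^ 2 * T m : ℕ) : ℝ) + 1 / 4) :=
          Finset.sum_le_sum fun i _ => by
            push_cast
            exact (sq_sqrt_bound hM hM0 hM2 (hκ i)).1
        rw [← Finset.sum_mul, hκ1] at this
        have := Real.sqrt_nonneg (2 * (N' : ℝ) + 1 / 4)
        linarith) (by
        simp only [hN, N, Fin.sum_univ_succ (n := 8), Fin.cons_zero, Fin.cons_succ]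
        have : ∑ i : Fin 8, (√(2 * ((κ i ^ 2 * T m : ℕ) : ℝ) + 1 / 4) - a * M) ^ 2 ≤
            ∑ i, (2 * (υ i : ℝ) ^ 2 + 1 / 4) * M ^ 2 :=
          Finset.sum_le_sum fun i _ => by
            push_cast
            exact (sq_sqrt_bound hM hM0 hM2 (hκ i)).2
        rw [← Finset.sum_mul, Finset.sum_add_distrib, ← Finset.mul_sum, hυ] at this
        simp only [Finset.sum_const, Finset.card_univ, Fintype.card_fin, nsmul_eq_mul] at this
        have h3 : (√(2 * (N' : ℝ) + 1 / 4) - a * M) ^ 2 ≤ (6 * M) ^ 2 :=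
          sq_le_sq' (by linarith) (by linarith)
        push_cast at this ⊢
        linarith) (by positivity) (by
        have : 2 * (8 * a * M) * (2 * (2 * E + 20) * M / a) = 32 * (2 * E + 20) * M ^ 2 := by
          field_simp; ring
        rw [this]
        have : (0 : ℝ) ≤ E * M ^ 2 := by positivity
        nlinarith) (by linarith))
  simp only [Fin.sum_univ_succ (n := 8), Fin.cons_zero, Fin.cons_succ, hκ2, Finset.sum_const_zero,
    add_zero] at key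
  rw [← hsum]
  simpa only [Fin.sum_univ_succ (n := 8)] using key

lemma step {m a E n' B' : ℕ} (hm : a ≤ m) (hE : 3 * (2 * E + 20) ≤ a)
    (h1 : ((a : ℝ) - 9 / 2) ^ 2 ≤ n') (h2 : (n' : ℝ) ≤ (a + 5) ^ 2) (hB : B' ≤ 2 * T m)
    (h : Win m n' B') : ∃ e : ℕ, (e : ℝ) ^ 2 ≤ 9 * (2 * E + 20) ^ 2 * (2 * T m) / a ^ 2 ∧
      Win m (n' + (8 * a ^ 2 + 2 * E)) (B' + e ^ 2) := by
  obtain ⟨y0, y1, y2, y3, hy⟩ := Nat.sum_four_squares E
  set M : ℝ := √(2 * T m) with hMdef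
  have hM : M ^ 2 = 2 * T m := Real.sq_sqrt (by positivity)
  have hM0 : 0 ≤ M := Real.sqrt_nonneg _
  have ha : (60 : ℝ) ≤ a := by exact_mod_cast (show 60 ≤ a by omega)
  have hmM : (a : ℝ) ≤ M := by
    have h3 : (2 * T m : ℝ) = m * (m + 1) := by exact_mod_cast two_T m
    have h4 : (a : ℝ) ≤ m := by exact_mod_cast hm
    exact abs_le_of_sq_le_sq' (by nlinarith) hM0 |>.2
  have hE' : 3 * (2 * E + 20 : ℝ) ≤ a := by exact_mod_cast hE
  have hB' : (B' : ℝ) ≤ M ^ 2 := by rw [hM]; exact_mod_cast hB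
  have hMa : 1 ≤ M / a := by rw [le_div_iff₀ (by linarith)]; linarith
  let e := ⌈13 + 2 * (2 * E + 20) * M / a⌉₊
  have he1 : 13 + 2 * (2 * E + 20) * M / a ≤ e := Nat.le_ceil _
  have he2 : (e : ℝ) ≤ 3 * (2 * E + 20) * (M / a) := by
    have := Nat.ceil_lt_add_one (show 0 ≤ 13 + 2 * (2 * E + 20) * M / a by positivity)
    have h3 : (0 : ℝ) ≤ E := by positivity
    rw [mul_div_assoc] at this
    have h4 : (e : ℝ) < 13 + 2 * (2 * E + 20) * (M / a) + 1 := by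
      simpa only [e, mul_div_assoc] using this
    nlinarith
  have he3 : (e : ℝ) ≤ M := by
    refine he2.trans ?_
    rw [← mul_div_assoc, div_le_iff₀ (by linarith)]
    nlinarith
  have he4 : (e : ℝ) ^ 2 ≤ M ^ 2 := by gcongr
  have hT : (0 : ℝ) ≤ T m := by positivity
  have hn2 : 2 ≤ n' := by exact_mod_cast (show (2 : ℝ) ≤ n' by nlinarith)
  have hBn : B' ≤ n' * T m := hB.trans (Nat.mul_le_mul_right _ hn2)
  have hB0 : (0 : ℝ) ≤ B' := by positivity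
  refine ⟨e, ?_, ?_, ?_⟩
  · rw [← hM]
    calc (e : ℝ) ^ 2 ≤ (3 * (2 * E + 20) * (M / a)) ^ 2 := by gcongr
      _ = _ := by field_simp; ring
  · by_cases h0 : (n' + (8 * a ^ 2 + 2 * E)) * T m ≤ B' + e ^ 2
    · rw [Nat.sub_eq_zero_of_le h0]; exact K_DN_zero _ _
    refine G.mono (step_eta (N0 := (n' + (8 * a ^ 2 + 2 * E)) * T m - (B' + e ^ 2)) hM hM0 hm hE
      ![y0, y1, y2, y3] (by simpa [Fin.sum_univ_four] using hy) ?_ ?_ ?_ he1 h.1).1 le_rfl ?_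
    · rw [Nat.cast_sub hBn, Nat.cast_mul]; nlinarith
    · rw [Nat.cast_sub hBn, Nat.cast_mul]; nlinarith
    · rw [Nat.cast_sub hBn, Nat.cast_sub (by omega)]
      push_cast
      nlinarith
    · rw [add_mul] at h0 ⊢; omega
  · refine G.mono (step_eta (N0 := (n' + (8 * a ^ 2 + 2 * E)) * T m + (B' + e ^ 2)) hM hM0 hm hE
      ![y0, y1, y2, y3] (by simpa [Fin.sum_univ_four] using hy) ?_ ?_ ?_ he1 h.2).2 le_rfl ?_
    · push_cast; nlinarith
    · push_cast; nlinarith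
    · push_cast; nlinarith
    · rw [add_mul]; omega

end Pool.Agent.Lib.MP_d03834_ag
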