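import Pool.Agent.Lib.MP_d03834_ag.Move

set_option autoImplicit false

open MvPolynomial Module Filter

namespace Pool.Agent.Lib.MP_d03834_ag

/-- every diagram with column lengths at most `len` is killed by `n` points -/
def KL (m n : ℕ) (len : ℕ → ℕ) : Prop := ∀ D : Finset E, (∀ c, cnt D c ≤ len c) → K m n D 0

lemma KL_zero (m : ℕ) : KL m 0 (fun _ => 0) := by
  intro D hD
  have : D = ∅ := by
    rw [Finset.eq_empty_iff_forall_notMem]
    intro ν hν
    exact cnt_pos hν (Nat.le_zero.1 (hD _))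
  subst this
  exact ⟨0, by simp [sp_empty]⟩

/-- bonus condition -/
def Cond (m p t a g : ℕ) : Prop := (p + t ≤ (g + 1) * m ∧ t ≤ m) ∨ a ≤ g

lemma sweep {m n c0 : ℕ} {σ : ℤ} (hσ : σ = 1 ∨ σ = -1) {len' : ℕ → ℕ} (h' : KL m n len')
    (a : ℕ) : ∀ (p : ℕ) (len : ℕ → ℕ), p ≤ len' c0 + a * m →
      (∀ c, len c ≠ 0 → ∃ t : ℕ, σ * ((c0 : ℤ) - c) = t ∧ ((t = 0 ∧ len c ≤ p) ∨
        (0 < t ∧ ∃ g, Cond m p t a g ∧ len c ≤ len' c + a * (m - t) + (a - g)))) →
      KL m (n + a) len := by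
  induction a with
  | zero =>
    intro p len hp h D hD
    refine h' D fun c => (hD c).trans ?_
    by_cases h0 : len c = 0
    · omega
    · obtain ⟨t, ht, h1 | ⟨_, g, _, h1⟩⟩ := h c h0
      · have : c = c0 := by rcases hσ with rfl | rfl <;> omega
        subst this
        omega
      · omega
  | succ a ih =>
    intro p len hp h D hD
    have hc0 : cnt D c0 ≤ p := by
      by_cases h0 : len c0 = 0
      · have := hD c0; omega
      · obtain ⟨t, ht, h1 | ⟨h1, _⟩⟩ := h c0 h0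
        · exact (hD c0).trans h1.2
        · simp at ht; omega
    refine move (π := min m p) (c0 := c0) hσ D (fun ν hν => ?_) (by omega) (by omega)
      fun D' _ hD' => ?_
    · obtain ⟨t, ht, _⟩ := h (ν 0 + ν 1) (fun h0 => cnt_pos hν (by have := hD (ν 0 + ν 1); omega))
      omega
    · refine ih (p - min m p) (cnt D') (by rw [add_mul] at hp; omega) (fun c hc => ?_) D'
        fun _ => le_rfl
      have h1 := hD' c
      have h2 := hD c
      obtain ⟨t, ht, h3⟩ := h c (by omega)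
      refine ⟨t, ht, ?_⟩
      rw [ht, Int.toNat_natCast] at h1
      rcases h3 with ⟨rfl, h3⟩ | ⟨h3, g, hg, h4⟩
      · left
        simp only [pat, if_true] at h1
        omega
      · right
        simp only [pat, if_neg h3.ne'] at h1
        rw [add_mul] at h4
        refine ⟨h3, ?_⟩
        rcases hg with ⟨hg1, hg2⟩ | hg
        · rcases g with _ | g
          · refine ⟨0, Or.inl ⟨by omega, hg2⟩, ?_⟩
            rw [if_pos (by omega)] at h1
            omega
          · refine ⟨g, Or.inl ⟨?_, hg2⟩, by omega⟩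
            have : m ≤ (g + 1) * m := Nat.le_mul_of_pos_left _ (Nat.succ_pos _)
            rw [add_mul (g + 1)] at hg1
            omega
        · exact ⟨g, Or.inr (by omega), by omega⟩

lemma twoSweep {m a b p q W c0 c1 : ℕ} {σ : ℤ} (hσ : σ = 1 ∨ σ = -1)
    (hW : σ * ((c0 : ℤ) - c1) = W) (hW0 : 0 < W) (len : ℕ → ℕ) (hq : q ≤ b * m)
    (hp : ∃ g', Cond m q W b g' ∧ p ≤ a * m + b * (m - W) + (b - g'))
    (h : ∀ c, len c ≠ 0 → ∃ t : ℕ, σ * ((c0 : ℤ) - c) = t ∧ ((t = 0 ∧ len c ≤ p) ∨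
      (t = W ∧ ∃ g, Cond m p W a g ∧ len c ≤ q + a * (m - W) + (a - g)) ∨
      (0 < t ∧ t < W ∧ ∃ g g', Cond m p t a g ∧ Cond m q (W - t) b g' ∧
        len c ≤ a * (m - t) + (a - g) + b * (m - (W - t)) + (b - g')))) :
    KL m (b + a) len := by
  classical
  have hex : ∀ s : ℕ, ∃ g', Cond m q s b g' := fun s => ⟨b, Or.inr le_rfl⟩
  let γ : ℕ → ℕ := fun s => Nat.find (hex s)
  have hγ : ∀ s, Cond m q s b (γ s) := fun s => Nat.find_spec (hex s)
  have hγ' : ∀ s g', Cond m q s b g' → γ s ≤ g' := fun s g' h => Nat.find_min' (hex s) h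
  let len' : ℕ → ℕ := fun c => if 0 < -σ * ((c1 : ℤ) - c) then
    b * (m - (-σ * ((c1 : ℤ) - c)).toNat) + (b - γ (-σ * ((c1 : ℤ) - c)).toNat)
    else if c = c1 then q else 0
  have hlen' : ∀ c s : ℕ, -σ * ((c1 : ℤ) - c) = s → 0 < s →
      len' c = b * (m - s) + (b - γ s) := by
    intro c s hs hs0
    simp only [len', hs, Int.toNat_natCast]
    rw [if_pos (by omega)]
  have hlen1 : len' c1 = q := by simp [len']
  have h1 : KL m (0 + b) len' := by
    refine sweep (σ := -σ) (c0 := c1) (by omega) (KL_zero m) b q len' (by omega) fun c hc => ?_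
    by_cases h0 : 0 < -σ * ((c1 : ℤ) - c)
    · obtain ⟨s, hs⟩ := Int.eq_ofNat_of_zero_le h0.le
      refine ⟨s, hs, Or.inr ⟨by omega, γ s, hγ s, ?_⟩⟩
      rw [hlen' c s hs (by omega)]
      omega
    · have : c = c1 := by
        by_contra h2
        exact hc (by simp only [len', if_neg h0, if_neg h2])
      subst this
      exact ⟨0, by simp, Or.inl ⟨rfl, hlen1.le⟩⟩
  rw [zero_add] at h1
  refine sweep hσ (c0 := c0) h1 a p len ?_ fun c hc => ?_
  · obtain ⟨g', h2, h3⟩ := hp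
    rw [hlen' c0 W (by rcases hσ with rfl | rfl <;> omega) hW0]
    have := hγ' _ _ h2
    omega
  · obtain ⟨t, ht, h2 | ⟨rfl, g, h2, h3⟩ | ⟨h2, h3, g, g', h4, h5, h6⟩⟩ := h c hc
    · exact ⟨t, ht, Or.inl h2⟩
    · have : c = c1 := by rcases hσ with rfl | rfl <;> omega
      subst this
      exact ⟨t, ht, Or.inr ⟨hW0, g, h2, by rw [hlen1]; exact h3⟩⟩
    · refine ⟨t, ht, Or.inr ⟨h2, g, h4, ?_⟩⟩
      rw [hlen' c (W - t) (by rcases hσ with rfl | rfl <;> omega) (by omega)]
      have := hγ' _ _ h5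
      omega

end Pool.Agent.Lib.MP_d03834_ag
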